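import Mathlib
import Pool.Agent.MP_108ce6_nt.Rat

-- part MP_108ce6_nt.Graeffe
section

/-! The congruence modulo four for the Chebyshev Graeffe iteration, and integral square roots. -/

namespace Pool.Agent.MP_108ce6_nt

open Polynomial

theorem even_odd (P : ℤ[X]) : ∃ A B : ℤ[X], P = expand ℤ 2 A + X * expand ℤ 2 B := by
  induction P using Polynomial.induction_on' with
  | add p q hp hq =>
    obtain ⟨A, B, rfl⟩ := hp
    obtain ⟨A', B', rfl⟩ := hq
    exact ⟨A + A', B + B', by simp only [map_add]; ring⟩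
  | monomial n a =>
    rcases Nat.even_or_odd' n with ⟨k, rfl | rfl⟩
    · exact ⟨C a * X ^ k, 0, by simp [← C_mul_X_pow_eq_monomial, pow_mul]⟩
    · refine ⟨0, C a * X ^ k, ?_⟩
      simp only [← C_mul_X_pow_eq_monomial, map_zero, map_mul, expand_C, map_pow, expand_X]
      ring

theorem sq_expand (A : ℤ[X]) : ∃ S : ℤ[X], A ^ 2 = expand ℤ 2 A + 2 * S := by
  induction A using Polynomial.induction_on' with
  | add p q hp hq =>
    obtain ⟨S, hS⟩ := hp
    obtain ⟨S', hS'⟩ := hq
    exact ⟨S + S' + p * q, by rw [map_add]; linear_combination hS + hS'⟩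
  | monomial n a =>
    obtain ⟨t, ht⟩ := Int.even_mul_pred_self a
    have h : C a * (C a - 1) = C t + C t := by rw [← C_1, ← C_sub, ← C_mul, ht, C_add]
    refine ⟨C t * X ^ (2 * n), ?_⟩
    simp only [← C_mul_X_pow_eq_monomial, map_mul, expand_C, map_pow, expand_X]
    linear_combination X ^ (2 * n) * h

theorem expand_comp_neg (A : ℤ[X]) : (expand ℤ 2 A).comp (-X) = expand ℤ 2 A := by
  rw [expand_eq_comp_X_pow, comp_assoc]
  simp

theorem graeffe_eq (A B : ℤ[X]) : expand ℤ 2 (A ^ 2 - X * B ^ 2) =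
    (expand ℤ 2 A + X * expand ℤ 2 B) * (expand ℤ 2 A + X * expand ℤ 2 B).comp (-X) := by
  rw [add_comp, mul_comp, expand_comp_neg, expand_comp_neg, X_comp]
  simp only [map_sub, map_mul, map_pow, expand_X]
  ring

theorem graeffe_roots (s : Multiset ℝ) :
    expand ℝ 2 (s.map fun θ => C (θ ^ 2) - X).prod =
      (s.map fun θ => X - C θ).prod * ((s.map fun θ => X - C θ).prod).comp (-X) ∧
    (-1) ^ s.card * ((s.map fun θ => C (θ ^ 2) - X).prod).comp (X + 2) =
      ((s.map fun θ => θ ^ 2 - 2).map fun θ => X - C θ).prod := by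
  induction s using Multiset.induction_on with
  | empty => simp
  | cons a s ih =>
    simp only [Multiset.map_cons, Multiset.prod_cons, Multiset.card_cons]
    rw [map_mul, ih.1, ← ih.2, mul_comp, mul_comp, map_sub, expand_C, expand_X, sub_comp, sub_comp,
      X_comp, X_comp, C_comp, C_comp, C_sub, C_pow, show (C 2 : ℝ[X]) = 2 from rfl]
    constructor <;> ring

theorem graeffe_step (s : Multiset ℝ) (A B : ℤ[X])
    (h : (expand ℤ 2 A + X * expand ℤ 2 B).map (Int.castRingHom ℝ) = (s.map fun θ => X - C θ).prod) :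
    ((-1 : ℤ[X]) ^ s.card * (A ^ 2 - X * B ^ 2).comp (X + 2)).map (Int.castRingHom ℝ) =
      ((s.map fun θ => θ ^ 2 - 2).map fun θ => X - C θ).prod := by
  have h1 : (A ^ 2 - X * B ^ 2).map (Int.castRingHom ℝ) = (s.map fun θ => C (θ ^ 2) - X).prod := by
    apply expand_injective (n := 2) (by norm_num)
    rw [(graeffe_roots s).1, ← map_expand, graeffe_eq, Polynomial.map_mul, map_comp, h]
    simp
  rw [← (graeffe_roots s).2, Polynomial.map_mul, map_comp, h1]
  simp

theorem graeffe_two (s : Multiset ℝ) (P : ℤ[X])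
    (h : P.map (Int.castRingHom ℝ) = (s.map fun θ => X - C θ).prod) : ∃ Q S : ℤ[X],
      Q.map (Int.castRingHom ℝ) = ((s.map fun θ => θ ^ 2 - 2).map fun θ => X - C θ).prod ∧
      (Q + 4 * S).map (Int.castRingHom ℝ) =
        (((s.map fun θ => θ ^ 2 - 2).map fun θ => θ ^ 2 - 2).map fun θ => X - C θ).prod := by
  obtain ⟨A, B, rfl⟩ := even_odd P
  have h1 := graeffe_step s A B h
  obtain ⟨SA, hA⟩ := sq_expand A
  obtain ⟨SB, hB⟩ := sq_expand B
  obtain ⟨U, hU⟩ : (2 : ℤ[X]) ∣ (A ^ 2 - X * B ^ 2).comp (X + 2) - (A ^ 2 - X * B ^ 2) := by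
    have := sub_dvd_eval_sub (X + 2 : ℤ[X]) X ((A ^ 2 - X * B ^ 2).map C)
    rwa [add_sub_cancel_left, ← eval₂_eq_eval_map, ← eval₂_eq_eval_map, eval₂_C_X] at this
  obtain ⟨W, hW⟩ : ∃ W : ℤ[X], (-1) ^ s.card * (A ^ 2 - X * B ^ 2).comp (X + 2) =
      expand ℤ 2 A + X * expand ℤ 2 B + 2 * W := by
    rcases neg_one_pow_eq_or ℤ[X] s.card with e | e
    · exact ⟨U + SA - X * SB - X * expand ℤ 2 B, by rw [e]; linear_combination hU + hA - X * hB⟩
    · exact ⟨-U - SA + X * SB - expand ℤ 2 A, by rw [e]; linear_combination -hU - hA + X * hB⟩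
  obtain ⟨A', B', rfl⟩ := even_odd W
  have h2 := graeffe_step (s.map fun θ => θ ^ 2 - 2) (A + 2 * A') (B + 2 * B') (by
    rw [← h1, hW]
    congr 1
    simp only [map_add, map_mul, map_ofNat]
    ring)
  refine ⟨_, (-1) ^ s.card * (A * A' + A' ^ 2 - X * (B * B' + B' ^ 2)).comp (X + 2), h1, ?_⟩
  rw [← h2, Multiset.card_map]
  congr 1
  simp only [sub_comp, add_comp, mul_comp, pow_comp, X_comp, ofNat_comp]
  push_cast
  ring

theorem reflect_prod (s : Multiset ℝ) :
    reflect s.card (s.map fun θ => X - C θ).prod = (s.map fun a => (1 - C a * X : ℝ[X])).prod := by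
  induction s using Multiset.induction_on with
  | empty => simp
  | cons a s ih =>
    rw [Multiset.map_cons, Multiset.map_cons, Multiset.prod_cons, Multiset.prod_cons,
      Multiset.card_cons, add_comm, reflect_mul _ _ (natDegree_X_sub_C_le a)
        (natDegree_multiset_prod_X_sub_C_eq_card s).le, ih, reflect_sub, reflect_one_X, reflect_C,
      pow_one]

theorem int_sqrt (a y : PowerSeries ℤ) (ha : PowerSeries.constantCoeff a = 1)
    (hy : PowerSeries.constantCoeff y = 0) :
    ∃ G : PowerSeries ℤ, PowerSeries.constantCoeff G = 1 ∧ G ^ 2 = a ^ 2 + 4 * y := by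
  obtain ⟨t, ht, ht0⟩ := HenselianRing.is_henselian (I := Ideal.span {(PowerSeries.X : PowerSeries ℤ)})
    (X ^ 2 + (C a * X - C y)) (monic_X_pow_add (by
      refine (degree_sub_le _ _).trans_lt (max_lt ((degree_C_mul_X_le _).trans_lt (by decide))
        (degree_C_le.trans_lt (by decide))))) 0
    (by simp [Ideal.mem_span_singleton, PowerSeries.X_dvd_iff, hy])
    (IsUnit.map _ (by
      simp only [derivative_add, derivative_sub, derivative_mul, derivative_C, derivative_X, eval_add,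
        eval_sub, eval_mul, eval_C, eval_X, derivative_X_pow, eval_pow, eval_zero, eval_one]
      simp [PowerSeries.isUnit_iff_constantCoeff, ha]))
  rw [sub_zero, Ideal.mem_span_singleton, PowerSeries.X_dvd_iff] at ht0
  simp only [IsRoot.def, eval_add, eval_sub, eval_mul, eval_C, eval_X, eval_pow] at ht
  exact ⟨a + 2 * t, by simp [ha, ht0], by linear_combination 4 * ht⟩

theorem two_sqrts (s : Multiset ℝ) (P : ℤ[X])
    (h : P.map (Int.castRingHom ℝ) = (s.map fun θ => X - C θ).prod) :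
    (∃ G : PowerSeries ℤ, PowerSeries.constantCoeff G = 1 ∧ (G.map (Int.castRingHom ℝ)) ^ 2 =
      (((s.map fun θ => θ ^ 2 - 2) + (s.map fun θ => θ ^ 2 - 2).map fun θ => θ ^ 2 - 2).map lin).prod) ∧
    (∃ G : PowerSeries ℤ, PowerSeries.constantCoeff G = 1 ∧ (G.map (Int.castRingHom ℝ)) ^ 2 =
      ((2 ::ₘ (-2) ::ₘ ((s.map fun θ => θ ^ 2 - 2) +
        (s.map fun θ => θ ^ 2 - 2).map fun θ => θ ^ 2 - 2)).map lin).prod) := by
  obtain ⟨Q, S, h1, h2⟩ := graeffe_two s P h
  have key : ∀ (R : ℤ[X]) (t : Multiset ℝ), t.card = s.card →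
      R.map (Int.castRingHom ℝ) = (t.map fun θ => X - C θ).prod →
      ((reflect s.card R : ℤ[X]) : PowerSeries ℤ).map (Int.castRingHom ℝ) = (t.map lin).prod := by
    intro R t ht hR
    rw [← Polynomial.polynomial_map_coe, ← reflect_map, hR, ← ht, reflect_prod, coe_prod_lin]
  have e1 := key Q _ (by simp) h1
  have e2 := key _ _ (by simp) h2
  have e3 : reflect s.card (Q + 4 * S) = reflect s.card Q + 4 * reflect s.card S := by
    rw [reflect_add, show (4 : ℤ[X]) = C 4 from rfl, reflect_C_mul]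
  rw [e3, Polynomial.coe_add, Polynomial.coe_mul, show ((4 : ℤ[X]) : PowerSeries ℤ) = 4 from
    map_ofNat Polynomial.coeToPowerSeries.ringHom 4] at e2
  generalize ((reflect s.card Q : ℤ[X]) : PowerSeries ℤ) = a at e1 e2
  generalize ((reflect s.card S : ℤ[X]) : PowerSeries ℤ) = y at e2
  have hc : ∀ (F : PowerSeries ℤ) (t : Multiset ℝ), F.map (Int.castRingHom ℝ) = (t.map lin).prod →
      PowerSeries.constantCoeff F = 1 := fun F t hF => by
    have := constantCoeff_prod_lin t
    rw [← hF, ← PowerSeries.coeff_zero_eq_constantCoeff_apply, PowerSeries.coeff_map,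
      PowerSeries.coeff_zero_eq_constantCoeff_apply, eq_intCast] at this
    exact_mod_cast this
  have ha := hc _ _ e1
  have hy : PowerSeries.constantCoeff y = 0 := by
    have := hc _ _ e2
    rw [map_add, map_mul, ha, map_ofNat] at this
    linarith
  constructor
  · obtain ⟨G, hG0, hG⟩ := int_sqrt a (a * y) ha (by simp [hy])
    refine ⟨G, hG0, ?_⟩
    rw [Multiset.map_add, Multiset.prod_add, ← e1, ← e2, ← map_pow, hG, ← map_mul]
    congr 1
    ring
  · obtain ⟨G, hG0, hG⟩ := int_sqrt a (a * y - PowerSeries.X ^ 2 * (a * (a + 4 * y))) ha (by simp [hy])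
    refine ⟨G, hG0, ?_⟩
    rw [Multiset.map_cons, Multiset.prod_cons, Multiset.map_cons, Multiset.prod_cons,
      Multiset.map_add, Multiset.prod_add, ← e1, ← e2, ← map_pow, hG]
    simp only [lin, map_add, map_sub, map_mul, map_pow, map_ofNat, map_neg, PowerSeries.map_X]
    ring

end Pool.Agent.MP_108ce6_nt

end

-- part MP_108ce6_nt.Kernel
section

/-! A truncated positive decomposition of the logarithmic kernel of the circle. -/

namespace Pool.Agent.MP_108ce6_nt

open Real intervalIntegral Set Finset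

/-- Truncated kernel. -/
noncomputable def kerF (ε s : ℝ) : ℝ := -log 2 + ∫ h in ε..π / 2, max (h - s) 0 / sin h ^ 2

theorem sin_pos_Icc {a h : ℝ} (ha : 0 < a) (hh : h ∈ Icc a (π / 2)) : 0 < sin h :=
  sin_pos_of_pos_of_lt_pi (ha.trans_le hh.1) (by linarith [hh.2, pi_pos])

theorem int_div_sin {a b : ℝ} (ha : 0 < a) (hab : a ≤ b) (hb : b ≤ π / 2) {g : ℝ → ℝ}
    (hg : Continuous g) : IntervalIntegrable (fun h => g h / sin h ^ 2) MeasureTheory.volume a b := by
  refine ContinuousOn.intervalIntegrable ?_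
  rw [Set.uIcc_of_le hab]
  exact hg.continuousOn.div (by fun_prop) fun h hh =>
    pow_ne_zero _ (sin_pos_Icc ha ⟨hh.1, hh.2.trans hb⟩).ne'

theorem kerF_le {ε s : ℝ} (hε : 0 < ε) (hε' : ε ≤ π / 2) (hs : 0 < s) (hs' : s ≤ π / 2) :
    kerF ε s ≤ -log (2 * sin s) := by
  have hc : 0 < min ε s := lt_min hε hs
  have hg : Continuous fun h : ℝ => max (h - s) 0 := by fun_prop
  have h1 := integral_mono_interval (μ := MeasureTheory.volume) (min_le_left ε s) hε' le_rfl
    (Filter.Eventually.of_forall fun h => by positivity)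
    (int_div_sin hc ((min_le_left _ _).trans hε') le_rfl hg)
  rw [← integral_add_adjacent_intervals (int_div_sin hc (min_le_right _ _) hs' hg)
    (int_div_sin hs hs' le_rfl hg)] at h1
  have h2 : ∫ h in min ε s..s, max (h - s) 0 / sin h ^ 2 = 0 := by
    rw [integral_congr (g := fun _ => 0), integral_zero]
    intro h hh
    rw [Set.uIcc_of_le (min_le_right _ _)] at hh
    simp only
    rw [max_eq_right (by linarith [hh.2]), zero_div]
  have h3 : ∫ h in s..π / 2, max (h - s) 0 / sin h ^ 2 = -log (sin s) := by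
    rw [integral_congr (g := fun h => (h - s) / sin h ^ 2)]
    · rw [integral_eq_sub_of_hasDerivAt (f := fun h => -((h - s) * (cos h / sin h)) + log (sin h))
        _ (int_div_sin hs hs' le_rfl (by fun_prop))]
      · simp
      · intro h hh
        rw [Set.uIcc_of_le hs'] at hh
        have h0 := (sin_pos_Icc hs hh).ne'
        refine ((((hasDerivAt_id h).sub_const s).mul
          ((hasDerivAt_cos h).div (hasDerivAt_sin h) h0)).neg.add
          ((hasDerivAt_sin h).log h0)).congr_deriv ?_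
        simp only [id, Pi.div_apply]
        field_simp
        linear_combination (h - s) * sin_sq_add_cos_sq h
    · intro h hh
      rw [Set.uIcc_of_le hs'] at hh
      simp only
      rw [max_eq_left (by linarith [hh.1])]
  rw [kerF, log_mul two_ne_zero (sin_pos_Icc hs ⟨le_rfl, hs'⟩).ne']
  linarith

theorem kerF_le_zero {ε s : ℝ} (hε : 0 < ε) (hε' : ε ≤ π / 2) (hs : 0 ≤ s) :
    kerF ε s ≤ kerF ε 0 := by
  unfold kerF
  gcongr
  refine integral_mono_on hε' (int_div_sin hε hε' le_rfl (by fun_prop))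
    (int_div_sin hε hε' le_rfl (by fun_prop)) fun h _ => ?_
  gcongr

theorem exists_eps {γ b : ℝ} (hγ : 0 < γ) (hb : 0 < b) (hb' : b ≤ π / 2) :
    ∃ ε, 0 < ε ∧ ε ≤ b ∧ π * log 2 - γ ≤ ∫ h in ε..π / 2, h ^ 2 / sin h ^ 2 := by
  have hi : ∀ a b, IntervalIntegrable (fun h => log (sin h)) MeasureTheory.volume a b :=
    fun _ _ => intervalIntegrable_log_sin
  have hc := (continuous_primitive hi 0).continuousAt (x := 0)
  rw [Metric.continuousAt_iff] at hc
  obtain ⟨δ, hδ, hc⟩ := hc (γ / 2) (by positivity)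
  have hε : 0 < min (δ / 2) b := lt_min (by positivity) hb
  refine ⟨_, hε, min_le_right _ _, ?_⟩
  have h1 := hc (x := min (δ / 2) b) (by
    rw [Real.dist_eq, sub_zero, abs_of_pos hε]; linarith [min_le_left (δ / 2) b])
  have hε' : min (δ / 2) b ≤ π / 2 := (min_le_right _ _).trans hb'
  generalize min (δ / 2) b = ε at *
  rw [integral_same, Real.dist_eq, sub_zero, abs_lt] at h1
  have h2 := integral_add_adjacent_intervals (hi 0 ε) (hi ε (π / 2))
  rw [integral_log_sin_zero_pi_div_two] at h2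
  have h3 := integral_eq_sub_of_hasDerivAt (a := ε) (b := π / 2)
    (f := fun h => -(h ^ 2 * (cos h / sin h)) + 2 * h * log (sin h))
    (f' := fun h => h ^ 2 / sin h ^ 2 + 2 * log (sin h)) (fun h hh => by
      rw [Set.uIcc_of_le hε'] at hh
      have h0 := (sin_pos_Icc hε hh).ne'
      refine (((hasDerivAt_pow 2 h).mul
        ((hasDerivAt_cos h).div (hasDerivAt_sin h) h0)).neg.add
        (((hasDerivAt_id h).const_mul 2).mul ((hasDerivAt_sin h).log h0))).congr_deriv ?_
      simp only [id, Pi.div_apply]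
      field_simp
      push_cast
      linear_combination h ^ 2 * sin_sq_add_cos_sq h)
    ((int_div_sin hε hε' le_rfl (by fun_prop)).add ((hi _ _).const_mul 2))
  rw [integral_add (int_div_sin hε hε' le_rfl (by fun_prop)) ((hi _ _).const_mul 2),
    integral_const_mul] at h3
  simp only [cos_pi_div_two, sin_pi_div_two, log_one, zero_div, mul_zero, neg_zero, zero_add,
    zero_sub] at h3
  have h4 : 0 < sin ε := sin_pos_Icc hε ⟨le_rfl, hε'⟩
  have h5 : 0 ≤ cos ε := cos_nonneg_of_neg_pi_div_two_le_of_le (by linarith [pi_pos]) hε'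
  have h6 : log (sin ε) ≤ 0 := log_nonpos h4.le (sin_le_one ε)
  have h7 : 0 ≤ ε ^ 2 * (cos ε / sin ε) := by positivity
  nlinarith

theorem sum_kerF {ι : Type*} [Fintype ι] (d : ι → ι → ℝ) {ε b β m : ℝ} (hε : 0 < ε) (hεb : ε ≤ b)
    (hb : b ≤ π / 2) (hβ : 0 < β) (hβ' : β ≤ π) (hm : (Fintype.card ι : ℝ) = m)
    (h1 : ∀ h ∈ Icc ε (π / 2), (m * h) ^ 2 / π ≤ ∑ i, ∑ j, max (h - d i j) 0)
    (h2 : ∀ h ∈ Icc ε b, (m * h) ^ 2 / β ≤ ∑ i, ∑ j, max (h - d i j) 0) :
    m ^ 2 * (-log 2 + (∫ h in ε..π / 2, h ^ 2 / sin h ^ 2) / π + (b - ε) * (1 / β - 1 / π)) ≤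
      ∑ i, ∑ j, kerF ε (d i j) := by
  have hε' := hεb.trans hb
  have e1 : ∑ i, ∑ j, kerF ε (d i j) = -(m ^ 2 * log 2) +
      ∫ h in ε..π / 2, (∑ i, ∑ j, max (h - d i j) 0) / sin h ^ 2 := by
    simp only [kerF, sum_add_distrib, sum_const, card_univ, nsmul_eq_mul, hm, sum_div]
    rw [integral_finset_sum fun i _ => by
      simpa only [sum_div] using int_div_sin (g := fun h => ∑ j, max (h - d i j) 0) hε hε' le_rfl
        (by fun_prop)]
    congr 1
    · ring
    · exact sum_congr rfl fun i _ =>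
        (integral_finset_sum fun j _ => int_div_sin hε hε' le_rfl (by fun_prop)).symm
  have hg : Continuous fun h : ℝ => ∑ i, ∑ j, max (h - d i j) 0 - (m * h) ^ 2 / π := by fun_prop
  have e2 : ∫ h in ε..π / 2, (∑ i, ∑ j, max (h - d i j) 0 - (m * h) ^ 2 / π) / sin h ^ 2 =
      (∫ h in ε..π / 2, (∑ i, ∑ j, max (h - d i j) 0) / sin h ^ 2) -
        m ^ 2 / π * ∫ h in ε..π / 2, h ^ 2 / sin h ^ 2 := by
    rw [← integral_const_mul, ← integral_sub (int_div_sin hε hε' le_rfl (by fun_prop))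
      ((int_div_sin hε hε' le_rfl (by fun_prop)).const_mul _)]
    exact integral_congr fun h _ => by ring
  have e3 := integral_mono_interval (μ := MeasureTheory.volume) le_rfl hεb hb
    ((MeasureTheory.ae_restrict_iff' measurableSet_Ioc).2 (Filter.Eventually.of_forall fun h hh =>
      div_nonneg (sub_nonneg.2 (h1 h ⟨hh.1.le, hh.2⟩)) (sq_nonneg _)))
    (int_div_sin hε hε' le_rfl hg)
  have hβπ : 0 ≤ 1 / β - 1 / π := sub_nonneg.2 (one_div_le_one_div_of_le hβ hβ')
  have e4 := integral_mono_on (μ := MeasureTheory.volume) hεb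
    (f := fun _ => m ^ 2 * (1 / β - 1 / π)) intervalIntegrable_const
    (int_div_sin hε hεb hb hg) fun h hh => by
      have h0 := sin_pos_Icc hε ⟨hh.1, hh.2.trans hb⟩
      rw [le_div_iff₀ (by positivity)]
      have := h2 h hh
      have h3 : m ^ 2 * (1 / β - 1 / π) * sin h ^ 2 ≤ m ^ 2 * (1 / β - 1 / π) * h ^ 2 :=
        mul_le_mul_of_nonneg_left sin_sq_le_sq (by positivity)
      have h4 : m ^ 2 * (1 / β - 1 / π) * h ^ 2 = (m * h) ^ 2 / β - (m * h) ^ 2 / π := by ring
      linarith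
  rw [intervalIntegral.integral_const, smul_eq_mul] at e4
  rw [e1]
  have e5 : m ^ 2 * (-log 2 + (∫ h in ε..π / 2, h ^ 2 / sin h ^ 2) / π + (b - ε) * (1 / β - 1 / π)) =
      -(m ^ 2 * log 2) + m ^ 2 / π * (∫ h in ε..π / 2, h ^ 2 / sin h ^ 2) +
        (b - ε) * (m ^ 2 * (1 / β - 1 / π)) := by ring
  linarith

end Pool.Agent.MP_108ce6_nt

end

-- part MP_108ce6_nt.Circle
section

/-! Overlap counting on the circle of length `π`. -/

namespace Pool.Agent.MP_108ce6_nt

open Real Set MeasureTheory Metric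

instance piPos : Fact (0 < π) := ⟨pi_pos⟩

theorem exists_rep (y : AddCircle π) : ∃ u : ℝ, (u : AddCircle π) = y ∧ |u| = ‖y‖ := by
  obtain ⟨x, rfl⟩ := QuotientAddGroup.mk_surjective y
  refine ⟨x - round (π⁻¹ * x) * π, ?_, (AddCircle.norm_eq π).symm⟩
  rw [AddCircle.coe_sub, sub_eq_self, ← zsmul_eq_mul, AddCircle.coe_zsmul, AddCircle.coe_period,
    smul_zero]

theorem norm_coe_le (u : ℝ) : ‖(u : AddCircle π)‖ ≤ |u| := QuotientAddGroup.norm_mk_le_norm

theorem norm_le_half (y : AddCircle π) : ‖y‖ ≤ π / 2 := by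
  have := AddCircle.norm_le_half_period π (x := y) pi_ne_zero
  rwa [abs_of_pos pi_pos] at this

theorem sin_norm (s : ℝ) : sin ‖(s : AddCircle π)‖ = |sin s| := by
  have h := norm_le_half (s : AddCircle π)
  rw [AddCircle.norm_eq] at h ⊢
  rw [← abs_sin_eq_sin_abs_of_abs_le_pi (by linarith [pi_pos]), sin_sub_int_mul_pi, abs_mul,
    abs_zpow, abs_neg, abs_one, one_zpow, one_mul]

theorem real_ball (a : AddCircle π) {ρ : ℝ} (h0 : 0 ≤ ρ) (h1 : ρ ≤ π / 2) :
    volume.real (closedBall a ρ) = 2 * ρ := by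
  rw [Measure.real, AddCircle.volume_closedBall, min_eq_right (by linarith),
    ENNReal.toReal_ofReal (by linarith)]

theorem real_le_pi (U : Set (AddCircle π)) : volume.real U ≤ π := by
  refine (measureReal_mono (subset_univ U)).trans_eq ?_
  rw [Measure.real, AddCircle.measure_univ, ENNReal.toReal_ofReal pi_pos.le]

theorem ball_inter (a b : AddCircle π) {h : ℝ} (h0 : 0 ≤ h) (h1 : h ≤ π / 2) :
    volume.real (closedBall a (h / 2) ∩ closedBall b (h / 2)) ≤ max (h - ‖a - b‖) 0 := by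
  rcases lt_or_ge h ‖a - b‖ with hd | hd
  · rw [(closedBall_disjoint_closedBall (by rwa [add_halves, dist_eq_norm])).inter_eq,
      measureReal_empty]
    exact le_max_right _ _
  · obtain ⟨u, hu, hu'⟩ := exists_rep (a - b)
    have e := measureReal_union_add_inter (μ := volume) (s := closedBall a (h / 2))
      (t := closedBall b (h / 2)) measurableSet_closedBall
    have hn := norm_nonneg (a - b)
    have hsub : closedBall (b + (u / 2 : ℝ)) ((h + ‖a - b‖) / 2) ⊆
        closedBall a (h / 2) ∪ closedBall b (h / 2) := by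
      intro t ht
      obtain ⟨v, hv, hv'⟩ := exists_rep (t - (b + (u / 2 : ℝ)))
      rw [mem_closedBall, dist_eq_norm, ← hv', ← hu'] at ht
      have e1 : t - b = ((v + u / 2 : ℝ) : AddCircle π) := by rw [AddCircle.coe_add, hv]; abel
      have e2 : t - a = ((v + u / 2 - u : ℝ) : AddCircle π) := by
        rw [AddCircle.coe_sub, ← e1, hu]; abel
      rw [mem_union, mem_closedBall, mem_closedBall, dist_eq_norm, dist_eq_norm, e1, e2]
      rw [← hu'] at hd
      by_contra hc
      push Not at hc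
      have h2 := hc.1.trans_le (norm_coe_le _)
      have h3 := hc.2.trans_le (norm_coe_le _)
      rcases abs_cases u with h4 | h4 <;> rcases abs_cases v with h5 | h5 <;>
        rcases abs_cases (v + u / 2 - u) with h6 | h6 <;> rcases abs_cases (v + u / 2) with h7 | h7 <;>
        linarith [h4.1, h5.1, h6.1, h7.1, h4.2, h5.2, h6.2, h7.2]
    have e3 := measureReal_mono (μ := volume) hsub
    rw [real_ball _ (by linarith) (by linarith)] at e3
    rw [real_ball _ (by linarith) (by linarith [pi_pos]), real_ball _ (by linarith)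
      (by linarith [pi_pos])] at e
    exact le_trans (by linarith) (le_max_left _ _)

theorem second_moment {Ω ι : Type*} [MeasurableSpace Ω] (μ : Measure Ω) [IsFiniteMeasure μ]
    [Fintype ι] (B : ι → Set Ω) (hB : ∀ i, MeasurableSet (B i)) (lam : ℝ) :
    2 * lam * ∑ i, μ.real (B i) - lam ^ 2 * μ.real (⋃ i, B i) ≤ ∑ i, ∑ j, μ.real (B i ∩ B j) := by
  have hI : ∀ s, MeasurableSet s → Integrable (fun t => s.indicator (1 : Ω → ℝ) t) μ := fun s hs =>
    (integrable_const (1 : ℝ)).indicator hs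
  have hW : MeasurableSet (⋃ i, B i) := MeasurableSet.iUnion hB
  have hm : ∀ i j, MeasurableSet (B i ∩ B j) := fun i j => (hB i).inter (hB j)
  have i1 : Integrable (fun t => 2 * lam * ∑ i, (B i).indicator (1 : Ω → ℝ) t) μ :=
    (integrable_finset_sum _ fun i _ => hI _ (hB i)).const_mul _
  have i2 : Integrable (fun t => lam ^ 2 * (⋃ i, B i).indicator (1 : Ω → ℝ) t) μ :=
    (hI _ hW).const_mul _
  have i3 : ∀ i, Integrable (fun t => ∑ j, (B i ∩ B j).indicator (1 : Ω → ℝ) t) μ := fun i =>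
    integrable_finset_sum _ fun j _ => hI _ (hm i j)
  have e1 : ∫ t, (2 * lam * ∑ i, (B i).indicator (1 : Ω → ℝ) t -
      lam ^ 2 * (⋃ i, B i).indicator (1 : Ω → ℝ) t) ∂μ =
      2 * lam * ∑ i, μ.real (B i) - lam ^ 2 * μ.real (⋃ i, B i) := by
    rw [integral_sub i1 i2, integral_const_mul, integral_const_mul,
      integral_finset_sum _ fun i _ => hI _ (hB i), integral_indicator_one hW]
    simp only [integral_indicator_one (hB _)]
  have e2 : ∫ t, ∑ i, ∑ j, (B i ∩ B j).indicator (1 : Ω → ℝ) t ∂μ = ∑ i, ∑ j, μ.real (B i ∩ B j) := by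
    rw [integral_finset_sum _ fun i _ => i3 i]
    refine Finset.sum_congr rfl fun i _ => ?_
    rw [integral_finset_sum _ fun j _ => hI _ (hm i j)]
    exact Finset.sum_congr rfl fun j _ => integral_indicator_one (hm i j)
  rw [← e1, ← e2]
  refine integral_mono (i1.sub i2) (integrable_finset_sum _ fun i _ => i3 i) fun t => ?_
  simp only [inter_indicator_one, Pi.mul_apply]
  rw [← Finset.sum_mul_sum]
  by_cases ht : t ∈ ⋃ i, B i
  · rw [indicator_of_mem ht, Pi.one_apply]
    nlinarith [sq_nonneg (lam - ∑ i, (B i).indicator (1 : Ω → ℝ) t)]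
  · rw [indicator_of_notMem ht, Finset.sum_eq_zero fun i _ =>
      indicator_of_notMem (fun hi => ht (mem_iUnion.2 ⟨i, hi⟩)) _]
    simp

theorem overlap {ι : Type*} [Fintype ι] (τ : ι → AddCircle π) {h β : ℝ} (h0 : 0 ≤ h) (h1 : h ≤ π / 2)
    (hβ : 0 < β) (hU : volume.real (⋃ i, closedBall (τ i) (h / 2)) ≤ β) :
    (Fintype.card ι * h) ^ 2 / β ≤ ∑ i, ∑ j, max (h - ‖τ i - τ j‖) 0 := by
  have key := second_moment volume (fun i => closedBall (τ i) (h / 2))
    (fun _ => measurableSet_closedBall) (Fintype.card ι * h / β)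
  have e0 : ∑ i, volume.real (closedBall (τ i) (h / 2)) = Fintype.card ι * h := by
    rw [Finset.sum_congr rfl fun i _ => real_ball (τ i) (show 0 ≤ h / 2 by linarith)
      (show h / 2 ≤ π / 2 by linarith [pi_pos]), Finset.sum_const, Finset.card_univ, nsmul_eq_mul]
    ring
  rw [e0] at key
  refine le_trans ?_ (key.trans (Finset.sum_le_sum fun i _ => Finset.sum_le_sum fun j _ =>
    ball_inter _ _ h0 h1))
  have e : (Fintype.card ι * h) ^ 2 / β = 2 * (Fintype.card ι * h / β) * (Fintype.card ι * h) -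
      (Fintype.card ι * h / β) ^ 2 * β := by
    field_simp; ring
  rw [e]
  exact sub_le_sub_left (mul_le_mul_of_nonneg_left hU (sq_nonneg _)) _

theorem ball_preconn (t : AddCircle π) (ρ : ℝ) : IsPreconnected (closedBall t ρ) := by
  have e : closedBall t ρ = (fun u : ℝ => t + (u : AddCircle π)) '' closedBall 0 ρ := by
    ext y
    constructor
    · intro hy
      obtain ⟨u, hu, hu'⟩ := exists_rep (y - t)
      refine ⟨u, ?_, by simp [hu]⟩
      rwa [mem_closedBall, dist_zero_right, Real.norm_eq_abs, hu', ← dist_eq_norm]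
    · rintro ⟨u, hu, rfl⟩
      rw [mem_closedBall, dist_zero_right, Real.norm_eq_abs] at hu
      rw [mem_closedBall, dist_eq_norm, add_sub_cancel_left]
      exact (norm_coe_le u).trans hu
  rw [e]
  exact (convex_closedBall 0 ρ).isPreconnected.image _
    (continuous_const.add (AddCircle.continuous_mk' π)).continuousOn

/-- The angle of a point of the interval with centre `c` and radius `w`. -/
noncomputable def ang (c w x : ℝ) : ℝ := arccos ((x - c) / w) / 2

/-- The projection of the circle on the interval with centre `c` and radius `w`. -/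
noncomputable def proj (c w : ℝ) : AddCircle π → ℝ :=
  (show Function.Periodic (fun s => c + w * cos (2 * s)) π from fun s => by
    simp only [mul_add, cos_add_two_pi]).lift

theorem proj_coe (c w s : ℝ) : proj c w (s : AddCircle π) = c + w * cos (2 * s) := rfl

theorem continuous_proj (c w : ℝ) : Continuous (proj c w) :=
  (QuotientAddGroup.isQuotientMap_mk _).continuous_iff.2
    (by fun_prop : Continuous fun s => c + w * cos (2 * s))

theorem cos_ang {c w x : ℝ} (hw : 0 < w) (hx : x ∈ Icc (c - w) (c + w)) :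
    c + w * cos (2 * ang c w x) = x := by
  rw [ang, mul_div_cancel₀ _ two_ne_zero, cos_arccos, mul_div_cancel₀ _ hw.ne', add_sub_cancel]
  · rw [le_div_iff₀ hw]; linarith [hx.1]
  · rw [div_le_iff₀ hw]; linarith [hx.2]

theorem proj_mem {c w : ℝ} (hw : 0 < w) (t : AddCircle π) : proj c w t ∈ Icc (c - w) (c + w) := by
  obtain ⟨s, rfl⟩ := QuotientAddGroup.mk_surjective t
  rw [proj_coe]
  constructor <;> nlinarith [neg_one_le_cos (2 * s), cos_le_one (2 * s)]

theorem proj_eq {c w : ℝ} (hw : 0 < w) (t : AddCircle π) :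
    t = (ang c w (proj c w t) : ℝ) ∨ t = -((ang c w (proj c w t) : ℝ) : AddCircle π) := by
  have h := cos_ang hw (proj_mem (c := c) hw t)
  generalize ang c w (proj c w t) = α at h ⊢
  obtain ⟨s, rfl⟩ := QuotientAddGroup.mk_surjective t
  rw [proj_coe, add_right_inj, mul_right_inj' hw.ne', cos_eq_cos_iff] at h
  have h0 : ∀ k : ℤ, ((k * π : ℝ) : AddCircle π) = 0 := fun k => by
    rw [← zsmul_eq_mul, AddCircle.coe_zsmul, AddCircle.coe_period, smul_zero]
  obtain ⟨k, h | h⟩ := h
  · left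
    rw [show s = k * π + α by linarith, AddCircle.coe_add, h0, zero_add]
  · right
    rw [show s = k * π - α by linarith, AddCircle.coe_sub, h0, zero_sub]

/-- Neighbourhood of the preimages of the points of `Y`. -/
def nbh (c w : ℝ) (Y : Multiset ℝ) (ρ : ℝ) : Set (AddCircle π) :=
  ⋃ a ∈ Y.toFinset, (closedBall ((ang c w a : ℝ) : AddCircle π) ρ ∪
    closedBall (-((ang c w a : ℝ) : AddCircle π)) ρ)

theorem real_nbh (c w : ℝ) (Y : Multiset ℝ) {ρ : ℝ} (h0 : 0 ≤ ρ) (h1 : ρ ≤ π / 2) :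
    volume.real (nbh c w Y ρ) ≤ 4 * Y.card * ρ := by
  refine (measureReal_biUnion_finset_le _ _).trans ((Finset.sum_le_card_nsmul _ _ (4 * ρ)
    fun a _ => (measureReal_union_le _ _).trans ?_).trans ?_)
  · rw [real_ball _ h0 h1, real_ball _ h0 h1]; linarith
  · have : (Y.toFinset.card : ℝ) ≤ Y.card := by exact_mod_cast Y.toFinset_card_le
    rw [nsmul_eq_mul]
    nlinarith

theorem mem_nbh {c w : ℝ} (hw : 0 < w) {Y : Multiset ℝ} {ρ : ℝ} {z t : AddCircle π}
    (hz : (Y.map fun a => proj c w z - a).prod = 0) (ht : z ∈ closedBall t ρ) : t ∈ nbh c w Y ρ := by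
  obtain ⟨a, ha, h⟩ := Multiset.mem_map.1 (Multiset.prod_eq_zero_iff.1 hz)
  rw [mem_closedBall_comm] at ht
  refine mem_biUnion (x := a) (Multiset.mem_toFinset.2 ha) ?_
  have := proj_eq (c := c) hw z
  rw [sub_eq_zero.1 h] at this
  rcases this with h | h
  · left; rwa [← h]
  · right; rwa [← h]

/-- The negativity set on the circle. -/
def negSet (c w : ℝ) (Y : Multiset ℝ) : Set (AddCircle π) :=
  {t | (Y.map fun a => proj c w t - a).prod ≤ 0}

theorem continuous_prodY (c w : ℝ) (Y : Multiset ℝ) :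
    Continuous fun t => (Y.map fun a => proj c w t - a).prod :=
  continuous_multiset_prod _ fun a _ => (continuous_proj c w).sub continuous_const

theorem ball_subset {c w : ℝ} (hw : 0 < w) {Y : Multiset ℝ} (ρ : ℝ) {z : AddCircle π}
    (hz : z ∈ negSet c w Y) : closedBall z ρ ⊆ negSet c w Y ∪ nbh c w Y ρ := by
  intro t ht
  by_cases h : t ∈ negSet c w Y
  · exact Or.inl h
  · have h0 : 0 ≤ ρ := dist_nonneg.trans ht
    obtain ⟨y, hy, hy0⟩ := (ball_preconn t ρ).intermediate_value (mem_closedBall_comm.1 ht)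
      (mem_closedBall_self h0) (continuous_prodY c w Y).continuousOn
      (show (0 : ℝ) ∈ Icc _ _ from ⟨hz, (not_le.1 h).le⟩)
    exact Or.inr (mem_nbh hw hy0 hy)

theorem one_small {η : ℝ} (h0 : 0 ≤ η) (h1 : η ≤ 0.0538) (Y : Multiset ℝ) :
    volume.real (negSet (η / 2) (2 + η / 2) Y) ≤ 0.558 * π ∨
      volume.real (negSet (η / 2) (2 + η / 2) (2 ::ₘ (-2) ::ₘ Y)) ≤ 0.558 * π := by
  have hw : 0 < 2 + η / 2 := by linarith
  have e := measureReal_union_add_inter (μ := volume) (s := negSet (η / 2) (2 + η / 2) Y)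
    (t := negSet (η / 2) (2 + η / 2) (2 ::ₘ (-2) ::ₘ Y))
    (measurableSet_le (continuous_prodY _ _ _).measurable measurable_const)
  have hsub : negSet (η / 2) (2 + η / 2) Y ∩ negSet (η / 2) (2 + η / 2) (2 ::ₘ (-2) ::ₘ Y) ⊆
      closedBall 0 (0.058 * π) ∪ nbh (η / 2) (2 + η / 2) (2 ::ₘ (-2) ::ₘ Y) 0 := by
    rintro t ⟨ht1, ht2⟩
    by_cases h : 2 ≤ proj (η / 2) (2 + η / 2) t
    · left
      obtain ⟨u, rfl, hu⟩ := exists_rep t
      have h2 := norm_le_half (u : AddCircle π)
      rw [mem_closedBall, dist_zero_right, ← hu]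
      rw [← hu] at h2
      rw [proj_coe] at h
      have h3 := cos_le_one_sub_mul_cos_sq (x := 2 * u) (by rw [abs_mul, abs_two]; linarith)
      have h4 : 1 - η / 2 ≤ cos (2 * u) := by nlinarith [cos_le_one (2 * u)]
      have h5 : 2 / π ^ 2 * (2 * u) ^ 2 ≤ η / 2 := by linarith
      rw [div_mul_eq_mul_div, div_le_iff₀ (by positivity)] at h5
      refine abs_le_of_sq_le_sq' ?_ (by positivity) |> abs_le.2
      nlinarith [sq_nonneg π]
    · refine Or.inr (mem_nbh hw ?_ (mem_closedBall_self le_rfl))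
      have h2 := (proj_mem (c := η / 2) hw t).1
      simp only [negSet, mem_setOf_eq, Multiset.map_cons, Multiset.prod_cons] at ht1 ht2 ⊢
      refine le_antisymm ht2 (mul_nonneg_of_nonpos_of_nonpos (by linarith)
        (mul_nonpos_of_nonneg_of_nonpos (by linarith) ht1))
  have e2 := (measureReal_mono (μ := volume) hsub).trans (measureReal_union_le _ _)
  have e3 := real_nbh (η / 2) (2 + η / 2) (2 ::ₘ (-2) ::ₘ Y) le_rfl (by positivity)
  rw [real_ball _ (by positivity) (by linarith [pi_pos])] at e2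
  have e4 := real_le_pi (negSet (η / 2) (2 + η / 2) Y ∪ negSet (η / 2) (2 + η / 2) (2 ::ₘ (-2) ::ₘ Y))
  by_contra hc
  push Not at hc
  linarith [hc.1, hc.2]

end Pool.Agent.MP_108ce6_nt

end

-- part MP_108ce6_nt.Energy
section

/-! A union of few intervals of small arcsine measure has Chebyshev constant below one. -/

namespace Pool.Agent.MP_108ce6_nt

open Real Set MeasureTheory Metric Polynomial

theorem pair_bound {c w ε x y : ℝ} (hw : 2 ≤ w) (hε : 0 < ε) (hε' : ε ≤ π / 2)
    (hx : x ∈ Icc (c - w) (c + w)) (hy : y ∈ Icc (c - w) (c + w)) :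
    log |x - y| ≤ log (w / 2) - kerF ε ‖((ang c w x : ℝ) : AddCircle π) - (ang c w y : ℝ)‖
      - kerF ε ‖((ang c w x : ℝ) : AddCircle π) + (ang c w y : ℝ)‖
      + if x = y then 2 * kerF ε 0 else 0 := by
  have hw0 : 0 < w := by linarith
  split_ifs with h
  · have h1 := kerF_le_zero hε hε' (norm_nonneg (((ang c w x : ℝ) : AddCircle π) - (ang c w y : ℝ)))
    have h2 := kerF_le_zero hε hε' (norm_nonneg (((ang c w x : ℝ) : AddCircle π) + (ang c w y : ℝ)))
    have h3 : 0 ≤ log (w / 2) := log_nonneg (by linarith)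
    rw [show |x - y| = 0 by rw [h, sub_self, abs_zero], log_zero]
    linarith
  · have e1 := cos_ang hw0 hx
    have e2 := cos_ang hw0 hy
    generalize ang c w x = α at *
    generalize ang c w y = β at *
    rw [← AddCircle.coe_sub, ← AddCircle.coe_add]
    have e3 : |x - y| = w / 2 * (2 * sin ‖((α - β : ℝ) : AddCircle π)‖) *
        (2 * sin ‖((α + β : ℝ) : AddCircle π)‖) := by
      have := cos_sub_cos (2 * α) (2 * β)
      rw [show (2 * α + 2 * β) / 2 = α + β by ring, show (2 * α - 2 * β) / 2 = α - β by ring] at this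
      rw [sin_norm, sin_norm, show x - y = -(2 * w) * sin (α - β) * sin (α + β) by
        linear_combination -e1 + e2 + w * this, abs_mul, abs_mul, abs_neg, abs_of_pos (by linarith)]
      ring
    have h0 : |x - y| ≠ 0 := abs_ne_zero.2 (sub_ne_zero.2 h)
    rw [e3] at h0 ⊢
    have n1 := right_ne_zero_of_mul (left_ne_zero_of_mul h0)
    have n2 := right_ne_zero_of_mul h0
    have p : ∀ t : AddCircle π, 2 * sin ‖t‖ ≠ 0 → kerF ε ‖t‖ ≤ -log (2 * sin ‖t‖) := fun t ht =>
      kerF_le hε hε' ((norm_nonneg t).lt_of_ne fun h => ht (by rw [← h]; simp)) (norm_le_half t)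
    rw [log_mul (left_ne_zero_of_mul h0) n2, log_mul (by linarith) n1]
    linarith [p _ n1, p _ n2]

theorem leja {K : Set ℝ} (h : ∀ p : ℝ[X], p.Monic → ∃ x ∈ K, 1 / 2 < |p.eval x|) (n : ℕ) :
    ∃ S : Finset ℝ, (∀ x ∈ S, x ∈ K) ∧ S.card = n ∧
      -(2 * n * log 2) ≤ ∑ x ∈ S, ∑ y ∈ S, log |x - y| := by
  induction n with
  | zero => exact ⟨∅, by simp, rfl, by simp⟩
  | succ n ih =>
    obtain ⟨S, hS, hc, hs⟩ := ih
    obtain ⟨x, hx, hp⟩ := h (∏ y ∈ S, (X - C y)) (monic_prod_of_monic _ _ fun y _ => monic_X_sub_C y)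
    simp only [eval_prod, eval_sub, eval_X, eval_C, Finset.abs_prod] at hp
    have hne : ∀ y ∈ S, |x - y| ≠ 0 := Finset.prod_ne_zero_iff.1 (by linarith)
    have hxS : x ∉ S := fun h => hne x h (by simp)
    have hl := log_lt_log (by norm_num) hp
    rw [log_prod hne, one_div, log_inv] at hl
    refine ⟨insert x S, ?_, by rw [Finset.card_insert_of_notMem hxS, hc], ?_⟩
    · intro y hy
      rcases Finset.mem_insert.1 hy with rfl | hy
      exacts [hx, hS y hy]
    · simp only [Finset.sum_insert hxS, Finset.sum_add_distrib, sub_self, abs_zero, log_zero,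
        abs_sub_comm _ x]
      push_cast
      linarith

theorem small_monic {η : ℝ} (h0 : 0 ≤ η) (Y : Multiset ℝ) (hY : 0 < Y.card)
    (hη : η * Y.card ≤ 0.25) (hκ : volume.real (negSet (η / 2) (2 + η / 2) Y) ≤ 0.558 * π) :
    ∃ p : ℝ[X], p.Monic ∧
      ∀ x ∈ Icc (-2) (2 + η), (Y.map fun a => x - a).prod ≤ 0 → |p.eval x| ≤ 1 / 2 := by
  by_contra hc
  push Not at hc
  have hN : (1 : ℝ) ≤ Y.card := by exact_mod_cast hY
  set N : ℝ := (Y.card : ℝ) with hNdef
  set c := η / 2 with hcd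
  set w := 2 + η / 2 with hwd
  have hw : 2 ≤ w := by linarith
  have hw0 : 0 < w := by linarith
  have hb : π / (10 * N) ≤ π / 2 := by gcongr; linarith
  obtain ⟨ε, hε, hεb, hA⟩ := exists_eps (γ := 0.0001 * π / N) (b := π / (10000 * N))
    (by positivity) (by positivity) (by gcongr; linarith)
  have hεb' : ε ≤ π / (10 * N) := hεb.trans (by gcongr; norm_num)
  have hε' := hεb'.trans hb
  set E := -log 2 + (∫ h in ε..π / 2, h ^ 2 / sin h ^ 2) / π +
    (π / (10 * N) - ε) * (1 / (0.758 * π) - 1 / π) with hE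
  have hE0 : 0 < 2 * E - log (w / 2) := by
    have e1 : log (w / 2) ≤ η / 4 := (log_le_sub_one_of_pos (by linarith)).trans_eq (by rw [hwd]; ring)
    have e2 : log 2 - 0.0001 / N ≤ (∫ h in ε..π / 2, h ^ 2 / sin h ^ 2) / π := by
      rw [le_div_iff₀ pi_pos]
      refine le_trans (le_of_eq ?_) hA
      ring
    have e3 : (π / (10 * N) - π / (10000 * N)) * (1 / (0.758 * π) - 1 / π) ≤
        (π / (10 * N) - ε) * (1 / (0.758 * π) - 1 / π) :=
      mul_le_mul_of_nonneg_right (by linarith) (sub_nonneg.2 (one_div_le_one_div_of_le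
        (by positivity) (by linarith [pi_pos])))
    have e4 : (π / (10 * N) - π / (10000 * N)) * (1 / (0.758 * π) - 1 / π) =
        (0.0999 * 0.242 / 0.758) / N := by
      field_simp; ring
    have e5 : η ≤ 0.25 / N := by rwa [le_div_iff₀ (by linarith)]
    have e6 : 0 < N⁻¹ := by positivity
    rw [e4] at e3
    rw [div_eq_mul_inv _ N] at e2 e3 e5
    rw [hE]
    linarith
  obtain ⟨n, hn⟩ := exists_nat_gt (max 0 ((2 * kerF ε 0 + 2 * log 2) / (2 * E - log (w / 2))))
  have hn0 : (0 : ℝ) < n := (le_max_left _ _).trans_lt hn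
  have hn1 := (le_max_right _ _).trans_lt hn
  rw [div_lt_iff₀ hE0] at hn1
  obtain ⟨S, hS, hcard, hs⟩ := leja (K := {x | x ∈ Icc (-2) (2 + η) ∧ (Y.map fun a => x - a).prod ≤ 0})
    (fun p hp => by
      obtain ⟨x, hx, h1, h2⟩ := hc p hp
      exact ⟨x, ⟨hx, h1⟩, h2⟩) n
  have hI : ∀ x ∈ S, x ∈ Icc (c - w) (c + w) := fun x hx => by
    have := (hS x hx).1
    constructor <;> linarith [this.1, this.2]
  let τ : S ⊕ S → AddCircle π := Sum.elim (fun x => (ang c w x : ℝ)) fun x => -(ang c w x : ℝ)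
  have hτ : ∀ i, τ i ∈ negSet c w Y := by
    rintro (x | x)
    · show (Y.map fun a => proj c w (ang c w x : ℝ) - a).prod ≤ 0
      rw [proj_coe, cos_ang hw0 (hI x x.2)]
      exact (hS x x.2).2
    · show (Y.map fun a => proj c w (-((ang c w x : ℝ) : AddCircle π)) - a).prod ≤ 0
      rw [← AddCircle.coe_neg, proj_coe, mul_neg, cos_neg, cos_ang hw0 (hI x x.2)]
      exact (hS x x.2).2
  have hm : (Fintype.card (S ⊕ S) : ℝ) = 2 * n := by
    rw [Fintype.card_sum, Fintype.card_coe, hcard]; push_cast; ring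
  have key := sum_kerF (fun i j => ‖τ i - τ j‖) (β := 0.758 * π) hε hεb' hb (by positivity)
    (by linarith [pi_pos]) hm
    (fun h hh => hm ▸ overlap τ (hε.le.trans hh.1) hh.2 pi_pos (real_le_pi _))
    (fun h hh => hm ▸ overlap τ (hε.le.trans hh.1) (hh.2.trans hb) (by positivity) (by
      have h1 : 0 ≤ h / 2 := by linarith [hh.1]
      refine (measureReal_mono (iUnion_subset fun i => ball_subset hw0 (h / 2) (hτ i))).trans
        ((measureReal_union_le _ _).trans ?_)
      have h2 := real_nbh c w Y h1 (by linarith [hh.2, pi_pos])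
      have h3 := hh.2
      rw [le_div_iff₀ (by positivity)] at h3
      linarith))
  rw [← hE] at key
  have e1 : ∑ i, ∑ j, kerF ε ‖τ i - τ j‖ = 2 * ∑ x ∈ S, ∑ y ∈ S,
      (kerF ε ‖((ang c w x : ℝ) : AddCircle π) - (ang c w y : ℝ)‖
        + kerF ε ‖((ang c w x : ℝ) : AddCircle π) + (ang c w y : ℝ)‖) := by
    have n1 : ∀ a b : AddCircle π, ‖-a - b‖ = ‖a + b‖ := fun a b => by
      rw [← norm_neg]; congr 1; abel
    have n2 : ∀ a b : AddCircle π, ‖-a + b‖ = ‖a - b‖ := fun a b => by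
      rw [← norm_neg]; congr 1; abel
    simp only [Fintype.sum_sum_type, τ, Sum.elim_inl, Sum.elim_inr, sub_neg_eq_add, n1, n2]
    rw [← Finset.sum_coe_sort S]
    simp only [← Finset.sum_coe_sort S, Finset.sum_add_distrib]
    ring
  have e2 := Finset.sum_le_sum (s := S) fun x hx => Finset.sum_le_sum (s := S) fun y hy =>
    pair_bound hw hε hε' (hI x hx) (hI y hy)
  simp only [Finset.sum_add_distrib, Finset.sum_sub_distrib, Finset.sum_ite_eq, Finset.sum_const,
    hcard, nsmul_eq_mul] at e1 e2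
  rw [Finset.sum_congr rfl fun x hx => if_pos hx, Finset.sum_const, hcard, nsmul_eq_mul] at e2
  rw [e1] at key
  nlinarith

end Pool.Agent.MP_108ce6_nt

end

-- part MP_108ce6_nt.Core
section

/-! The gap above `2` for integer polynomials with real roots, and Kronecker's theorem. -/

namespace Pool.Agent.MP_108ce6_nt

open Real Polynomial

theorem core (s : Multiset ℝ) (P : ℤ[X])
    (h : P.map (Int.castRingHom ℝ) = (s.map fun θ => X - C θ).prod) (M : ℝ) (hM : 2 < M)
    (hs : ∀ θ ∈ s, -2 ≤ θ ∧ θ ≤ M) (hc : s.count M = 1) :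
    2 + 1 / (150 * ((s.card : ℝ) + 1)) < M := by
  by_contra hle
  push Not at hle
  have hd : 0 < s.card := Multiset.card_pos_iff_exists_mem.2 ⟨M, Multiset.count_pos.1 (by omega)⟩
  have hd' : (1 : ℝ) ≤ s.card := by exact_mod_cast hd
  obtain ⟨δ, rfl⟩ : ∃ δ, M = 2 + δ := ⟨M - 2, by ring⟩
  have hδ0 : 0 < δ := by linarith
  have hδ1 : δ * (150 * ((s.card : ℝ) + 1)) ≤ 1 := by
    rw [← le_div_iff₀ (by positivity)]; linarith
  have hδ2 : δ ≤ 1 / 300 := by nlinarith
  set z := ((2 + δ) ^ 2 - 2) ^ 2 - 2 with hz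
  have hη0 : 0 < z - 2 := by rw [hz]; nlinarith [sq_nonneg δ, mul_pos hδ0 hδ0]
  have hη1 : z - 2 ≤ 16.1 * δ := by
    have e : z - 2 = δ * (16 + δ * (20 + δ * (8 + δ))) := by rw [hz]; ring
    have : δ * (20 + δ * (8 + δ)) ≤ 0.1 := by nlinarith [mul_pos hδ0 hδ0]
    rw [e]; nlinarith
  set Y := (s.map fun θ => θ ^ 2 - 2) + (s.map fun θ => θ ^ 2 - 2).map fun θ => θ ^ 2 - 2 with hY
  have hMz : (2 + δ) ^ 2 - 2 < z := by rw [hz]; nlinarith [sq_nonneg δ, mul_pos hδ0 hδ0]
  have h2 : ∀ θ ∈ s, -2 ≤ θ ^ 2 - 2 ∧ θ ^ 2 - 2 ≤ (2 + δ) ^ 2 - 2 := fun θ hθ => by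
    obtain ⟨h1, h2⟩ := hs θ hθ
    constructor <;> nlinarith [sq_nonneg θ]
  have hYI : ∀ a ∈ Y, a ∈ Set.Icc (-2) (2 + (z - 2)) := by
    intro a ha
    simp only [hY, Multiset.mem_add, Multiset.mem_map] at ha
    rcases ha with ⟨θ, hθ, rfl⟩ | ⟨_, ⟨θ, hθ, rfl⟩, rfl⟩
    · exact ⟨(h2 θ hθ).1, by linarith [(h2 θ hθ).2]⟩
    · obtain ⟨h3, h4⟩ := h2 θ hθ
      refine ⟨by nlinarith [sq_nonneg (θ ^ 2 - 2)], ?_⟩
      have : (θ ^ 2 - 2) ^ 2 ≤ ((2 + δ) ^ 2 - 2) ^ 2 := sq_le_sq' (by nlinarith) h4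
      linarith
  have hYc : Y.card = 2 * s.card := by simp only [hY, Multiset.card_add, Multiset.card_map]; ring
  have hYz : Y.count z = 1 := by
    rw [hY, Multiset.count_add, Multiset.count_eq_zero_of_notMem, zero_add, Multiset.map_map,
      Multiset.count_map]
    · refine Eq.trans ?_ hc
      rw [Multiset.count_eq_card_filter_eq]
      congr 1
      refine Multiset.filter_congr fun θ hθ => ⟨fun h3 => ?_, fun h3 => by rw [← h3]; rfl⟩
      obtain ⟨h4, h5⟩ := hs θ hθ
      obtain ⟨h6, h7⟩ := h2 θ hθ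
      have e1 : ((2 + δ) ^ 2 - 2) ^ 2 = (θ ^ 2 - 2) ^ 2 := by
        simp only [hz, Function.comp_apply] at h3; linarith
      have e2 : (2 + δ) ^ 2 = θ ^ 2 := by
        rcases sq_eq_sq_iff_eq_or_eq_neg.1 e1 with e | e <;> nlinarith
      rcases sq_eq_sq_iff_eq_or_eq_neg.1 e2 with e | e <;> linarith
    · intro hm
      obtain ⟨θ, hθ, e⟩ := Multiset.mem_map.1 hm
      linarith [(h2 θ hθ).2]
  obtain ⟨⟨G₁, h10, h11⟩, G₂, h20, h21⟩ := two_sqrts s P h
  rcases one_small hη0.le (by linarith) Y with hκ | hκ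
  · obtain ⟨p, hp, hps⟩ := small_monic hη0.le Y (by omega) (by rw [hYc]; push_cast; nlinarith) hκ
    exact no_int_sqrt Y ⟨s.card, by omega⟩ z (by linarith) (by rw [hYz]; exact odd_one) G₁ h10 h11
      _ _ hYI hp hps
  · obtain ⟨p, hp, hps⟩ := small_monic hη0.le (2 ::ₘ (-2) ::ₘ Y) (by simp) (by
      rw [Multiset.card_cons, Multiset.card_cons, hYc]; push_cast; nlinarith) hκ
    refine no_int_sqrt (2 ::ₘ (-2) ::ₘ Y) ⟨s.card + 1, by
      rw [Multiset.card_cons, Multiset.card_cons]; omega⟩ z (by linarith) ?_ G₂ h20 h21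
      _ _ (fun a ha => ?_) hp hps
    · rw [Multiset.count_cons_of_ne (by linarith), Multiset.count_cons_of_ne (by linarith), hYz]
      exact odd_one
    · rcases Multiset.mem_cons.1 ha with rfl | ha
      · constructor <;> linarith
      · rcases Multiset.mem_cons.1 ha with rfl | ha
        · constructor <;> linarith
        · exact hYI a ha

theorem core' (s : Multiset ℝ) (P : ℤ[X])
    (h : P.map (Int.castRingHom ℝ) = (s.map fun θ => X - C θ).prod) (y : ℝ) (hy : y ∈ s)
    (hy2 : 2 < |y|) (hs : ∀ θ ∈ s, |θ| ≤ |y|) :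
    2 + 1 / (601 * ((s.card : ℝ) + 1)) < |y| := by
  obtain ⟨Q, -, hQ, -⟩ := graeffe_two s P h
  set t := s.map fun θ => θ ^ 2 - 2 with ht
  set z := y ^ 2 - 2 with hz
  have hinj : Function.Injective (Int.castRingHom ℝ) := RingHom.injective_int _
  have hm : (t.map fun θ => X - C θ).prod.Monic :=
    monic_multiset_prod_of_monic _ _ fun a _ => monic_X_sub_C a
  have hQm : Q.Monic := monic_of_injective hinj (by rw [hQ]; exact hm)
  have hQz : aeval z Q = 0 := by
    rw [← eval_map_algebraMap, algebraMap_int_eq, hQ, eval_multiset_prod, Multiset.map_map]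
    exact Multiset.prod_eq_zero (Multiset.mem_map.2 ⟨z, Multiset.mem_map_of_mem _ hy, by simp⟩)
  have hzi : IsIntegral ℤ z := ⟨Q, hQm, hQz⟩
  set R := (minpoly ℤ z).map (Int.castRingHom ℝ) with hR
  have hdvd : R ∣ (t.map fun θ => X - C θ).prod := by
    rw [← hQ]; exact Polynomial.map_dvd _ (minpoly.isIntegrallyClosed_dvd hzi hQz)
  have hRm : R.Monic := (minpoly.monic hzi).map _
  have hsp : R.Splits := (Splits.multisetProd fun f hf => by
    obtain ⟨a, -, rfl⟩ := Multiset.mem_map.1 hf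
    exact Splits.X_sub_C a).of_dvd hm.ne_zero hdvd
  have hle := roots.le_of_dvd hm.ne_zero hdvd
  rw [roots_multiset_prod_X_sub_C] at hle
  have hsep : R.Separable := by
    have e : R = (minpoly ℚ z).map (algebraMap ℚ ℝ) := by
      rw [minpoly.isIntegrallyClosed_eq_field_fractions' ℚ hzi, Polynomial.map_map, hR]
      congr 1
    rw [e]
    exact (minpoly.irreducible hzi.tower_top).separable.map
  have hzR : z ∈ R.roots := by
    rw [mem_roots hRm.ne_zero, IsRoot.def, hR, ← algebraMap_int_eq, eval_map_algebraMap]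
    exact minpoly.aeval ℤ z
  have hy3 : |y| ^ 2 = y ^ 2 := sq_abs y
  have key := core R.roots (minpoly ℤ z) (prod_multiset_X_sub_C_of_monic_of_roots_card_eq hRm
    hsp.natDegree_eq_card_roots.symm).symm z (by nlinarith) (fun θ hθ => by
      obtain ⟨u, hu, rfl⟩ := Multiset.mem_map.1 (Multiset.mem_of_le hle hθ)
      have := sq_le_sq.2 (hs u hu)
      constructor <;> nlinarith [sq_nonneg u])
    (Multiset.count_eq_one_of_mem (nodup_roots hsep) hzR)
  have hcard : (R.roots.card : ℝ) ≤ s.card := by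
    have := Multiset.card_le_card hle
    rw [ht, Multiset.card_map] at this
    exact_mod_cast this
  have hd : (1 : ℝ) ≤ s.card := by exact_mod_cast Multiset.card_pos_iff_exists_mem.2 ⟨y, hy⟩
  have h1 : 1 / (150 * ((s.card : ℝ) + 1)) ≤ 1 / (150 * ((R.roots.card : ℝ) + 1)) := by gcongr
  by_contra hc
  push Not at hc
  have e1 : 1 / (150 * ((s.card : ℝ) + 1)) = 601 / 150 * (1 / (601 * ((s.card : ℝ) + 1))) := by
    field_simp
  have e2 : 1 / (601 * ((s.card : ℝ) + 1)) ≤ 1 / 1202 := by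
    rw [div_le_div_iff₀ (by positivity) (by norm_num)]; linarith
  have e3 : 0 < 1 / (601 * ((s.card : ℝ) + 1)) := by positivity
  generalize 1 / (601 * ((s.card : ℝ) + 1)) = δ at *
  nlinarith

open IntermediateField in
theorem kronecker (s : Multiset ℝ) (P : ℤ[X])
    (h : P.map (Int.castRingHom ℝ) = (s.map fun θ => X - C θ).prod) (x : ℝ) (hx : x ∈ s)
    (hs : ∀ θ ∈ s, |θ| ≤ 2) : ∃ q : ℚ, x = 2 * cos (2 * π * (q : ℝ)) := by
  have hev : ∀ u : ℂ, aeval u P = (s.map fun θ : ℝ => u - θ).prod := fun u => by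
    have e : aeval u P = aeval u (P.map (Int.castRingHom ℝ)) := by
      rw [← algebraMap_int_eq, aeval_map_algebraMap]
    rw [e, h, map_multiset_prod, Multiset.map_map]
    simp
  have hm : P.Monic := monic_of_injective (RingHom.injective_int (Int.castRingHom ℝ)) (by
    rw [h]; exact monic_multiset_prod_of_monic _ _ fun a _ => monic_X_sub_C a)
  have hx0 : aeval (x : ℂ) P = 0 := by
    rw [hev]; exact Multiset.prod_eq_zero (Multiset.mem_map.2 ⟨x, hx, sub_self _⟩)
  set α := arccos (x / 2) with hα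
  have hxα : x = 2 * cos α := by
    have := abs_le.1 (hs x hx)
    rw [hα, cos_arccos (by linarith [this.1]) (by linarith [this.2])]; ring
  set z := Complex.exp (α * Complex.I) with hz
  have hz0 : z ≠ 0 := Complex.exp_ne_zero _
  have hzx : z + z⁻¹ = x := by
    rw [hxα, hz, ← Complex.exp_neg, ← neg_mul, ← Complex.two_cos]; push_cast; ring
  have hzi : IsIntegral ℤ z := by
    let x' : integralClosure ℤ ℂ := ⟨x, P, hm, hx0⟩
    refine isIntegral_trans (A := integralClosure ℤ ℂ) z ⟨X ^ 2 + (1 - C x' * X),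
      monic_X_pow_add ((degree_sub_le _ _).trans_lt (max_lt (degree_one_le.trans_lt (by decide))
        ((degree_C_mul_X_le _).trans_lt (by decide)))), ?_⟩
    simp only [eval₂_add, eval₂_sub, eval₂_mul, eval₂_X_pow, eval₂_one, eval₂_C, eval₂_X]
    show z ^ 2 + (1 - (x : ℂ) * z) = 0
    rw [← hzx]; field_simp; ring
  let K := ℚ⟮z⟯
  let : NumberField K := {
    to_charZero := ℚ⟮z⟯.charZero,
    to_finiteDimensional := adjoin.finiteDimensional hzi.tower_top }
  let y : K := ⟨z, mem_adjoin_simple_self ℚ z⟩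
  have hy0 : y ≠ 0 := Subtype.coe_ne_coe.mp hz0
  have H (ψ : K →+* ℂ) (u : K) : ψ (aeval u P) = aeval (ψ u) P := by
    conv_rhs => rw [← Polynomial.map_id (p := P)]
    exact P.map_aeval_eq_aeval_map (by ext; simp) u
  have hP : aeval (y + y⁻¹) P = 0 := by
    rw [← map_eq_zero_iff _ (FaithfulSMul.algebraMap_injective K ℂ), H, map_add, map_inv₀]
    show aeval (z + z⁻¹) P = 0
    rw [hzx, hx0]
  obtain ⟨n, hn0, hn⟩ := NumberField.Embeddings.pow_eq_one_of_norm_le_one (x := y) K ℂ hy0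
    (coe_isIntegral_iff.mp hzi) fun φ => by
      have h1 := H φ (y + y⁻¹)
      rw [hP, map_zero, hev, eq_comm, Multiset.prod_eq_zero_iff, map_add, map_inv₀] at h1
      obtain ⟨θ, hθ, h2⟩ := Multiset.mem_map.1 h1
      have h3 := abs_le.1 (hs θ hθ)
      have h4 : φ y ≠ 0 := (map_ne_zero φ).2 hy0
      generalize φ y = u at h2 h4
      have h5 : u ^ 2 - θ * u + 1 = 0 := by rw [← sub_eq_zero.1 h2]; field_simp; ring
      have h6 := congrArg Complex.re h5
      have h7 := congrArg Complex.im h5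
      simp [pow_two] at h6 h7
      rw [← abs_norm, ← sq_le_one_iff_abs_le_one, Complex.sq_norm, Complex.normSq_apply]
      by_cases h8 : u.im = 0
      · rw [h8] at h6 ⊢
        rcases le_total 0 u.re with h10 | h10
        · have h11 : (u.re - 1) ^ 2 ≤ 0 := by nlinarith [mul_nonneg h10 (sub_nonneg.2 h3.2)]
          have h12 := (pow_eq_zero_iff two_ne_zero).1 (le_antisymm h11 (sq_nonneg _))
          rw [show u.re = 1 by linarith]; norm_num
        · have h11 : (u.re + 1) ^ 2 ≤ 0 := by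
            nlinarith [mul_nonneg (neg_nonneg.2 h10) (sub_nonneg.2 h3.1)]
          have h12 := (pow_eq_zero_iff two_ne_zero).1 (le_antisymm h11 (sq_nonneg _))
          rw [show u.re = -1 by linarith]; norm_num
      · have h9 : θ = 2 * u.re := by
          apply mul_right_cancel₀ h8; linarith
        rw [h9] at h6
        nlinarith
  have hn' : z ^ n = 1 := congrArg (algebraMap K ℂ) hn
  rw [hz, ← Complex.exp_nat_mul, Complex.exp_eq_one_iff] at hn'
  obtain ⟨k, hk⟩ := hn'
  have hk' := congrArg Complex.im hk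
  simp at hk'
  refine ⟨k / n, ?_⟩
  have hn1 : (n : ℝ) ≠ 0 := by positivity
  rw [hxα]
  congr 2
  push_cast
  field_simp
  linarith

end Pool.Agent.MP_108ce6_nt

end
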