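import Mathlib
import Pool.Agent.MP_108ce6_nt.Rig.Cheb

-- part MP_108ce6_nt.Rig.Gen
section

namespace Pool.Agent.MP_108ce6_nt.Rig

section

/-! Power series with bounded coefficients over a complete normed field; parity of roots. -/

open Polynomial Finset

/-- `X ^ N * p (u / X)`. -/
noncomputable def hom {R : Type*} [CommRing R] (u : R[X]) (N : ℕ) (p : R[X]) : R[X] :=
  ∑ i ∈ range (N + 1), C (p.coeff i) * u ^ i * X ^ (N - i)

theorem hom_map {R S : Type*} [CommRing R] [CommRing S] (f : R →+* S) (u : R[X]) (N : ℕ)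
    (p : R[X]) : (hom u N p).map f = hom (u.map f) N (p.map f) := by
  simp [hom, Polynomial.map_sum, coeff_map]

theorem hom_eval {K : Type*} [Field K] (u : K[X]) {N : ℕ} {p : K[X]} (hp : p.natDegree ≤ N)
    {z : K} (hz : z ≠ 0) : (hom u N p).eval z = z ^ N * p.eval (u.eval z / z) := by
  rw [eval_eq_sum_range' (Nat.lt_succ_of_le hp), mul_sum, hom, eval_finsetSum]
  refine sum_congr rfl fun i hi => ?_
  obtain ⟨j, rfl⟩ := Nat.exists_eq_add_of_le (Nat.lt_succ_iff.1 (mem_range.1 hi))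
  simp only [eval_mul, eval_C, eval_pow, eval_X, Nat.add_sub_cancel_left, div_pow, pow_add]
  field_simp

theorem eq_of_eval_ne_zero {K : Type*} [Field K] [Infinite K] {p q : K[X]}
    (h : ∀ z, z ≠ 0 → p.eval z = q.eval z) : p = q :=
  eq_of_infinite_eval_eq _ _ ((Set.finite_singleton (0 : K)).infinite_compl.mono fun z hz => h z hz)

variable {𝕜 : Type*} [NontriviallyNormedField 𝕜]

/-- Bounded coefficients. -/
def Bd (f : PowerSeries 𝕜) : Prop := ∃ B : ℝ, ∀ k, ‖PowerSeries.coeff k f‖ ≤ B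

/-- Absolute convergence at `z`. -/
def Sm (z : 𝕜) (f : PowerSeries 𝕜) : Prop := Summable fun k => ‖PowerSeries.coeff k f * z ^ k‖

/-- Value at `z`. -/
noncomputable def ev (z : 𝕜) (f : PowerSeries 𝕜) : 𝕜 := ∑' k, PowerSeries.coeff k f * z ^ k

theorem Bd.sm {f : PowerSeries 𝕜} (h : Bd f) {z : 𝕜} (hz : ‖z‖ < 1) : Sm z f := by
  obtain ⟨B, hB⟩ := h
  refine Summable.of_nonneg_of_le (fun _ => norm_nonneg _) (fun k => ?_)
    ((summable_geometric_of_lt_one (norm_nonneg z) hz).mul_left B)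
  rw [norm_mul, norm_pow]
  exact mul_le_mul_of_nonneg_right (hB k) (by positivity)

theorem bd_coe (p : 𝕜[X]) : Bd (p : PowerSeries 𝕜) := by
  refine ⟨∑ i ∈ range (p.natDegree + 1), ‖p.coeff i‖, fun k => ?_⟩
  rw [coeff_coe]
  by_cases hk : k ≤ p.natDegree
  · exact single_le_sum (f := fun i => ‖p.coeff i‖) (fun _ _ => norm_nonneg _)
      (mem_range.2 (Nat.lt_succ_of_le hk))
  · rw [coeff_eq_zero_of_natDegree_lt (not_le.1 hk), norm_zero]
    exact sum_nonneg fun _ _ => norm_nonneg _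

theorem Bd.add {f g : PowerSeries 𝕜} (hf : Bd f) (hg : Bd g) : Bd (f + g) := by
  obtain ⟨A, hA⟩ := hf
  obtain ⟨B, hB⟩ := hg
  refine ⟨A + B, fun k => ?_⟩
  rw [map_add]
  exact (norm_add_le _ _).trans (add_le_add (hA k) (hB k))

theorem Bd.coe_mul {f : PowerSeries 𝕜} (hf : Bd f) (p : 𝕜[X]) : Bd ((p : PowerSeries 𝕜) * f) := by
  induction p using Polynomial.induction_on' with
  | add p q hp hq =>
    rw [Polynomial.coe_add, add_mul]
    exact hp.add hq
  | monomial n a =>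
    obtain ⟨B, hB⟩ := hf
    have hB0 : 0 ≤ B := (norm_nonneg _).trans (hB 0)
    refine ⟨‖a‖ * B, fun k => ?_⟩
    rw [← C_mul_X_pow_eq_monomial, Polynomial.coe_mul, Polynomial.coe_pow, coe_C, coe_X, mul_assoc,
      PowerSeries.coeff_C_mul, PowerSeries.coeff_X_pow_mul', norm_mul]
    refine mul_le_mul_of_nonneg_left ?_ (norm_nonneg _)
    split_ifs
    · exact hB _
    · rwa [norm_zero]

theorem sm_coe (z : 𝕜) (p : 𝕜[X]) : Sm z (p : PowerSeries 𝕜) := by
  refine summable_of_ne_finset_zero (s := range (p.natDegree + 1)) fun k hk => ?_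
  rw [coeff_coe, coeff_eq_zero_of_natDegree_lt (by have := mem_range.not.1 hk; omega), zero_mul,
    norm_zero]

theorem ev_coe (z : 𝕜) (p : 𝕜[X]) : ev z (p : PowerSeries 𝕜) = p.eval z := by
  rw [ev, tsum_eq_sum (s := range (p.natDegree + 1)) fun k hk => ?_, eval_eq_sum_range]
  · simp only [coeff_coe]
  · rw [coeff_coe, coeff_eq_zero_of_natDegree_lt (by have := mem_range.not.1 hk; omega), zero_mul]

theorem Sm.add {z : 𝕜} {f g : PowerSeries 𝕜} (hf : Sm z f) (hg : Sm z g) : Sm z (f + g) := by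
  refine Summable.of_nonneg_of_le (fun _ => norm_nonneg _) (fun k => ?_) (Summable.add hf hg)
  rw [map_add, add_mul]
  exact norm_add_le _ _

theorem ev_coeff_mul (z : 𝕜) (f g : PowerSeries 𝕜) (k : ℕ) :
    PowerSeries.coeff k (f * g) * z ^ k = ∑ p ∈ antidiagonal k,
      (PowerSeries.coeff p.1 f * z ^ p.1) * (PowerSeries.coeff p.2 g * z ^ p.2) := by
  rw [PowerSeries.coeff_mul, sum_mul]
  refine sum_congr rfl fun p hp => ?_
  rw [← mem_antidiagonal.1 hp, pow_add]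
  ring

theorem Sm.mul {z : 𝕜} {f g : PowerSeries 𝕜} (hf : Sm z f) (hg : Sm z g) : Sm z (f * g) := by
  have h := summable_norm_sum_mul_antidiagonal_of_summable_norm
    (f := fun k => PowerSeries.coeff k f * z ^ k) (g := fun k => PowerSeries.coeff k g * z ^ k) hf hg
  refine h.congr fun k => ?_
  rw [ev_coeff_mul]

variable [CompleteSpace 𝕜]

theorem ev_add {z : 𝕜} {f g : PowerSeries 𝕜} (hf : Sm z f) (hg : Sm z g) :
    ev z (f + g) = ev z f + ev z g := by
  unfold ev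
  rw [← (Summable.of_norm hf).tsum_add (Summable.of_norm hg)]
  simp only [map_add, add_mul]

theorem ev_mul {z : 𝕜} {f g : PowerSeries 𝕜} (hf : Sm z f) (hg : Sm z g) :
    ev z (f * g) = ev z f * ev z g := by
  unfold ev
  rw [tsum_mul_tsum_eq_tsum_sum_antidiagonal_of_summable_norm
    (f := fun k => PowerSeries.coeff k f * z ^ k) (g := fun k => PowerSeries.coeff k g * z ^ k) hf hg]
  exact tsum_congr fun k => ev_coeff_mul z f g k

/-- Truncation error. -/
theorem ev_sub_sum {f : PowerSeries 𝕜} {B : ℝ} (h : ∀ k, ‖PowerSeries.coeff k f‖ ≤ B) {z : 𝕜}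
    (hz : ‖z‖ < 1) (n : ℕ) :
    ‖ev z f - ∑ k ∈ range n, PowerSeries.coeff k f * z ^ k‖ ≤ B * ‖z‖ ^ n / (1 - ‖z‖) := by
  have hs : Summable fun k => PowerSeries.coeff k f * z ^ k :=
    Summable.of_norm (Bd.sm ⟨B, h⟩ hz)
  rw [ev, ← hs.sum_add_tsum_nat_add n, add_sub_cancel_left]
  refine tsum_of_norm_bounded (g := fun k => B * ‖z‖ ^ n * ‖z‖ ^ k) ?_ fun k => ?_
  · rw [div_eq_mul_inv]
    exact (hasSum_geometric_of_lt_one (norm_nonneg z) hz).mul_left _
  · rw [norm_mul, norm_pow, pow_add, mul_assoc, mul_comm (‖z‖ ^ n)]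
    exact mul_le_mul_of_nonneg_right (h _) (by positivity)

theorem Bd.div {f : PowerSeries 𝕜} (h : Bd f) {v : 𝕜} (hv : ‖v‖ < 1) (h0 : ev v f = 0) :
    ∃ f₁, Bd f₁ ∧ f = ((X - C v : 𝕜[X]) : PowerSeries 𝕜) * f₁ := by
  obtain ⟨B, hB⟩ := h
  have hb : ∀ m l, ‖PowerSeries.coeff (l + m) f * v ^ l‖ ≤ B * ‖v‖ ^ l := fun m l => by
    rw [norm_mul, norm_pow]
    exact mul_le_mul_of_nonneg_right (hB _) (by positivity)
  have hg := (hasSum_geometric_of_lt_one (norm_nonneg v) hv).mul_left B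
  have hs : ∀ m, Summable fun l => PowerSeries.coeff (l + m) f * v ^ l := fun m =>
    Summable.of_norm_bounded hg.summable (hb m)
  have key : ∀ m, ∑' l, PowerSeries.coeff (l + m) f * v ^ l =
      PowerSeries.coeff m f + v * ∑' l, PowerSeries.coeff (l + (m + 1)) f * v ^ l := fun m => by
    rw [(hs m).tsum_eq_zero_add, ← tsum_mul_left, zero_add, pow_zero, mul_one]
    congr 1
    refine tsum_congr fun l => ?_
    rw [show l + 1 + m = l + (m + 1) by ring, pow_succ]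
    ring
  refine ⟨PowerSeries.mk fun k => ∑' l, PowerSeries.coeff (l + (k + 1)) f * v ^ l,
    ⟨B * (1 - ‖v‖)⁻¹, fun k => ?_⟩, ?_⟩
  · rw [PowerSeries.coeff_mk]
    exact tsum_of_norm_bounded hg (hb _)
  · rw [Polynomial.coe_sub, coe_X, coe_C, sub_mul]
    ext k
    rw [map_sub, PowerSeries.coeff_C_mul, PowerSeries.coeff_mk]
    cases k with
    | zero =>
      have h1 := key 0
      simp only [add_zero] at h1
      rw [ev, h1] at h0
      rw [PowerSeries.coeff_zero_X_mul]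
      linear_combination h0
    | succ k =>
      rw [PowerSeries.coeff_succ_X_mul, PowerSeries.coeff_mk, key (k + 1)]
      ring

theorem even_root {v : 𝕜} (hv : ‖v‖ < 1) {D : 𝕜[X]} (hD : D.eval v ≠ 0) (E : 𝕜[X]) (hE : E ≠ 0)
    (Y : PowerSeries 𝕜) (hY : Bd Y) :
    Y ^ 2 ≠ ((E ^ 2 * ((X - C v) * D) : 𝕜[X]) : PowerSeries 𝕜) := by
  induction hn : E.natDegree using Nat.strong_induction_on generalizing E Y with
  | _ n ih =>
  intro h
  have hX : ((X - C v : 𝕜[X]) : PowerSeries 𝕜) ≠ 0 := by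
    rw [Ne, Polynomial.coe_eq_zero_iff]
    exact X_sub_C_ne_zero v
  have h1 : ev v Y = 0 := by
    have h2 := congrArg (ev v) h
    rw [sq, ev_mul (hY.sm hv) (hY.sm hv), ev_coe] at h2
    simpa using h2
  obtain ⟨Y₁, hY₁, rfl⟩ := hY.div hv h1
  by_cases hE0 : E.eval v = 0
  · obtain ⟨E₁, rfl⟩ := dvd_iff_isRoot.2 hE0
    have hE₁ : E₁ ≠ 0 := right_ne_zero_of_mul hE
    refine ih E₁.natDegree ?_ E₁ hE₁ Y₁ hY₁ rfl ?_
    · rw [← hn, natDegree_mul (X_sub_C_ne_zero v) hE₁, natDegree_X_sub_C]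
      omega
    · refine mul_left_cancel₀ (pow_ne_zero 2 hX) ?_
      rw [← mul_pow, h]
      simp only [Polynomial.coe_mul, Polynomial.coe_pow]
      ring
  · have h3 : ((X - C v : 𝕜[X]) : PowerSeries 𝕜) * (Y₁ * Y₁) =
        ((E ^ 2 * D : 𝕜[X]) : PowerSeries 𝕜) := by
      refine mul_left_cancel₀ hX ?_
      have h4 := h
      simp only [Polynomial.coe_mul, Polynomial.coe_pow] at h4 ⊢
      linear_combination h4
    have h2 := congrArg (ev v) h3
    rw [ev_mul (sm_coe v _) ((hY₁.sm hv).mul (hY₁.sm hv)), ev_coe, ev_coe] at h2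
    simp only [eval_sub, eval_X, eval_C, sub_self, zero_mul, eval_mul, eval_pow] at h2
    exact mul_ne_zero (pow_ne_zero 2 hE0) hD h2.symm

theorem ev_hom_mul {K : Type*} [Field K] [Infinite K] (u : K[X]) {M N : ℕ} {p q : K[X]}
    (hp : p.natDegree ≤ M) (hq : q.natDegree ≤ N) :
    hom u (M + N) (p * q) = hom u M p * hom u N q := by
  refine eq_of_eval_ne_zero fun z hz => ?_
  rw [eval_mul, hom_eval u hp hz, hom_eval u hq hz,
    hom_eval u (natDegree_mul_le.trans (add_le_add hp hq)) hz, eval_mul, pow_add]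
  ring

theorem ev_hom_lin {K : Type*} [Field K] [Infinite K] (u : K[X]) (x : K) :
    hom u 1 (X - C x) = u - C x * X := by
  refine eq_of_eval_ne_zero fun z hz => ?_
  rw [hom_eval u (natDegree_X_sub_C x).le hz]
  simp only [eval_sub, eval_X, eval_C, eval_mul]
  field_simp

theorem ev_hom_ne {K : Type*} [Field K] [Infinite K] {u : K[X]} {x v : K} (hv0 : v ≠ 0)
    (hx : u.eval v / v = x) (hu : u - C x * X ≠ 0) (a : ℕ) :
    ∀ e : K[X], e ≠ 0 → e.natDegree ≤ a → hom u a e ≠ 0 := by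
  induction a with
  | zero =>
    intro e he ha h
    have h1 := hom_eval u ha hv0
    rw [h, eq_C_of_natDegree_le_zero ha] at h1
    simp only [eval_zero, pow_zero, eval_C, one_mul] at h1
    exact he (by rw [eq_C_of_natDegree_le_zero ha, ← h1, C_0])
  | succ a ih =>
    intro e he ha h
    have h1 := hom_eval u ha hv0
    rw [h, hx, eval_zero] at h1
    have h2 : e.eval x = 0 := (mul_eq_zero.1 h1.symm).resolve_left (pow_ne_zero _ hv0)
    obtain ⟨e₁, rfl⟩ := dvd_iff_isRoot.2 h2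
    have he₁ : e₁ ≠ 0 := right_ne_zero_of_mul he
    have hd : e₁.natDegree ≤ a := by
      rw [natDegree_mul (X_sub_C_ne_zero x) he₁, natDegree_X_sub_C] at ha
      omega
    rw [add_comm a 1, ev_hom_mul u (natDegree_X_sub_C x).le hd, ev_hom_lin] at h
    exact mul_ne_zero hu (ih e₁ he₁ hd) h

theorem no_root [CharZero 𝕜] {u Bp e d₁ R : 𝕜[X]} {N : ℕ} {x v : 𝕜} (hv0 : v ≠ 0) (hv : ‖v‖ < 1)
    (hB : Bp ≠ 0) (he : e ≠ 0) (hd : d₁.eval x ≠ 0) (hu : u - C x * X = (X - C v) * R)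
    (hR : R.eval v ≠ 0) (hN : (e ^ 2 * ((X - C x) * d₁)).natDegree ≤ 2 * N)
    (Y : PowerSeries 𝕜) (hY : Bd Y) :
    Y ^ 2 ≠ ((Bp ^ 2 * hom u (2 * N) (e ^ 2 * ((X - C x) * d₁)) : 𝕜[X]) : PowerSeries 𝕜) := by
  have hd0 : d₁ ≠ 0 := by
    rintro rfl
    exact hd eval_zero
  have hR0 : R ≠ 0 := by
    rintro rfl
    exact hR eval_zero
  rw [natDegree_mul (pow_ne_zero 2 he) (mul_ne_zero (X_sub_C_ne_zero x) hd0), natDegree_pow,
    natDegree_mul (X_sub_C_ne_zero x) hd0, natDegree_X_sub_C] at hN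
  obtain ⟨m, hm⟩ : ∃ m, 2 * N = e.natDegree + e.natDegree + (1 + m) :=
    ⟨2 * N - 2 * e.natDegree - 1, by omega⟩
  have hdm : d₁.natDegree ≤ m := by omega
  have hx : u.eval v / v = x := by
    have h1 := congrArg (eval v) hu
    simp only [eval_sub, eval_mul, eval_C, eval_X, sub_self, zero_mul] at h1
    rw [div_eq_iff hv0]
    linear_combination h1
  have hne : hom u e.natDegree e ≠ 0 :=
    ev_hom_ne hv0 hx (hu ▸ mul_ne_zero (X_sub_C_ne_zero v) hR0) _ e he le_rfl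
  have h1 : Bp ^ 2 * hom u (2 * N) (e ^ 2 * ((X - C x) * d₁)) =
      (Bp * hom u e.natDegree e) ^ 2 * ((X - C v) * (R * hom u m d₁)) := by
    rw [hm, sq e, ev_hom_mul u natDegree_mul_le
        (natDegree_mul_le.trans (add_le_add (natDegree_X_sub_C x).le hdm)),
      ev_hom_mul u le_rfl le_rfl, ev_hom_mul u (natDegree_X_sub_C x).le hdm, ev_hom_lin, hu]
    ring
  rw [h1]
  refine even_root hv ?_ _ (mul_ne_zero hB hne) Y hY
  rw [eval_mul, hom_eval u hdm hv0, hx]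
  exact mul_ne_zero hR (mul_ne_zero (pow_ne_zero _ hv0) hd)

end

section

/-! The Cauchy transform in the Joukowski coordinate. -/

open Finset PowerSeries
open scoped Polynomial

/-- The Cauchy transform `∑ s j X ^ (j + 1)`. -/
noncomputable def FS {R : Type*} [CommRing R] (s : ℕ → R) : R⟦X⟧ := X * PowerSeries.mk s

/-- The Carathéodory function of `L` on `[c - 2, c + 2]`. -/
noncomputable def GS (L : ℝ[X] →ₗ[ℝ] ℝ) (c : ℝ) : ℝ⟦X⟧ :=
  PowerSeries.mk fun k => if k = 0 then L 1 else L (ch c k)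

/-- `1 + c w + w ^ 2`. -/
noncomputable def yP (c : ℝ) : ℝ[X] := 1 + Polynomial.C c * Polynomial.X + Polynomial.X ^ 2

/-- `w / (1 + c w + w ^ 2)`. -/
noncomputable def XS (c : ℝ) : ℝ⟦X⟧ := X * (yP c : ℝ⟦X⟧)⁻¹

theorem gen_coe_yP (c : ℝ) : (yP c : ℝ⟦X⟧) = 1 + C c * X + X ^ 2 := by
  simp [yP]

theorem gen_const_yP (c : ℝ) : constantCoeff (yP c : ℝ⟦X⟧) = 1 := by
  simp [gen_coe_yP]

theorem yP_mul_XS (c : ℝ) : (yP c : ℝ⟦X⟧) * XS c = X := by
  rw [XS, mul_left_comm, PowerSeries.mul_inv_cancel _ (by rw [gen_const_yP]; exact one_ne_zero),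
    mul_one]

theorem hasSubst_XS (c : ℝ) : HasSubst (XS c) :=
  HasSubst.of_constantCoeff_zero' (by simp [XS])

theorem gen_hom (c : ℝ) : ∃ φ : ℝ⟦X⟧ →+* ℝ⟦X⟧, (∀ f, f.subst (XS c) = φ f) ∧ φ X = XS c ∧
    ∀ a, φ (C a) = C a := by
  refine ⟨(substAlgHom (R := ℝ) (hasSubst_XS c)).toRingHom, fun f => ?_, ?_, fun a => ?_⟩
  · exact (congrFun (coe_substAlgHom (hasSubst_XS c)) f).symm
  · exact substAlgHom_X (hasSubst_XS c)
  · exact (substAlgHom (R := ℝ) (hasSubst_XS c)).commutes a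

theorem coeff_mul_subst (c : ℝ) (u f : ℝ⟦X⟧) (k : ℕ) : coeff k (u * f.subst (XS c)) =
    ∑ l ∈ range (k + 1), coeff l f * coeff k (u * XS c ^ l) := by
  obtain ⟨φ, h1, h2, h3⟩ := gen_hom c
  have hf : f = ∑ l ∈ range (k + 1), C (coeff l f) * X ^ l +
      X ^ (k + 1) * PowerSeries.mk fun i => coeff (i + (k + 1)) f := by
    ext n
    rw [map_add, map_sum, coeff_X_pow_mul']
    simp only [coeff_C_mul, coeff_X_pow, mul_ite, mul_one, mul_zero, sum_ite_eq, mem_range,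
      coeff_mk]
    split_ifs with ha hb hb
    · omega
    · simp
    · rw [Nat.sub_add_cancel hb, zero_add]
    · omega
  rw [h1]
  conv_lhs => rw [hf]
  rw [map_add, map_sum, map_mul φ, map_pow φ, h2, mul_add, map_add, mul_sum, map_sum]
  have h0 : coeff k (u * (XS c ^ (k + 1) * φ (PowerSeries.mk fun i => coeff (i + (k + 1)) f))) = 0 := by
    rw [XS, mul_pow, mul_assoc, mul_left_comm, coeff_X_pow_mul', if_neg (by omega)]
  rw [h0, add_zero]
  refine sum_congr rfl fun l _ => ?_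
  rw [map_mul φ, map_pow φ, h2, h3, mul_left_comm, coeff_C_mul]

theorem coeff_diag (c : ℝ) (u : ℝ⟦X⟧) (k : ℕ) : coeff k (u * XS c ^ k) = constantCoeff u := by
  rw [XS, mul_pow, mul_left_comm, coeff_X_pow_mul', if_pos le_rfl, Nat.sub_self,
    coeff_zero_eq_constantCoeff_apply, map_mul, map_pow, constantCoeff_inv, gen_const_yP]
  simp

theorem gen_mom_pow (t : ℝ) (p : ℝ[X]) : mom (fun j => t ^ j) p = p.eval t := by
  induction p using Polynomial.induction_on' with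
  | add p q hp hq => rw [map_add, hp, hq, Polynomial.eval_add]
  | monomial n a => rw [mom_monomial, Polynomial.eval_monomial]

theorem gen_point (c t : ℝ) : (1 - X ^ 2) * (FS fun j => t ^ j).subst (XS c) =
    X * GS (mom fun j => t ^ j) c := by
  obtain ⟨φ, h1, h2, h3⟩ := gen_hom c
  have e1 : (1 - C t * X) * (FS fun j => t ^ j) = X := by
    have : (1 - C t * X) * PowerSeries.mk (fun j => t ^ j) = 1 := by
      ext n
      rw [sub_mul, one_mul, mul_assoc, map_sub, coeff_C_mul]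
      cases n with
      | zero => simp
      | succ n => rw [coeff_succ_X_mul]; simp [pow_succ', coeff_one]
    rw [FS, mul_left_comm, this, mul_one]
  have e2 : (1 - C t * XS c) * φ (FS fun j => t ^ j) = XS c := by
    have := congrArg φ e1
    rwa [map_mul, map_sub, map_one, map_mul, h2, h3] at this
  have e3 : ((yP c : ℝ⟦X⟧) - C t * X) * φ (FS fun j => t ^ j) = X := by
    have hy := yP_mul_XS c
    linear_combination (yP c : ℝ⟦X⟧) * e2 + (1 + C t * φ (FS fun j => t ^ j)) * hy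
  have e4 : ((yP c : ℝ⟦X⟧) - C t * X) * GS (mom fun j => t ^ j) c = 1 - X ^ 2 := by
    have hs : ∀ g : ℝ⟦X⟧, ((yP c : ℝ⟦X⟧) - C t * X) * g =
        g + C (c - t) * (X * g) + X * (X * g) := fun g => by
      rw [gen_coe_yP, map_sub]; ring
    ext n
    rw [hs, map_add, map_add, coeff_C_mul, map_sub, coeff_one, coeff_X_pow]
    rcases n with _ | _ | _ | n
    · simp [GS, gen_mom_pow]
    · simp [GS, gen_mom_pow, coeff_succ_X_mul]
    · have := congrArg (Polynomial.eval t) (ch_add_two c 0)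
      simp [GS, gen_mom_pow, coeff_succ_X_mul] at this ⊢
      linear_combination this
    · have := congrArg (Polynomial.eval t) (ch_add_two c (n + 1))
      simp only [coeff_succ_X_mul, GS, gen_mom_pow, coeff_mk, Polynomial.eval_sub,
        Polynomial.eval_mul, Polynomial.eval_X, Polynomial.eval_C] at this ⊢
      rw [if_neg (by omega), if_neg (by omega), if_neg (by omega), if_neg (by omega),
        if_neg (by omega)]
      push_cast
      rw [show (n : ℤ) + 1 + 1 + 1 = n + 1 + 2 by ring, this, show (n : ℤ) + 2 = n + 1 + 1 by ring]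
      ring
  have hne : (yP c : ℝ⟦X⟧) - C t * X ≠ 0 := fun h => by
    have := congrArg constantCoeff h
    simp [yP] at this
  rw [h1]
  refine mul_left_cancel₀ hne ?_
  linear_combination (1 - X ^ 2) * e3 - X * e4

theorem gen (s : ℕ → ℝ) (c : ℝ) : (1 - X ^ 2) * (FS s).subst (XS c) = X * GS (mom s) c := by
  ext k
  let P : ℕ → ℝ[X] := fun l => if l = 0 then 0 else Polynomial.X ^ (l - 1)
  let Q : ℝ[X] := ∑ l ∈ range (k + 1), coeff k ((1 - X ^ 2) * XS c ^ l) • P l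
  let R : ℝ[X] := if k = 0 then 0 else if k - 1 = 0 then 1 else ch c (k - 1 : ℕ)
  have hL : ∀ s : ℕ → ℝ, coeff k ((1 - X ^ 2) * (FS s).subst (XS c)) = mom s Q := fun s => by
    rw [coeff_mul_subst, map_sum]
    refine sum_congr rfl fun l _ => ?_
    rw [map_smul, smul_eq_mul, mul_comm]
    congr 1
    cases l with
    | zero => simp [FS, P]
    | succ l => simp [FS, P, coeff_succ_X_mul]
  have hR : ∀ s : ℕ → ℝ, coeff k (X * GS (mom s) c) = mom s R := fun s => by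
    cases k with
    | zero => simp [R]
    | succ k =>
      simp only [coeff_succ_X_mul, GS, coeff_mk, R, Nat.add_sub_cancel, Nat.succ_ne_zero,
        if_false]
      split_ifs <;> rfl
  have hQ : Q = R := Polynomial.funext fun t => by
    rw [← gen_mom_pow, ← gen_mom_pow, ← hL, ← hR, gen_point]
  rw [hL, hR, hQ]

theorem gen_coe_hom (u : ℝ[X]) (N : ℕ) (a : ℝ[X]) : ((hom u N a : ℝ[X]) : ℝ⟦X⟧) =
    ∑ i ∈ range (N + 1), C (a.coeff i) * (u : ℝ⟦X⟧) ^ i * X ^ (N - i) := by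
  rw [hom, ← Polynomial.coeToPowerSeries.ringHom_apply, map_sum]
  simp

theorem hom_subst (c : ℝ) (N : ℕ) (a : ℝ[X]) :
    (yP c : ℝ⟦X⟧) ^ N * ((hom 1 N a : ℝ[X]) : ℝ⟦X⟧).subst (XS c) =
      ((hom (yP c) N a : ℝ[X]) : ℝ⟦X⟧) := by
  obtain ⟨φ, h1, h2, h3⟩ := gen_hom c
  rw [h1, gen_coe_hom, gen_coe_hom, map_sum, mul_sum]
  refine sum_congr rfl fun i hi => ?_
  obtain ⟨j, rfl⟩ := Nat.exists_eq_add_of_le (Nat.lt_succ_iff.1 (mem_range.1 hi))
  rw [Nat.add_sub_cancel_left, Polynomial.coe_one, one_pow, mul_one, map_mul, map_pow, h2, h3,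
    ← yP_mul_XS c]
  ring

theorem rel_w {s : ℕ → ℝ} (c : ℝ) {N : ℕ} {a₀ a₁ a₂ : ℝ[X]}
    (h : ((hom 1 N a₀ : ℝ[X]) : ℝ⟦X⟧) + ((hom 1 N a₁ : ℝ[X]) : ℝ⟦X⟧) * FS s +
      ((hom 1 N a₂ : ℝ[X]) : ℝ⟦X⟧) * FS s ^ 2 = 0) :
    ((hom (yP c) N a₀ : ℝ[X]) : ℝ⟦X⟧) * (1 - X ^ 2) ^ 2 +
      ((hom (yP c) N a₁ : ℝ[X]) : ℝ⟦X⟧) * (1 - X ^ 2) * (X * GS (mom s) c) +
      ((hom (yP c) N a₂ : ℝ[X]) : ℝ⟦X⟧) * (X * GS (mom s) c) ^ 2 = 0 := by
  obtain ⟨φ, h1, -, -⟩ := gen_hom c
  have := congrArg φ h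
  rw [map_add, map_add, map_mul, map_mul, map_pow, map_zero] at this
  rw [← hom_subst, ← hom_subst, ← hom_subst, ← gen, h1, h1, h1, h1]
  linear_combination (yP c : ℝ⟦X⟧) ^ N * (1 - X ^ 2) ^ 2 * this

theorem abs_coeff_GS {L : ℝ[X] →ₗ[ℝ] ℝ} {c : ℝ} (h : Pos L (Set.Icc (c - 2) (c + 2))) (k : ℕ) :
    |coeff k (GS L c)| ≤ 2 * L 1 := by
  rw [GS, coeff_mk]
  split_ifs
  · rw [abs_of_nonneg h.one]; linarith [h.one]
  · exact h.abs_le' fun x hx => abs_ch_le hx k

theorem psd_GS {L : ℝ[X] →ₗ[ℝ] ℝ} {c : ℝ} (h : Pos L (Set.Icc (c - 2) (c + 2))) (v : ℝ⟦X⟧)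
    (n : ℕ) : 0 ≤ ∑ k ∈ range n, coeff k (GS L c * v) * coeff k v := by
  let R : ℕ → ℝ[X] := fun i => if i = 0 then 1 else ch c i
  have hG : ∀ i, coeff i (GS L c) = L (R i) := fun i => by
    simp only [GS, coeff_mk, R]; split_ifs <;> rfl
  have e : ∑ k ∈ range n, coeff k (GS L c * v) * coeff k v =
      L (∑ k ∈ range n, coeff k v • ∑ j ∈ range (k + 1), coeff j v • R (k - j)) := by
    rw [map_sum]
    refine sum_congr rfl fun k _ => ?_
    rw [map_smul, smul_eq_mul, mul_comm, mul_comm (GS L c), coeff_mul,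
      Nat.sum_antidiagonal_eq_sum_range_succ (fun i j => coeff i v * coeff j (GS L c)), map_sum]
    simp only [hG, map_smul, smul_eq_mul]
  rw [e]
  refine h _ fun x hx => ?_
  obtain ⟨θ, -, rfl⟩ := exists_cos hx
  have key : Polynomial.eval (c + 2 * Real.cos θ)
      (∑ k ∈ range n, coeff k v • ∑ j ∈ range (k + 1), coeff j v • R (k - j)) =
      (∑ j ∈ range n, coeff j v * Real.cos (j * θ)) ^ 2 +
        (∑ j ∈ range n, coeff j v * Real.sin (j * θ)) ^ 2 := by
    clear e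
    induction n with
    | zero => simp
    | succ n ih =>
      rw [sum_range_succ, Polynomial.eval_add, ih, sum_range_succ, sum_range_succ, sum_range_succ,
        Polynomial.eval_smul, Polynomial.eval_add, Polynomial.eval_smul, Polynomial.eval_finsetSum]
      have e2 : ∑ j ∈ range n, Polynomial.eval (c + 2 * Real.cos θ) (coeff j v • R (n - j)) =
          2 * (Real.cos (n * θ) * ∑ j ∈ range n, coeff j v * Real.cos (j * θ) +
            Real.sin (n * θ) * ∑ j ∈ range n, coeff j v * Real.sin (j * θ)) := by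
        rw [mul_sum, mul_sum, ← sum_add_distrib, mul_sum]
        refine sum_congr rfl fun j hj => ?_
        have hj' := mem_range.1 hj
        simp only [R]
        rw [if_neg (by omega), Polynomial.eval_smul, ch_eval, Int.cast_natCast,
          Nat.cast_sub hj'.le, sub_mul, Real.cos_sub, smul_eq_mul]
        ring
      rw [e2]
      simp only [R, Nat.sub_self, if_true, Polynomial.eval_one, smul_eq_mul]
      linear_combination (-(coeff n v) ^ 2) * Real.cos_sq_add_sin_sq (n * θ)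
  rw [key]
  positivity

/-- Square summable coefficients. -/
def SQ (f : ℝ⟦X⟧) : Prop := Summable fun k => coeff k f ^ 2

theorem sq_coe (p : ℝ[X]) : SQ (p : ℝ⟦X⟧) := by
  refine summable_of_ne_finset_zero (s := p.support) fun k hk => ?_
  rw [Polynomial.coeff_coe, Polynomial.notMem_support_iff.1 hk]
  simp

theorem SQ.sub {f g : ℝ⟦X⟧} (hf : SQ f) (hg : SQ g) : SQ (f - g) := by
  refine Summable.of_nonneg_of_le (fun k => sq_nonneg _) (fun k => ?_)
    ((hf.mul_left 2).add (hg.mul_left 2))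
  rw [map_sub]
  nlinarith [sq_nonneg (coeff k f + coeff k g)]

theorem SQ.inv_mul {L : ℝ[X] →ₗ[ℝ] ℝ} {c : ℝ} (h : Pos L (Set.Icc (c - 2) (c + 2))) {u : ℝ⟦X⟧}
    (hu : SQ u) : SQ ((1 + GS L c)⁻¹ * u) := by
  have h0 : constantCoeff (1 + GS L c) ≠ 0 := by
    have : constantCoeff (GS L c) = L 1 := by
      rw [← coeff_zero_eq_constantCoeff_apply, GS, coeff_mk, if_pos rfl]
    rw [map_add, map_one, this]
    linarith [h.one]
  set v := (1 + GS L c)⁻¹ * u with hv
  have e : u = v + GS L c * v := by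
    have := PowerSeries.mul_inv_cancel _ h0
    rw [hv]
    linear_combination (-u) * this
  refine summable_of_sum_range_le (c := ∑' k, coeff k u ^ 2) (fun k => sq_nonneg _) fun n => ?_
  have h1 := psd_GS h v n
  have h2 : ∑ k ∈ range n, coeff k u ^ 2 ≤ ∑' k, coeff k u ^ 2 :=
    hu.sum_le_tsum _ fun k _ => sq_nonneg _
  have h3 : ∑ k ∈ range n, (coeff k v ^ 2 + 2 * (coeff k (GS L c * v) * coeff k v)) ≤
      ∑ k ∈ range n, coeff k u ^ 2 := by
    refine sum_le_sum fun k _ => ?_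
    have : coeff k u = coeff k v + coeff k (GS L c * v) := by rw [← map_add, ← e]
    rw [this]
    nlinarith [sq_nonneg (coeff k (GS L c * v))]
  rw [sum_add_distrib, ← mul_sum] at h3
  linarith

theorem gen_pal (c : ℝ) (k : ℕ) : ∃ q r : ℝ[X], q.Monic ∧ q.natDegree = k ∧ r.Monic ∧
    r.natDegree = k + 1 ∧ ∀ z : ℝ, z ≠ 0 →
      (1 - z ^ 2) * (z ^ k * q.eval (c + z + z⁻¹)) = 1 - z ^ (2 * k + 2) ∧
      (1 - z ^ 2) * (z ^ (k + 1) * r.eval (c + z + z⁻¹)) = 1 - z ^ (2 * (k + 1) + 2) := by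
  induction k with
  | zero =>
    refine ⟨1, Polynomial.X - Polynomial.C c, Polynomial.monic_one, Polynomial.natDegree_one,
      Polynomial.monic_X_sub_C c, Polynomial.natDegree_X_sub_C c, fun z hz => ⟨by simp, ?_⟩⟩
    simp only [Polynomial.eval_sub, Polynomial.eval_X, Polynomial.eval_C]
    field_simp
    ring
  | succ k ih =>
    obtain ⟨q, r, hq, hqd, hr, hrd, he⟩ := ih
    have hm := (Polynomial.monic_X_sub_C c).mul hr
    have hd : ((Polynomial.X - Polynomial.C c) * r).natDegree = k + 1 + 1 := by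
      rw [(Polynomial.monic_X_sub_C c).natDegree_mul hr, Polynomial.natDegree_X_sub_C, hrd]; ring
    have hl : q.natDegree < ((Polynomial.X - Polynomial.C c) * r).natDegree := by
      rw [hd, hqd]; omega
    refine ⟨r, (Polynomial.X - Polynomial.C c) * r - q, hr, hrd,
      hm.sub_of_left (Polynomial.degree_lt_degree hl),
      by rw [Polynomial.natDegree_sub_eq_left_of_natDegree_lt hl, hd],
      fun z hz => ⟨(he z hz).2, ?_⟩⟩
    obtain ⟨e1, e2⟩ := he z hz
    have e3 : z * z⁻¹ = 1 := mul_inv_cancel₀ hz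
    simp only [Polynomial.eval_sub, Polynomial.eval_mul, Polynomial.eval_X, Polynomial.eval_C]
    linear_combination (z ^ 2 + 1) * e2 - z ^ 2 * e1 +
      (1 - z ^ 2) * z ^ (k + 1) * r.eval (c + z + z⁻¹) * e3

theorem exists_pal (c : ℝ) (k : ℕ) : ∃ q : ℝ[X], q.Monic ∧ q.natDegree = k ∧
    (1 - Polynomial.X ^ 2) * hom (yP c) k q = 1 - Polynomial.X ^ (2 * k + 2) := by
  obtain ⟨q, r, hq, hd, -, -, he⟩ := gen_pal c k
  refine ⟨q, hq, hd, eq_of_eval_ne_zero fun z hz => ?_⟩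
  have e : (yP c).eval z / z = c + z + z⁻¹ := by
    simp only [yP, Polynomial.eval_add, Polynomial.eval_mul, Polynomial.eval_pow,
      Polynomial.eval_one, Polynomial.eval_C, Polynomial.eval_X]
    field_simp
    ring
  rw [Polynomial.eval_mul, hom_eval _ hd.le hz, e]
  simpa using (he z hz).1

end

end Pool.Agent.MP_108ce6_nt.Rig

end

-- part MP_108ce6_nt.Rig.Det
section

namespace Pool.Agent.MP_108ce6_nt.Rig

section

/-! Minimal nonzero minors, triangular column operations and Hadamard's inequality. -/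

open Finset Matrix

variable {ι : Type} [Fintype ι] [DecidableEq ι]

theorem minor_span (f : ι → ℕ → ℚ) (hf : LinearIndependent ℚ f) :
    Submodule.span ℚ (Set.range fun k a => f a k) = ⊤ := by
  by_contra h
  obtain ⟨φ, hφ0, hφ⟩ := Submodule.exists_le_ker_of_lt_top _ (lt_top_iff_ne_top.2 h)
  have hrep : ∀ v : ι → ℚ, φ v = ∑ a, φ (Pi.single a 1) * v a := fun v => by
    conv_lhs => rw [← Finset.univ_sum_single v]
    rw [map_sum]
    refine sum_congr rfl fun a _ => ?_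
    rw [mul_comm, ← smul_eq_mul, ← map_smul, ← Pi.single_smul', smul_eq_mul, mul_one]
  have h0 := Fintype.linearIndependent_iff.1 hf (fun a => φ (Pi.single a 1)) (by
    funext k
    have := hφ (Submodule.subset_span ⟨k, rfl⟩)
    rw [LinearMap.mem_ker, hrep] at this
    simpa [Finset.sum_apply] using this)
  exact hφ0 (LinearMap.ext fun v => by rw [hrep]; simp [h0])

theorem minor_exists (f : ι → ℕ → ℚ) (hf : LinearIndependent ℚ f) :
    ∃ κ : ι → ℕ, (of fun a b => f a (κ b)).det ≠ 0 := by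
  obtain ⟨J, j, -, hs, hl⟩ := exists_linearIndependent' ℚ (fun k a => f a k)
  rw [minor_span f hf] at hs
  let e : ι ≃ J := (Pi.basisFun ℚ ι).indexEquiv (Module.Basis.mk hl hs.ge)
  refine ⟨j ∘ e, ?_⟩
  have h : LinearIndependent ℚ (of fun a b => f a ((j ∘ e) b)).col := hl.comp e e.injective
  exact ((isUnit_iff_isUnit_det _).1 (linearIndependent_cols_iff_isUnit.1 h)).ne_zero

theorem exists_min_minor (f : ι → ℕ → ℚ) (hf : LinearIndependent ℚ f) :
    ∃ κ : ι → ℕ, (of fun a b => f a (κ b)).det ≠ 0 ∧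
      ∀ κ' : ι → ℕ, ∑ b, κ' b < ∑ b, κ b → (of fun a b => f a (κ' b)).det = 0 := by
  classical
  have h : ∃ n, ∃ κ : ι → ℕ, (of fun a b => f a (κ b)).det ≠ 0 ∧ ∑ b, κ b = n := by
    obtain ⟨κ, hκ⟩ := minor_exists f hf
    exact ⟨_, κ, hκ, rfl⟩
  obtain ⟨κ, h1, h2⟩ := Nat.find_spec h
  refine ⟨κ, h1, fun κ' hκ' => ?_⟩
  by_contra h3
  exact Nat.find_min h (h2 ▸ hκ') ⟨κ', h3, rfl⟩

theorem det_tri (f : ι → ℕ → ℝ) (κ : ι → ℕ)
    (hmin : ∀ κ' : ι → ℕ, ∑ b, κ' b < ∑ b, κ b → (of fun a b => f a (κ' b)).det = 0)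
    (φ : ℕ → ℕ → ℝ) (u : ℝ) (hφ : ∀ k, φ k k = u) :
    (of fun a b => ∑ l ∈ range (κ b + 1), f a l * φ (κ b) l).det =
      u ^ Fintype.card ι * (of fun a b => f a (κ b)).det := by
  have hd : ∀ r : ι → ℕ, (of fun a b => f a (r b)).det =
      (detRowAlternating (n := ι) (R := ℝ)).toMultilinearMap fun b a => f a (r b) := fun r => by
    rw [← det_transpose]; rfl
  have e1 : (of fun a b => ∑ l ∈ range (κ b + 1), f a l * φ (κ b) l).det =
      (detRowAlternating (n := ι) (R := ℝ)).toMultilinearMap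
        fun b => ∑ l ∈ range (κ b + 1), φ (κ b) l • fun a => f a l := by
    rw [← det_transpose]
    change (detRowAlternating (n := ι) (R := ℝ)).toMultilinearMap _ = _
    congr 1
    funext b a
    simp [Finset.sum_apply, mul_comm]
  rw [e1, MultilinearMap.map_sum_finset, sum_eq_single κ]
  · rw [MultilinearMap.map_smul_univ, hd]
    simp [hφ]
  · intro r hr hne
    rw [MultilinearMap.map_smul_univ, ← hd, hmin r, smul_zero]
    have hle : ∀ b, r b ≤ κ b := fun b =>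
      Nat.lt_succ_iff.1 (mem_range.1 (Fintype.mem_piFinset.1 hr b))
    obtain ⟨b, hb⟩ := Function.ne_iff.1 hne
    exact sum_lt_sum (fun b _ => hle b) ⟨b, mem_univ _, lt_of_le_of_ne (hle b) hb⟩
  · intro h
    exact absurd (Fintype.mem_piFinset.2 fun b => mem_range.2 (Nat.lt_succ_self _)) h

theorem minor_had {n : ℕ} (M : Matrix (Fin n) (Fin n) ℝ) : M.det ^ 2 ≤ ∏ b, ∑ a, M a b ^ 2 := by
  have : Fact (Module.finrank ℝ (EuclideanSpace ℝ (Fin n)) = n) := ⟨by simp⟩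
  let e := EuclideanSpace.basisFun (Fin n) ℝ
  let v : Fin n → EuclideanSpace ℝ (Fin n) := fun b => WithLp.toLp 2 fun a => M a b
  have h := e.toBasis.orientation.abs_volumeForm_apply_le v
  rw [e.toBasis.orientation.volumeForm_robust' e] at h
  have h1 : e.toBasis.det v = M.det := by
    rw [Module.Basis.det_apply]
    congr 1
  rw [h1] at h
  rw [← sq_abs]
  refine (pow_le_pow_left₀ (abs_nonneg _) h 2).trans (le_of_eq ?_)
  rw [← prod_pow]
  refine prod_congr rfl fun b _ => ?_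
  rw [EuclideanSpace.norm_sq_eq]
  simp [v]

theorem hadamard (M : Matrix ι ι ℝ) : M.det ^ 2 ≤ ∏ b, ∑ a, M a b ^ 2 := by
  let e := (Fintype.equivFin ι).symm
  have h := minor_had (M.submatrix e e)
  rw [det_submatrix_equiv_self] at h
  refine h.trans (le_of_eq ?_)
  rw [← e.prod_comp]
  exact prod_congr rfl fun b _ => e.sum_comp fun a => M a (e b) ^ 2

theorem prod_small {A η : ℝ} (hA : 1 ≤ A) (hη : 0 < η) (hη1 : η ≤ 1) :
    ∃ ε : ℝ, 0 < ε ∧ ∀ K : ℕ, ∃ n : ℕ, 0 < n ∧ ∀ (κ : Fin n × Fin 3 → ℕ) (col : Fin n × Fin 3 → ℝ),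
      Function.Injective κ → (∀ b, 0 ≤ col b ∧ col b ≤ A) → (∀ b, 2 * n + K ≤ κ b → col b ≤ ε) →
      ∏ b, col b < η ^ n := by
  have hA0 : 0 < A := by linarith
  obtain ⟨ε, hε⟩ : ∃ ε : ℝ, ε = η / (2 * A ^ 2) := ⟨_, rfl⟩
  have hε0 : 0 < ε := by rw [hε]; positivity
  have hAε : A ^ 2 * ε = η / 2 := by rw [hε]; field_simp
  have hq : 1 ≤ A / ε := by
    rw [one_le_div hε0]
    nlinarith [mul_le_mul_of_nonneg_right (one_le_pow₀ (n := 2) hA) hε0.le]
  refine ⟨ε, hε0, fun K => ?_⟩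
  obtain ⟨m, hm⟩ := pow_unbounded_of_one_lt ((A / ε) ^ K) (one_lt_two (α := ℝ))
  refine ⟨m + 1, Nat.succ_pos _, fun κ col hκ h1 h2 => ?_⟩
  have hm' : (A / ε) ^ K < 2 ^ (m + 1) := hm.trans (pow_lt_pow_right₀ one_lt_two (by omega))
  generalize m + 1 = n at *
  have hc : #{b | κ b < 2 * n + K} ≤ 2 * n + K := by
    rw [← card_image_of_injective _ hκ]
    refine (card_le_card (t := range (2 * n + K)) fun x hx => ?_).trans (card_range _).le
    obtain ⟨b, hb, rfl⟩ := mem_image.1 hx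
    exact mem_range.2 (mem_filter.1 hb).2
  calc ∏ b, col b ≤ ∏ b, ε * if κ b < 2 * n + K then A / ε else 1 := by
        refine prod_le_prod (fun b _ => (h1 b).1) fun b _ => ?_
        split_ifs with h
        · rw [mul_div_cancel₀ _ hε0.ne']; exact (h1 b).2
        · rw [mul_one]; exact h2 b (by omega)
    _ = ε ^ (n * 3) * (A / ε) ^ #{b | κ b < 2 * n + K} := by
        rw [prod_mul_distrib, prod_const, prod_ite, prod_const, prod_const_one, mul_one]
        simp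
    _ ≤ ε ^ (n * 3) * (A / ε) ^ (2 * n + K) := by gcongr
    _ = (A / ε) ^ K * (η / 2) ^ n := by
        rw [← hAε, pow_add, mul_comm n 3, pow_mul, pow_mul, ← mul_assoc, ← mul_pow, mul_comm]
        congr 2
        field_simp
    _ < 2 ^ n * (η / 2) ^ n := by gcongr
    _ = η ^ n := by rw [← mul_pow]; congr 1; ring

theorem det_rowop {n : ℕ} (β : Fin n → Fin n → ℝ) (h1 : ∀ k, β k k = 1)
    (h0 : ∀ k l, k < l → β k l = 0) (M : Matrix (Fin n × Fin 3) (Fin n × Fin 3) ℝ) :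
    (of fun (a b : Fin n × Fin 3) => ∑ l, β a.1 l * M (l, a.2) b).det = M.det := by
  have e : (of fun (a b : Fin n × Fin 3) => ∑ l, β a.1 l * M (l, a.2) b) =
      kroneckerMap (· * ·) (of β) (1 : Matrix (Fin 3) (Fin 3) ℝ) * M := by
    ext a b
    simp [mul_apply, Fintype.sum_prod_type, one_apply]
  have hb : (of β).det = 1 := by
    rw [det_of_isLowerTriangular (of β) fun k l h => h0 k l h]
    simp [h1]
  rw [e, det_mul, det_kronecker, hb]
  simp

end

section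

/-! The Cauchy transform of an integral positive functional on an interval of length four is
algebraic of degree at most two. -/

open Finset PowerSeries Filter Topology
open scoped Polynomial

theorem shift_sum_le {γ : ℝ⟦X⟧} (hγ : SQ γ) {n : ℕ} (t : Fin n → ℕ) (ht : Function.Injective t)
    (κ K : ℕ) (hK : ∀ k, t k ≤ κ → t k + K ≤ κ) :
    ∑ k, coeff κ (X ^ t k * γ) ^ 2 ≤ ∑' i, coeff (i + K) γ ^ 2 := by
  have hs : Summable fun i => coeff (i + K) γ ^ 2 := (summable_nat_add_iff K).2 hγ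
  have e : ∑ k, coeff κ (X ^ t k * γ) ^ 2 =
      ∑ k with t k ≤ κ, coeff (κ - t k - K + K) γ ^ 2 := by
    rw [sum_filter]
    refine sum_congr rfl fun k _ => ?_
    rw [coeff_X_pow_mul']
    split_ifs with h
    · have := hK k h
      rw [show κ - t k - K + K = κ - t k by omega]
    · simp
  rw [e, ← sum_image (s := univ.filter fun k => t k ≤ κ) (g := fun k => κ - t k - K)
    (f := fun i => coeff (i + K) γ ^ 2)]
  · exact hs.sum_le_tsum _ fun _ _ => sq_nonneg _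
  · intro a ha b hb hab
    have ha' := hK a (mem_filter.1 ha).2
    have hb' := hK b (mem_filter.1 hb).2
    simp only at hab
    exact ht (by omega)

theorem col_le {γ : Fin 3 → ℝ⟦X⟧} (hγ : ∀ j, SQ (γ j)) (n κ K : ℕ) (hK : K = 0 ∨ 2 * n + K ≤ κ) :
    ∑ a : Fin n × Fin 3, coeff κ (X ^ (n - 1 - a.1) * (1 - X ^ (2 * (a.1 : ℕ) + 2)) * γ a.2) ^ 2 ≤
      4 * ∑ j, ∑' i, coeff (i + K) (γ j) ^ 2 := by
  rw [Fintype.sum_prod_type_right, mul_sum]
  refine sum_le_sum fun j _ => ?_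
  have h1 := shift_sum_le (hγ j) (fun k : Fin n => n - 1 - k) (fun a b h => by
    have := a.2; have := b.2; simp only at h; exact Fin.ext (by omega)) κ K fun k h => by omega
  have h2 := shift_sum_le (hγ j) (fun k : Fin n => n + 1 + k) (fun a b h => by
    simp only at h; exact Fin.ext (by omega)) κ K fun k h => by have := k.2; omega
  refine le_trans (sum_le_sum (g := fun k : Fin n => 2 * coeff κ (X ^ (n - 1 - k) * γ j) ^ 2 +
    2 * coeff κ (X ^ (n + 1 + k) * γ j) ^ 2) fun k _ => ?_) ?_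
  · have e : (X : ℝ⟦X⟧) ^ (n - 1 - k) * (1 - X ^ (2 * (k : ℕ) + 2)) * γ j =
        X ^ (n - 1 - k) * γ j - X ^ (n + 1 + k) * γ j := by
      rw [show n + 1 + k = (n - 1 - k) + (2 * k + 2) by have := k.2; omega, pow_add]; ring
    simp only [e, map_sub]
    nlinarith [sq_nonneg (coeff κ (X ^ (n - 1 - k) * γ j) + coeff κ (X ^ (n + 1 + k) * γ j))]
  · rw [sum_add_distrib, ← mul_sum, ← mul_sum]; linarith

theorem coe_hom_one {R : Type*} [CommRing R] {n : ℕ} (hn : 0 < n) (q : R[X]) :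
    ((hom 1 (n - 1) q : R[X]) : R⟦X⟧) = ∑ l : Fin n, q.coeff l • X ^ (n - 1 - l) := by
  rw [hom, show n - 1 + 1 = n by omega, ← Fin.sum_univ_eq_sum_range
    (fun i => Polynomial.C (q.coeff i) * 1 ^ i * Polynomial.X ^ (n - 1 - i)),
    ← Polynomial.coeToPowerSeries.ringHom_apply, map_sum]
  refine sum_congr rfl fun l _ => ?_
  simp [smul_eq_C_mul]

theorem hom_shift (u : ℝ[X]) {N k : ℕ} (hk : k ≤ N) {q : ℝ[X]} (hq : q.natDegree ≤ k) :
    hom u N q = Polynomial.X ^ (N - k) * hom u k q := by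
  refine eq_of_eval_ne_zero fun z hz => ?_
  rw [Polynomial.eval_mul, hom_eval u hq hz, hom_eval u (hq.trans hk) hz, Polynomial.eval_pow,
    Polynomial.eval_X, ← mul_assoc, ← pow_add, Nat.sub_add_cancel hk]

theorem map_row {R : Type*} [CommRing R] (s : ℕ → ℤ) (i j k : ℕ) :
    coeff k (X ^ i * FS (fun n => (s n : R)) ^ j) = ((coeff k (X ^ i * FS s ^ j) : ℤ) : R) := by
  have e : FS (fun n => (s n : R)) = (FS s).map (Int.castRingHom R) := by
    rw [FS, FS, map_mul, map_X]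
    congr 1
  rw [e, ← map_pow, ← map_X (Int.castRingHom R), ← map_pow, ← map_mul, coeff_map]
  rfl

theorem dep (s : ℕ → ℤ) (c : ℝ) (hpos : Pos (mom fun n => (s n : ℝ)) (Set.Icc (c - 2) (c + 2))) :
    ∃ (N : ℕ) (a₀ a₁ a₂ : ℚ[X]), a₀.natDegree ≤ N ∧ a₁.natDegree ≤ N ∧ a₂.natDegree ≤ N ∧
      ¬ (a₀ = 0 ∧ a₁ = 0 ∧ a₂ = 0) ∧
      ((hom 1 N a₀ : ℚ[X]) : ℚ⟦X⟧) + ((hom 1 N a₁ : ℚ[X]) : ℚ⟦X⟧) * FS (fun n => (s n : ℚ)) +
        ((hom 1 N a₂ : ℚ[X]) : ℚ⟦X⟧) * FS (fun n => (s n : ℚ)) ^ 2 = 0 := by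
  by_contra hcon
  set L := mom fun n => (s n : ℝ) with hL
  set G := GS L c with hG
  set h := (1 + G)⁻¹ with hh
  set F := (FS fun n => (s n : ℝ)).subst (XS c) with hF
  have hL1 : 0 ≤ L 1 := hpos.one
  have hG0 : constantCoeff (1 + G) = 1 + L 1 := by
    rw [map_add, map_one, ← coeff_zero_eq_constantCoeff_apply, hG, GS, coeff_mk, if_pos rfl]
  have hhG : h * G = 1 - h := by
    have := PowerSeries.inv_mul_cancel (1 + G) (by rw [hG0]; positivity)
    rw [← this]; ring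
  have hgen : (1 - X ^ 2) * F = X * G := gen _ c
  set γ : Fin 3 → ℝ⟦X⟧ := fun j => (1 - X ^ 2) ^ 2 * h ^ 2 * F ^ (j : ℕ) with hγ
  have hp : ∀ p : ℝ[X], SQ (h * p) := fun p => (sq_coe p).inv_mul hpos
  have hpp : ∀ p : ℝ[X], SQ (h * (h * p)) := fun p => (hp p).inv_mul hpos
  have hsq : ∀ j, SQ (γ j) := fun j => by
    fin_cases j
    · convert hpp ((1 - Polynomial.X ^ 2) ^ 2) using 1
      simp only [hγ]; push_cast; ring
    · convert (hp ((1 - Polynomial.X ^ 2) * Polynomial.X)).sub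
        (hpp ((1 - Polynomial.X ^ 2) * Polynomial.X)) using 1
      simp only [hγ]; push_cast
      linear_combination ((1 - X ^ 2) * h ^ 2) * hgen + ((1 - X ^ 2) * X * h) * hhG
    · convert ((sq_coe (Polynomial.X ^ 2)).sub (hp (Polynomial.X ^ 2))).sub
        ((hp (Polynomial.X ^ 2)).sub (hpp (Polynomial.X ^ 2))) using 1
      simp only [hγ]; push_cast
      linear_combination (h ^ 2 * ((1 - X ^ 2) * F + X * G)) * hgen +
        (X ^ 2 * (h * G + 1 - h)) * hhG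
  set u0 : ℝ := (1 + L 1)⁻¹ ^ 2 with hu0
  have hu0p : 0 < u0 := by positivity
  have hu01 : u0 ≤ 1 := pow_le_one₀ (by positivity) (inv_le_one_of_one_le₀ (by linarith))
  have hT : ∀ K, 0 ≤ 4 * ∑ j, ∑' i, coeff (i + K) (γ j) ^ 2 := fun K =>
    mul_nonneg (by norm_num) (sum_nonneg fun j _ => tsum_nonneg fun _ => sq_nonneg _)
  obtain ⟨ε, hε, hprod⟩ := prod_small (A := 4 * ∑ j, ∑' i, coeff (i + 0) (γ j) ^ 2 + 1)
    (η := u0 ^ 6) (by linarith [hT 0]) (by positivity) (pow_le_one₀ hu0p.le hu01)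
  have hlim : Tendsto (fun K => 4 * ∑ j, ∑' i, coeff (i + K) (γ j) ^ 2) atTop (𝓝 0) := by
    have := (tendsto_finsetSum univ fun j _ =>
      tendsto_sum_nat_add fun i => coeff i (γ j) ^ 2).const_mul 4
    simpa using this
  obtain ⟨K, hK⟩ := (hlim.eventually (ge_mem_nhds hε)).exists
  obtain ⟨n, hn, hprod⟩ := hprod K
  set fz : Fin n × Fin 3 → ℕ → ℤ := fun a k => coeff k (X ^ (n - 1 - a.1) * FS s ^ (a.2 : ℕ))
    with hfz
  have hli : LinearIndependent ℚ fun a k => (fz a k : ℚ) := by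
    refine Fintype.linearIndependent_iff.2 fun g hg => ?_
    set a : Fin 3 → ℚ[X] := fun j => ∑ k : Fin n, Polynomial.monomial k (g (k, j)) with ha
    have hco : ∀ j (k : Fin n), (a j).coeff k = g (k, j) := fun j k => by
      simp only [ha, Polynomial.finsetSum_coeff, Polynomial.coeff_monomial, Fin.val_inj]
      simp
    have hd : ∀ j, (a j).natDegree ≤ n - 1 := fun j =>
      Polynomial.natDegree_sum_le_of_forall_le _ _ fun k _ =>
        (Polynomial.natDegree_monomial_le _).trans (by have := k.2; omega)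
    have h0 : a 0 = 0 ∧ a 1 = 0 ∧ a 2 = 0 := by
      by_contra h0
      refine hcon ⟨n - 1, a 0, a 1, a 2, hd 0, hd 1, hd 2, h0, ?_⟩
      ext k
      have := congrFun hg k
      simp only [Finset.sum_apply, Pi.smul_apply, smul_eq_mul, Pi.zero_apply, hfz, ← map_row,
        Fintype.sum_prod_type_right, Fin.sum_univ_three] at this
      simp only [coe_hom_one hn, hco, sum_mul, map_add, map_sum, smul_mul_assoc, coeff_smul,
        smul_eq_mul, map_zero]
      simpa using this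
    rintro ⟨k, j⟩
    rw [← hco]
    fin_cases j <;> simp [h0.1, h0.2.1, h0.2.2]
  obtain ⟨κ, hκ, hmin⟩ := exists_min_minor _ hli
  have hcast : ∀ (R : Type) [CommRing R] (κ' : Fin n × Fin 3 → ℕ),
      (Matrix.of fun a b => (fz a (κ' b) : R)).det =
        ((Matrix.of fun a b => fz a (κ' b)).det : ℤ) := fun R _ κ' => by
    rw [Int.cast_det]; rfl
  have hinj : Function.Injective κ := fun b b' hb => by
    by_contra hne
    exact hκ (Matrix.det_zero_of_column_eq hne fun a => by simp [hb])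
  have hone : (1 : ℝ) ≤ (Matrix.of fun a b => (fz a (κ b) : ℝ)).det ^ 2 := by
    rw [hcast] at hκ ⊢
    have : (Matrix.of fun a b => fz a (κ b)).det ≠ 0 := by exact_mod_cast hκ
    exact_mod_cast (one_le_sq_iff_one_le_abs _).2 (Int.one_le_abs this)
  set u : ℝ⟦X⟧ := (yP c : ℝ⟦X⟧) ^ (n - 1) * (1 - X ^ 2) ^ 3 * h ^ 2 with hu
  have hucc : constantCoeff u = u0 := by
    simp [hu, hu0, hh, yP, hG0]
  have htri := det_tri (fun a k => (fz a k : ℝ)) κ (fun κ' h' => by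
    have := hmin κ' h'
    rw [hcast] at this ⊢
    exact_mod_cast this) (fun k l => coeff k (u * XS c ^ l)) u0 fun k => by rw [coeff_diag, hucc]
  choose q hqm hqd hq using exists_pal c
  have hrow := det_rowop (fun k l : Fin n => (q k).coeff l)
    (fun k => by have := (hqm k).coeff_natDegree; rwa [hqd] at this)
    (fun k l hkl => Polynomial.coeff_eq_zero_of_natDegree_lt (by rw [hqd]; exact hkl))
    (Matrix.of fun a b => ∑ l ∈ range (κ b + 1), (fz a l : ℝ) * coeff (κ b) (u * XS c ^ l))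
  have hent : ∀ a b : Fin n × Fin 3, ∑ l : Fin n, (q a.1).coeff l *
      (Matrix.of fun a b => ∑ l ∈ range (κ b + 1), (fz a l : ℝ) * coeff (κ b) (u * XS c ^ l))
        (l, a.2) b =
      coeff (κ b) (X ^ (n - 1 - a.1) * (1 - X ^ (2 * (a.1 : ℕ) + 2)) * γ a.2) := fun a b => by
    simp only [Matrix.of_apply, hfz, ← map_row, ← coeff_mul_subst]
    have e1 := hom_subst c (n - 1) (q a.1)
    have hk : (a.1 : ℕ) ≤ n - 1 := by have := a.1.2; omega
    rw [hom_shift (yP c) hk (hqd _).le, coe_hom_one hn, ← coe_substAlgHom (hasSubst_XS c),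
      map_sum] at e1
    have e2 := congrArg (fun p : ℝ[X] => (p : ℝ⟦X⟧)) (hq a.1)
    push_cast at e1 e2
    have e3 : X ^ (n - 1 - a.1) * (1 - X ^ (2 * (a.1 : ℕ) + 2)) * γ a.2 =
        ∑ l : Fin n, (q a.1).coeff l • (u * (X ^ (n - 1 - l) *
          FS (fun n => (s n : ℝ)) ^ (a.2 : ℕ)).subst (XS c)) := by
      simp only [← coe_substAlgHom (hasSubst_XS c), map_mul, map_pow, map_smul] at e1 ⊢
      simp only [coe_substAlgHom, ← hF] at e1 ⊢
      rw [← e2, hγ]
      simp only [← mul_smul_comm _ u, ← mul_sum]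
      simp only [← smul_mul_assoc, ← sum_mul, hu]
      linear_combination (-(1 - X ^ 2) ^ 3 * h ^ 2 * F ^ (a.2 : ℕ)) * e1
    rw [e3, map_sum]
    simp
  simp only [hent] at hrow
  have hhad := hadamard (Matrix.of fun a b : Fin n × Fin 3 =>
    coeff (κ b) (X ^ (n - 1 - a.1) * (1 - X ^ (2 * (a.1 : ℕ) + 2)) * γ a.2))
  have hlt := hprod κ (fun b => ∑ a : Fin n × Fin 3,
      coeff (κ b) (X ^ (n - 1 - a.1) * (1 - X ^ (2 * (a.1 : ℕ) + 2)) * γ a.2) ^ 2) hinj
    (fun b => ⟨sum_nonneg fun _ _ => sq_nonneg _,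
      (col_le hsq n (κ b) 0 (Or.inl rfl)).trans (by linarith)⟩)
    fun b hb => (col_le hsq n (κ b) K (Or.inr hb)).trans hK
  rw [hrow, htri] at hhad
  simp only [Matrix.of_apply, Fintype.card_prod, Fintype.card_fin] at hhad
  have e : (u0 ^ 6) ^ n = (u0 ^ (n * 3)) ^ 2 := by ring
  have : 0 < (u0 ^ (n * 3)) ^ 2 := by positivity
  rw [mul_pow] at hhad
  nlinarith

end

end Pool.Agent.MP_108ce6_nt.Rig

end

-- part MP_108ce6_nt.Rig.End
section

namespace Pool.Agent.MP_108ce6_nt.Rig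

section

/-! Where the discriminant of the quadratic equation is nonnegative the functional has no mass. -/

open Finset PowerSeries Filter Topology
open scoped Polynomial

theorem tube_ker (r α : ℝ) (n : ℕ) : (1 - 2 * r * Real.cos α + r ^ 2) *
    ∑ k ∈ range (n + 1), r ^ k * (if k = 0 then 1 else 2) * Real.cos (k * α) =
    1 - r ^ 2 - 2 * r ^ (n + 1) * Real.cos ((n + 1) * α) + 2 * r ^ (n + 2) * Real.cos (n * α) := by
  induction n with
  | zero => simp; ring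
  | succ n ih =>
    rw [sum_range_succ, mul_add, ih, if_neg (Nat.succ_ne_zero n)]
    have h1 : Real.cos ((((n + 1 : ℕ) : ℝ) + 1) * α) =
        2 * Real.cos α * Real.cos ((n + 1) * α) - Real.cos (n * α) := by
      have e1 : (((n + 1 : ℕ) : ℝ) + 1) * α = (n + 1) * α + α := by push_cast; ring
      have e2 : (n : ℝ) * α = (n + 1) * α - α := by ring
      rw [e1, e2, Real.cos_add, Real.cos_sub]; ring
    rw [h1]; push_cast; ring

theorem tube_ker_ge {r : ℝ} (hr0 : 0 ≤ r) (hr : r < 1) (α : ℝ) (n : ℕ) :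
    -(4 * r ^ (n + 1) / (1 - r) ^ 2) ≤
      ∑ k ∈ range (n + 1), r ^ k * (if k = 0 then 1 else 2) * Real.cos (k * α) := by
  have h := tube_ker r α n
  set P := ∑ k ∈ range (n + 1), r ^ k * (if k = 0 then 1 else 2) * Real.cos (k * α)
  have h1 : 0 < (1 - r) ^ 2 := pow_pos (by linarith) 2
  have hp : 0 ≤ r ^ (n + 1) := pow_nonneg hr0 _
  rcases le_total 0 P with hP | hP
  · exact le_trans (neg_nonpos.2 (by positivity)) hP
  have h2 : (1 - r) ^ 2 ≤ 1 - 2 * r * Real.cos α + r ^ 2 := by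
    nlinarith only [mul_nonneg hr0 (sub_nonneg.2 (Real.cos_le_one α))]
  have h3 := mul_le_mul_of_nonpos_right h2 hP
  have h4 : r ^ (n + 2) ≤ r ^ (n + 1) := pow_le_pow_of_le_one hr0 hr.le (by omega)
  have h5 := mul_le_mul_of_nonneg_left (Real.cos_le_one ((n + 1) * α)) hp
  have h6 := mul_le_mul_of_nonneg_left (Real.neg_one_le_cos (n * α)) (pow_nonneg hr0 (n + 2))
  have h7 : r ^ 2 ≤ 1 := pow_le_one₀ hr0 hr.le
  rw [neg_le, le_div_iff₀ h1]
  linarith only [h, h3, h4, h5, h6, h7]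

theorem poisson_ge {L : ℝ[X] →ₗ[ℝ] ℝ} {c : ℝ} (h : Pos L (Set.Icc (c - 2) (c + 2))) {r : ℝ}
    (hr0 : 0 ≤ r) (hr : r < 1) (n : ℕ) (θ : ℝ) :
    -(4 * r ^ (n + 1) / (1 - r) ^ 2 * L 1) ≤
      ∑ k ∈ range (n + 1), coeff k (GS L c) * r ^ k * Real.cos (k * θ) := by
  have e : ∑ k ∈ range (n + 1), coeff k (GS L c) * r ^ k * Real.cos (k * θ) =
      L (∑ k ∈ range (n + 1), (r ^ k * Real.cos (k * θ)) • if k = 0 then 1 else ch c k) := by
    rw [map_sum]
    refine sum_congr rfl fun k _ => ?_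
    rw [map_smul, smul_eq_mul, GS, coeff_mk]
    split_ifs <;> ring
  rw [e]
  refine h.ge fun x hx => ?_
  obtain ⟨φ, -, rfl⟩ := exists_cos hx
  have h1 := tube_ker_ge hr0 hr (θ + φ) n
  have h2 := tube_ker_ge hr0 hr (θ - φ) n
  have e2 : 2 * Polynomial.eval (c + 2 * Real.cos φ)
      (∑ k ∈ range (n + 1), (r ^ k * Real.cos (k * θ)) • if k = 0 then (1 : ℝ[X]) else ch c k) =
      ∑ k ∈ range (n + 1), r ^ k * (if k = 0 then 1 else 2) * Real.cos (k * (θ + φ)) +
        ∑ k ∈ range (n + 1), r ^ k * (if k = 0 then 1 else 2) * Real.cos (k * (θ - φ)) := by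
    rw [Polynomial.eval_finsetSum, mul_sum, ← sum_add_distrib]
    refine sum_congr rfl fun k _ => ?_
    rw [Polynomial.eval_smul, smul_eq_mul, mul_add, mul_sub, Real.cos_add, Real.cos_sub]
    split_ifs with hk
    · simp [hk]; ring
    · rw [ch_eval]; push_cast; ring
  linarith only [h1, h2, e2]

theorem tube_alg {s a₀ a₁ a₂ ε : ℝ} {g : ℂ} (hD : 0 ≤ a₁ ^ 2 - 4 * a₀ * a₂) (h₂ : a₂ ≠ 0)
    (hε : 0 < ε) (hg : ε ≤ g.re) : (a₀ : ℂ) * (-2 * Complex.I * s) ^ 2 +
      a₁ * (-2 * Complex.I * s) * g + a₂ * g ^ 2 ≠ 0 := fun h => by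
  have hre := congrArg Complex.re h
  have him := congrArg Complex.im h
  simp [sq] at hre him
  have hu : 0 < g.re := hε.trans_le hg
  have h3 : a₂ * g.im = s * a₁ := by
    refine mul_left_cancel₀ hu.ne' ?_
    linarith only [him]
  have h4 : (a₂ * g.re) ^ 2 + s ^ 2 * (a₁ ^ 2 - 4 * a₀ * a₂) = 0 := by
    linear_combination a₂ * hre + (a₂ * g.im - s * a₁) * h3
  have h5 : 0 < (a₂ * g.re) ^ 2 := by positivity
  have h6 := mul_nonneg (sq_nonneg s) hD
  linarith only [h4, h5, h6]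

theorem tube_circ (c θ : ℝ) {N : ℕ} {a : ℝ[X]} (ha : a.natDegree ≤ N) :
    ((hom (yP c) N a).map Complex.ofRealHom).eval (Complex.exp (θ * Complex.I)) =
      Complex.exp (θ * Complex.I) ^ N * (a.eval (c + 2 * Real.cos θ) : ℝ) := by
  rw [hom_map, hom_eval _ (Polynomial.natDegree_map_le.trans ha) (Complex.exp_ne_zero _)]
  have e : ((yP c).map Complex.ofRealHom).eval (Complex.exp (θ * Complex.I)) /
      Complex.exp (θ * Complex.I) = Complex.ofRealHom (c + 2 * Real.cos θ) := by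
    rw [div_eq_iff (Complex.exp_ne_zero _)]
    have h1 : Complex.exp (θ * Complex.I) * Complex.exp (-(θ * Complex.I)) = 1 := by
      rw [← Complex.exp_add]; simp
    simp [yP, Complex.cos]
    linear_combination -h1
  rw [e, Polynomial.eval_map_apply]
  rfl

theorem tube_ev {G : ℂ⟦X⟧} (hG : Bd G) {P₀ P₁ P₂ : ℂ[X]}
    (h : (P₀ : ℂ⟦X⟧) * (1 - X ^ 2) ^ 2 + (P₁ : ℂ⟦X⟧) * (1 - X ^ 2) * (X * G) +
      (P₂ : ℂ⟦X⟧) * (X * G) ^ 2 = 0) {w : ℂ} (hw : ‖w‖ < 1) :
    P₀.eval w * (1 - w ^ 2) ^ 2 + P₁.eval w * (1 - w ^ 2) * w * ev w G +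
      P₂.eval w * w ^ 2 * ev w G ^ 2 = 0 := by
  have hs := hG.sm hw
  have e : ((P₀ * (1 - Polynomial.X ^ 2) ^ 2 : ℂ[X]) : ℂ⟦X⟧) +
      ((P₁ * (1 - Polynomial.X ^ 2) * Polynomial.X : ℂ[X]) : ℂ⟦X⟧) * G +
      ((P₂ * Polynomial.X ^ 2 : ℂ[X]) : ℂ⟦X⟧) * (G * G) = ((0 : ℂ[X]) : ℂ⟦X⟧) := by
    push_cast
    linear_combination h
  have e2 := congrArg (ev w) e
  rw [ev_add ((sm_coe _ _).add ((sm_coe _ _).mul hs)) ((sm_coe _ _).mul (hs.mul hs)),
    ev_add (sm_coe _ _) ((sm_coe _ _).mul hs), ev_mul (sm_coe _ _) hs,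
    ev_mul (sm_coe _ _) (hs.mul hs), ev_mul hs hs] at e2
  simp only [ev_coe, Polynomial.eval_mul, Polynomial.eval_pow, Polynomial.eval_sub,
    Polynomial.eval_one, Polynomial.eval_X, Polynomial.eval_zero] at e2
  linear_combination e2

theorem tube_bd {L : ℝ[X] →ₗ[ℝ] ℝ} {c : ℝ} (h : Pos L (Set.Icc (c - 2) (c + 2))) (k : ℕ) :
    ‖coeff k ((GS L c).map Complex.ofRealHom)‖ ≤ 2 * L 1 := by
  rw [coeff_map, Complex.ofRealHom_eq_coe, Complex.norm_real]
  exact abs_coeff_GS h k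

theorem tube_norm {r : ℝ} (hr : 0 ≤ r) (θ : ℝ) :
    ‖(r : ℂ) * Complex.exp (θ * Complex.I)‖ = r := by
  rw [norm_mul, Complex.norm_exp_ofReal_mul_I, mul_one, Complex.norm_real, Real.norm_of_nonneg hr]

theorem tube {L : ℝ[X] →ₗ[ℝ] ℝ} {c : ℝ} (h : Pos L (Set.Icc (c - 2) (c + 2))) {N : ℕ}
    {a₀ a₁ a₂ : ℝ[X]} (h₀ : a₀.natDegree ≤ N) (h₁ : a₁.natDegree ≤ N) (h₂ : a₂.natDegree ≤ N)
    (hrel : ((hom (yP c) N a₀ : ℝ[X]) : ℝ⟦X⟧) * (1 - X ^ 2) ^ 2 +
      ((hom (yP c) N a₁ : ℝ[X]) : ℝ⟦X⟧) * (1 - X ^ 2) * (X * GS L c) +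
      ((hom (yP c) N a₂ : ℝ[X]) : ℝ⟦X⟧) * (X * GS L c) ^ 2 = 0) {α β : ℝ}
    (hJ : ∀ x ∈ Set.Icc α β, 0 ≤ (a₁ ^ 2 - 4 * a₀ * a₂).eval x ∧ a₂.eval x ≠ 0) {ε : ℝ}
    (hε : 0 < ε) : ∀ᶠ r : ℝ in 𝓝[<] 1, ∀ θ ∈ Set.Icc 0 (2 * Real.pi),
      c + 2 * Real.cos θ ∈ Set.Icc α β →
      (ev ((r : ℂ) * Complex.exp (θ * Complex.I)) ((GS L c).map Complex.ofRealHom)).re < ε := by
  have hc := congrArg (PowerSeries.map Complex.ofRealHom) hrel
  simp only [map_add, map_mul, map_pow, map_sub, map_one, map_zero, map_X,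
    ← Polynomial.polynomial_map_coe] at hc
  have c₀ := fun θ => tube_circ c θ h₀
  have c₁ := fun θ => tube_circ c θ h₁
  have c₂ := fun θ => tube_circ c θ h₂
  generalize (hom (yP c) N a₀).map Complex.ofRealHom = P₀ at hc c₀
  generalize (hom (yP c) N a₁).map Complex.ofRealHom = P₁ at hc c₁
  generalize (hom (yP c) N a₂).map Complex.ofRealHom = P₂ at hc c₂
  let F : ℂ → ℂ → ℂ := fun w u => P₀.eval w * (1 - w ^ 2) ^ 2 * u ^ 2 +
    P₁.eval w * (1 - w ^ 2) * w * (u * (1 - u)) + P₂.eval w * w ^ 2 * (1 - u) ^ 2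
  have hK : IsCompact ((Set.Icc 0 (2 * Real.pi) ∩
      (fun θ => c + 2 * Real.cos θ) ⁻¹' Set.Icc α β) ×ˢ Metric.closedBall (0 : ℂ) 1) :=
    (isCompact_Icc.inter_right (isClosed_Icc.preimage (by fun_prop))).prod
      (isCompact_closedBall _ _)
  have key := hK.eventually_forall_of_forall_eventually (x₀ := (1 : ℝ))
    (P := fun r y => ¬ (F (r * Complex.exp (y.1 * Complex.I)) y.2 = 0 ∧
      (1 + ε) * ‖y.2‖ ^ 2 ≤ y.2.re)) (by
    rintro ⟨θ, u⟩ ⟨⟨-, hθ⟩, -⟩
    have hcl : IsClosed {z : ℝ × ℝ × ℂ | F (z.1 * Complex.exp (z.2.1 * Complex.I)) z.2.2 = 0 ∧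
        (1 + ε) * ‖z.2.2‖ ^ 2 ≤ z.2.2.re} :=
      IsClosed.and (isClosed_eq (by simp only [F]; fun_prop) continuous_const)
        (isClosed_le (by fun_prop) (by fun_prop))
    refine hcl.isOpen_compl.mem_nhds ?_
    rintro ⟨e1, e2⟩
    obtain ⟨hD, ha⟩ := hJ _ hθ
    simp only [F, Complex.ofReal_one, one_mul, c₀, c₁, c₂] at e1 e2
    simp only [Polynomial.eval_sub, Polynomial.eval_mul, Polynomial.eval_pow,
      Polynomial.eval_ofNat] at hD
    have hw := Complex.exp_ne_zero (θ * Complex.I)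
    have hs : 1 - Complex.exp (θ * Complex.I) ^ 2 =
        Complex.exp (θ * Complex.I) * (-2 * Complex.I * (Real.sin θ : ℝ)) := by
      have := Complex.cos_sq_add_sin_sq θ
      rw [Complex.exp_mul_I, Complex.ofReal_sin]
      linear_combination -this + (Complex.sin θ) ^ 2 * Complex.I_sq
    rw [hs] at e1
    have hu : u ≠ 0 := by
      rintro rfl
      simp [hw, ha] at e1
    refine tube_alg (s := Real.sin θ) (g := u⁻¹ - 1) hD ha hε ?_ ?_
    · rw [Complex.sub_re, Complex.inv_re, Complex.normSq_eq_norm_sq, Complex.one_re,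
        le_sub_iff_add_le', le_div_iff₀ (by positivity)]
      exact e2
    · refine mul_left_cancel₀ (mul_ne_zero (pow_ne_zero (N + 2) hw) (pow_ne_zero 2 hu)) ?_
      rw [mul_zero, ← e1]
      field_simp
      ring)
  filter_upwards [key.filter_mono nhdsWithin_le_nhds, Ioo_mem_nhdsLT (zero_lt_one' ℝ)]
    with r hr hr1 θ hθ hx
  by_contra hg
  rw [not_lt] at hg
  have e := tube_ev ⟨_, tube_bd h⟩ hc ((tube_norm hr1.1.le θ).trans_lt hr1.2)
  generalize ev ((r : ℂ) * Complex.exp (θ * Complex.I)) ((GS L c).map Complex.ofRealHom) = g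
    at hg e
  have h1 : 1 ≤ ‖1 + g‖ := le_trans (by simp; linarith) (Complex.re_le_norm _)
  have h2 : 1 + g ≠ 0 := norm_pos_iff.1 (by linarith)
  refine hr (θ, (1 + g)⁻¹) ⟨⟨hθ, hx⟩, ?_⟩ ⟨?_, ?_⟩
  · rw [mem_closedBall_zero_iff, norm_inv]
    exact inv_le_one_of_one_le₀ h1
  · refine mul_left_cancel₀ (pow_ne_zero 2 h2) ?_
    rw [mul_zero, ← e]
    simp only [F]
    field_simp
    ring
  · rw [Complex.inv_re, Complex.normSq_eq_norm_sq, norm_inv, inv_pow, ← div_eq_mul_inv]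
    gcongr
    simpa using hg

theorem pos_gap {L : ℝ[X] →ₗ[ℝ] ℝ} {c : ℝ} (h : Pos L (Set.Icc (c - 2) (c + 2))) {α β : ℝ}
    (ht : ∀ ε : ℝ, 0 < ε → ∀ᶠ r : ℝ in 𝓝[<] 1, ∀ θ ∈ Set.Icc 0 (2 * Real.pi),
      c + 2 * Real.cos θ ∈ Set.Icc α β →
      (ev ((r : ℂ) * Complex.exp (θ * Complex.I)) ((GS L c).map Complex.ofRealHom)).re < ε) :
    Pos L (Set.Icc (c - 2) (c + 2) \ Set.Ioo α β) := by
  intro q hq
  obtain ⟨B, hB⟩ := (isCompact_Icc (a := c - 2) (b := c + 2)).exists_bound_of_continuousOn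
    q.continuous.continuousOn
  have hB0 : 0 ≤ B := (norm_nonneg _).trans (hB _ (mem_cos c 0))
  obtain ⟨b, hb⟩ := ch_rep c q.natDegree q le_rfl
  generalize q.natDegree = d at hb
  have hlim : Tendsto (fun r : ℝ => ∑ j ∈ range (d + 1), b j * (r ^ j * L (ch c j))) (𝓝[<] 1)
      (𝓝 (L q)) := by
    have : L q = ∑ j ∈ range (d + 1), b j * (1 ^ j * L (ch c j)) := by
      rw [hb]; simp
    rw [this]
    exact (Continuous.tendsto (by fun_prop) 1).mono_left nhdsWithin_le_nhds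
  have main : ∀ ε : ℝ, 0 < ε → -(2 * B * ε) ≤ L q := fun ε hε => by
    refine ge_of_tendsto hlim ?_
    filter_upwards [ht ε hε, Ioo_mem_nhdsLT (zero_lt_one' ℝ)] with r hr hr1
    have hp := (tendsto_pow_atTop_nhds_zero_of_lt_one hr1.1.le hr1.2).comp
      (tendsto_add_atTop_nat 1)
    have t1 := ((hp.const_mul 4).div_const ((1 - r) ^ 2)).mul_const (L 1)
    have t2 := (hp.const_mul (2 * L 1)).div_const (1 - r)
    simp only [mul_zero, zero_div, zero_mul] at t1 t2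
    obtain ⟨n, ⟨n1, n2⟩, n3⟩ := (((t1.eventually (ge_mem_nhds hε)).and
      (t2.eventually (ge_mem_nhds hε))).and (eventually_ge_atTop d)).exists
    simp only [Function.comp] at n1 n2
    have hM : (0 : ℝ) < (2 * n + 1 : ℕ) := by positivity
    have e : ∑ l ∈ range (2 * n + 1),
        q.eval (c + 2 * Real.cos (0 + 2 * Real.pi * l / (2 * n + 1 : ℕ))) *
        ∑ k ∈ range (n + 1), coeff k (GS L c) * r ^ k *
          Real.cos (k * (0 + 2 * Real.pi * l / (2 * n + 1 : ℕ))) =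
        (2 * n + 1 : ℕ) * ∑ j ∈ range (d + 1), b j * (r ^ j * L (ch c j)) := by
      rw [hb]
      simp only [Polynomial.eval_finsetSum, Polynomial.eval_smul, smul_eq_mul, sum_mul]
      rw [sum_comm, mul_sum]
      refine sum_congr rfl fun j hj => ?_
      have hj' : j < n + 1 := by have := mem_range.1 hj; omega
      have := quad (range (n + 1)) (fun i => (i : ℤ)) (fun k => coeff k (GS L c) * r ^ k) c 0
        (2 * n + 1) j fun i hi => by
          have := mem_range.1 hi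
          simp only [Nat.abs_cast]; omega
      simp only [Int.cast_natCast] at this
      simp only [mul_assoc (b j), ← mul_sum, this]
      have f1 : (range (n + 1)).filter (fun i : ℕ => (i : ℤ) = j) = {j} := by
        ext i; simp only [mem_filter, mem_range, mem_singleton]; omega
      rcases Nat.eq_zero_or_pos j with rfl | hj0
      · rw [show -((0 : ℕ) : ℤ) = (0 : ℕ) from rfl, f1, Nat.cast_zero, ch_zero,
          ← one_add_one_eq_two (R := ℝ[X]), map_add]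
        simp [GS]; ring
      · have f2 : (range (n + 1)).filter (fun i : ℕ => (i : ℤ) = -j) = ∅ := by
          ext i; simp only [mem_filter, mem_range, notMem_empty, iff_false]; omega
        rw [f1, f2]
        simp [GS, hj0.ne']; ring
    refine le_of_mul_le_mul_left ?_ hM
    rw [← e]
    refine le_trans (by simp) (card_nsmul_le_sum _ _ (-(2 * B * ε)) fun l hl => ?_)
    have hθ : 0 + 2 * Real.pi * l / (2 * n + 1 : ℕ) ∈ Set.Icc 0 (2 * Real.pi) := by
      have : (l : ℝ) ≤ (2 * n + 1 : ℕ) := Nat.cast_le.2 (mem_range.1 hl).le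
      refine ⟨by positivity, ?_⟩
      rw [zero_add, div_le_iff₀ hM]
      gcongr
    generalize 0 + 2 * Real.pi * l / (2 * n + 1 : ℕ) = θ at hθ
    have p1 := (neg_le_neg n1).trans (poisson_ge h hr1.1.le hr1.2 n θ)
    have b1 := abs_le.1 (hB _ (mem_cos c θ))
    by_cases hx : c + 2 * Real.cos θ ∈ Set.Ioo α β
    · have p2 := hr θ hθ (Set.Ioo_subset_Icc_self hx)
      have p3 := ev_sub_sum (tube_bd h) ((tube_norm hr1.1.le θ).trans_lt hr1.2) (n + 1)
      rw [tube_norm hr1.1.le] at p3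
      have p4 := (abs_le.1 ((Complex.abs_re_le_norm _).trans (p3.trans n2))).1
      have p5 : (∑ k ∈ range (n + 1), coeff k ((GS L c).map Complex.ofRealHom) *
          ((r : ℂ) * Complex.exp (θ * Complex.I)) ^ k).re =
          ∑ k ∈ range (n + 1), coeff k (GS L c) * r ^ k * Real.cos (k * θ) := by
        rw [Complex.re_sum]
        refine sum_congr rfl fun k _ => ?_
        rw [coeff_map, Complex.ofRealHom_eq_coe, mul_pow, ← Complex.exp_nat_mul, ← mul_assoc,
          ← Complex.ofReal_pow, ← Complex.ofReal_mul, Complex.re_ofReal_mul, ← mul_assoc,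
          ← Complex.ofReal_natCast, ← Complex.ofReal_mul, Complex.exp_ofReal_mul_I_re]
      rw [Complex.sub_re, p5] at p4
      generalize ∑ k ∈ range (n + 1), coeff k (GS L c) * r ^ k * Real.cos (k * θ) = ρ at p1 p4
      have p6 : |ρ| ≤ 2 * ε := abs_le.2 ⟨by linarith, by linarith⟩
      have p7 := mul_le_mul (hB _ (mem_cos c θ)) p6 (abs_nonneg _) hB0
      rw [Real.norm_eq_abs, ← abs_mul] at p7
      linarith only [(abs_le.1 p7).1]
    · have q1 := hq _ ⟨mem_cos c θ, hx⟩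
      have q2 := mul_le_mul_of_nonneg_left p1 q1
      have q3 := mul_le_mul_of_nonneg_right b1.2 hε.le
      have q4 := mul_nonneg hB0 hε.le
      linarith only [q2, q3, q4]
  refine le_of_forall_pos_le_add fun δ hδ => ?_
  have h1 := main (δ / (2 * B + 1)) (by positivity)
  have h2 : 2 * B * (δ / (2 * B + 1)) ≤ δ := by
    rw [← mul_div_assoc, div_le_iff₀ (by positivity)]
    nlinarith only [hδ]
  linarith only [h1, h2]

end

section

/-! An integral definite functional on an interval of length four forces an integer centre. -/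

open Finset Polynomial Filter Topology

theorem coeff_hom_FS (s : ℕ → ℝ) {N : ℕ} {B : ℝ[X]} (hB : B.natDegree ≤ N) (t : ℕ) :
    PowerSeries.coeff (t + N + 1) (((hom 1 N B : ℝ[X]) : PowerSeries ℝ) * FS s) =
      mom s (X ^ t * B) := by
  conv_rhs => rw [B.as_sum_range_C_mul_X_pow' (Nat.lt_succ_of_le hB), mul_sum, map_sum]
  rw [hom, ← Polynomial.coeToPowerSeries.ringHom_apply, map_sum, sum_mul, map_sum]
  refine sum_congr rfl fun i hi => ?_
  have hi' := Nat.lt_succ_iff.1 (mem_range.1 hi)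
  rw [mul_left_comm, mom_C_mul, ← pow_add, mom_X_pow, FS]
  simp only [one_pow, mul_one, map_mul, map_pow, coeToPowerSeries.ringHom_apply, coe_C, coe_X]
  rw [mul_assoc, PowerSeries.coeff_C_mul, ← mul_assoc, ← pow_succ,
    show t + N + 1 = (t + i) + (N - i + 1) by omega, PowerSeries.coeff_X_pow_mul,
    PowerSeries.coeff_mk]

theorem mom_sq_eq_zero {s : ℕ → ℝ} {B : ℝ[X]} (h : ∀ t, mom s (X ^ t * B) = 0) :
    mom s (B ^ 2) = 0 := by
  rw [sq]
  nth_rewrite 1 [B.as_sum_range_C_mul_X_pow]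
  rw [sum_mul, map_sum]
  exact sum_eq_zero fun i _ => by rw [mul_assoc, mom_C_mul, h, mul_zero]

theorem not_rat {s : ℕ → ℝ} (hpd : ∀ p : ℝ[X], p ≠ 0 → 0 < mom s (p ^ 2)) {N : ℕ} {B P : ℝ[X]}
    (hB : B.natDegree ≤ N) (hB0 : B ≠ 0) :
    ((hom 1 N B : ℝ[X]) : PowerSeries ℝ) * FS s ≠ (P : PowerSeries ℝ) := fun h => by
  refine (hpd (X ^ P.natDegree * B) (mul_ne_zero (pow_ne_zero _ X_ne_zero) hB0)).ne'
    (mom_sq_eq_zero fun t => ?_)
  rw [← mul_assoc, ← pow_add, ← coeff_hom_FS s hB, h, coeff_coe]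
  exact coeff_eq_zero_of_natDegree_lt (by omega)

theorem disc_deg {K : Type*} [Field K] {N : ℕ} {a₀ a₁ a₂ : K[X]} (h₀ : a₀.natDegree ≤ N)
    (h₁ : a₁.natDegree ≤ N) (h₂ : a₂.natDegree ≤ N) :
    (a₁ ^ 2 - 4 * a₀ * a₂).natDegree ≤ 2 * N := by
  refine (natDegree_sub_le _ _).trans (max_le (natDegree_pow_le.trans (by omega)) ?_)
  rw [mul_assoc, show (4 : K[X]) = C 4 from rfl]
  exact (natDegree_C_mul_le _ _).trans (natDegree_mul_le.trans (by omega))

theorem disc_sq {K : Type*} [Field K] [Infinite K] {N : ℕ} {a₀ a₁ a₂ : K[X]}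
    (h₀ : a₀.natDegree ≤ N) (h₁ : a₁.natDegree ≤ N) (h₂ : a₂.natDegree ≤ N) (u P : K[X])
    (Φ : PowerSeries K) (h : ((hom u N a₀ : K[X]) : PowerSeries K) * (P : PowerSeries K) ^ 2 +
      ((hom u N a₁ : K[X]) : PowerSeries K) * (P : PowerSeries K) * Φ +
      ((hom u N a₂ : K[X]) : PowerSeries K) * Φ ^ 2 = 0) :
    (((2 * hom u N a₂ : K[X]) : PowerSeries K) * Φ + ((P * hom u N a₁ : K[X]) : PowerSeries K)) ^ 2 =
      ((P ^ 2 * hom u (2 * N) (a₁ ^ 2 - 4 * a₀ * a₂) : K[X]) : PowerSeries K) := by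
  have e : hom u (2 * N) (a₁ ^ 2 - 4 * a₀ * a₂) =
      hom u N a₁ ^ 2 - (2 * 2) * hom u N a₀ * hom u N a₂ := by
    refine eq_of_eval_ne_zero fun z hz => ?_
    simp only [eval_sub, eval_mul, eval_pow, hom_eval u (disc_deg h₀ h₁ h₂) hz, hom_eval u h₀ hz,
      hom_eval u h₁ hz, hom_eval u h₂ hz, eval_ofNat]
    ring
  have e2 : ((2 : K[X]) : PowerSeries K) = 2 := by
    rw [← one_add_one_eq_two, Polynomial.coe_add, Polynomial.coe_one, one_add_one_eq_two]
  rw [e]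
  simp only [Polynomial.coe_mul, Polynomial.coe_sub, Polynomial.coe_pow, e2]
  linear_combination (4 * ((hom u N a₂ : K[X]) : PowerSeries K)) * h

theorem exists_sq_mul (n : ℕ) : ∀ d : ℚ[X], d ≠ 0 → d.natDegree = n →
    ∃ e d₀ : ℚ[X], e ≠ 0 ∧ Squarefree d₀ ∧ d = e ^ 2 * d₀ := by
  induction n using Nat.strong_induction_on with
  | _ n ih =>
    intro d hd hn
    by_cases h : Squarefree d
    · exact ⟨1, d, one_ne_zero, h, by simp⟩
    simp only [Squarefree, not_forall] at h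
    obtain ⟨x, ⟨d', rfl⟩, hx⟩ := h
    have hx0 : x ≠ 0 := by rintro rfl; simp at hd
    have hd' : d' ≠ 0 := by rintro rfl; simp at hd
    have hpos : 0 < x.natDegree := natDegree_pos_iff_degree_pos.2 (degree_pos_of_ne_zero_of_nonunit hx0 hx)
    obtain ⟨e, d₀, he, hs, h'⟩ := ih d'.natDegree (by
      rw [← hn, natDegree_mul (mul_ne_zero hx0 hx0) hd', natDegree_mul hx0 hx0]; omega) d' hd' rfl
    exact ⟨x * e, d₀, mul_ne_zero hx0 he, hs, by rw [h']; ring⟩

theorem simple_root {K : Type*} [Field K] {d : K[X]} (hd : Squarefree d) {x : K}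
    (hx : d.eval x = 0) : ∃ d₁ : K[X], d = (X - C x) * d₁ ∧ d₁.eval x ≠ 0 := by
  obtain ⟨d₁, rfl⟩ := dvd_iff_isRoot.2 hx
  refine ⟨d₁, rfl, fun h => not_isUnit_X_sub_C x (hd _ (mul_dvd_mul_left _ (dvd_iff_isRoot.2 h)))⟩

theorem exists_sub {f e : ℝ[X]} (he : e ≠ 0) {p q x : ℝ} (hpq : p < q) (hx : x ∈ Set.Icc p q)
    (hf : 0 < f.eval x) : ∃ α β, p ≤ α ∧ α < β ∧ β ≤ q ∧
      ∀ y ∈ Set.Icc α β, 0 < f.eval y ∧ e.eval y ≠ 0 := by
  have hU : IsOpen ({y | 0 < f.eval y} ∩ Set.Ioo p q) :=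
    (isOpen_lt continuous_const f.continuous).inter isOpen_Ioo
  have hne : ({y | 0 < f.eval y} ∩ Set.Ioo p q).Nonempty := by
    rw [← closure_Ioo hpq.ne] at hx
    exact mem_closure_iff.1 hx _ (isOpen_lt continuous_const f.continuous) hf
  obtain ⟨y, hy, hy'⟩ : ∃ y ∈ {y | 0 < f.eval y} ∩ Set.Ioo p q, e.eval y ≠ 0 := by
    by_contra! h
    obtain ⟨z, hz⟩ := hne
    exact he (eq_zero_of_infinite_isRoot e ((infinite_of_mem_nhds z (hU.mem_nhds hz)).mono h))
  have hV := (hU.inter (isOpen_ne_fun e.continuous continuous_const)).mem_nhds ⟨hy, hy'⟩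
  obtain ⟨l, u, hlu, hs⟩ := mem_nhds_iff_exists_Ioo_subset.1 hV
  have hsub : Set.Icc y ((y + u) / 2) ⊆ Set.Ioo l u :=
    Set.Icc_subset_Ioo hlu.1 (by linarith [hlu.2])
  have hb := hs (hsub ⟨by linarith [hlu.2], le_rfl⟩)
  exact ⟨y, (y + u) / 2, hy.2.1.le, by linarith [hlu.2], hb.1.2.2.le,
    fun z hz => ⟨(hs (hsub hz)).1.1, (hs (hsub hz)).2⟩⟩

theorem nonpos_of_sq_mul {f e : ℝ[X]} (he : e ≠ 0) {p q : ℝ} (hpq : p < q)
    (h : ∀ y ∈ Set.Ioo p q, e.eval y ^ 2 * f.eval y ≤ 0) : ∀ x ∈ Set.Icc p q, f.eval x ≤ 0 := by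
  intro x hx
  by_contra! hf
  obtain ⟨α, β, h1, h2, h3, h4⟩ := exists_sub he hpq hx hf
  have h5 := h4 ((α + β) / 2) ⟨by linarith, by linarith⟩
  have h6 := h ((α + β) / 2) ⟨by linarith, by linarith⟩
  have := mul_pos (sq_pos_of_ne_zero h5.2) h5.1
  linarith

theorem exists_jouk (c : ℝ) {x : ℂ} (hx : ∀ t ∈ Set.Icc (c - 2) (c + 2), x ≠ t) :
    ∃ v : ℂ, v ≠ 0 ∧ ‖v‖ < 1 ∧ x = c + v + v⁻¹ := by
  obtain ⟨r, hr⟩ := IsAlgClosed.exists_pow_nat_eq ((x - c) ^ 2 - 4) two_pos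
  have h1 : (x - c + r) / 2 * ((x - c - r) / 2) = 1 := by linear_combination (-1 / 4 : ℂ) * hr
  set v := (x - c + r) / 2 with hv
  have hv0 : v ≠ 0 := left_ne_zero_of_mul_eq_one h1
  have hxv : x = c + v + v⁻¹ := by rw [← eq_inv_of_mul_eq_one_right h1, hv]; ring
  rcases lt_trichotomy ‖v‖ 1 with h | h | h
  · exact ⟨v, hv0, h, hxv⟩
  · have h2 := (Complex.abs_re_le_norm v).trans h.le
    refine absurd ?_ (hx (c + 2 * v.re) ⟨by linarith [(abs_le.1 h2).1], by linarith [(abs_le.1 h2).2]⟩)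
    rw [hxv, Complex.inv_eq_conj h, add_assoc, Complex.add_conj]; push_cast; ring
  · exact ⟨v⁻¹, inv_ne_zero hv0, by rw [norm_inv]; exact inv_lt_one_of_one_lt₀ h,
      by rw [inv_inv, hxv]; ring⟩

theorem exists_jouk_real (c : ℝ) {x : ℝ} (hx : x ∉ Set.Icc (c - 2) (c + 2)) :
    ∃ v : ℝ, v ≠ 0 ∧ ‖v‖ < 1 ∧ x = c + v + v⁻¹ := by
  obtain ⟨v, hv0, hv, h⟩ := exists_jouk c (x := x) fun t ht h => hx (by
    rwa [Complex.ofReal_injective h])
  have hn : 0 < Complex.normSq v := Complex.normSq_pos.2 hv0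
  have hn1 : Complex.normSq v < 1 := by
    rw [Complex.normSq_eq_norm_sq]; nlinarith [norm_nonneg v]
  have him : v.im = 0 := by
    have := congrArg Complex.im h
    simp only [Complex.ofReal_im, Complex.add_im, Complex.inv_im, zero_add] at this
    field_simp at this
    have h2 : v.im * (Complex.normSq v - 1) = 0 := by linarith
    exact (mul_eq_zero.1 h2).resolve_right (by linarith)
  obtain ⟨w, rfl⟩ : ∃ w : ℝ, v = w := ⟨v.re, Complex.ext rfl (by simp [him])⟩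
  exact ⟨w, by exact_mod_cast hv0, by simpa using hv, by exact_mod_cast h⟩

theorem rel_map (K : Type*) [Field K] [CharZero K] {s : ℕ → ℤ} {N : ℕ} {a₀ a₁ a₂ : ℚ[X]}
    (h : ((hom 1 N a₀ : ℚ[X]) : PowerSeries ℚ) +
      ((hom 1 N a₁ : ℚ[X]) : PowerSeries ℚ) * FS (fun n => (s n : ℚ)) +
      ((hom 1 N a₂ : ℚ[X]) : PowerSeries ℚ) * FS (fun n => (s n : ℚ)) ^ 2 = 0) :
    ((hom 1 N (a₀.map (algebraMap ℚ K)) : K[X]) : PowerSeries K) +
      ((hom 1 N (a₁.map (algebraMap ℚ K)) : K[X]) : PowerSeries K) * FS (fun n => (s n : K)) +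
      ((hom 1 N (a₂.map (algebraMap ℚ K)) : K[X]) : PowerSeries K) *
        FS (fun n => (s n : K)) ^ 2 = 0 := by
  have e : (FS fun n => (s n : ℚ)).map (algebraMap ℚ K) = FS fun n => (s n : K) := by
    rw [FS, FS, map_mul, PowerSeries.map_X]
    congr 1
    ext n; simp
  have := congrArg (PowerSeries.map (algebraMap ℚ K)) h
  simpa only [map_add, map_mul, map_pow, map_zero, ← polynomial_map_coe, hom_map,
    Polynomial.map_one, e] using this

theorem int_of_root {s : ℕ → ℤ} {N : ℕ} {a₀ a₁ a₂ e d : ℚ[X]} (h₀ : a₀.natDegree ≤ N)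
    (h₁ : a₁.natDegree ≤ N) (h₂ : a₂.natDegree ≤ N)
    (h : ((hom 1 N a₀ : ℚ[X]) : PowerSeries ℚ) +
      ((hom 1 N a₁ : ℚ[X]) : PowerSeries ℚ) * FS (fun n => (s n : ℚ)) +
      ((hom 1 N a₂ : ℚ[X]) : PowerSeries ℚ) * FS (fun n => (s n : ℚ)) ^ 2 = 0)
    (he : e ≠ 0) (hd : Squarefree d) (hδ : a₁ ^ 2 - 4 * a₀ * a₂ = e ^ 2 * d) {x : ℚ}
    (hx : d.eval x = 0) : x.den = 1 := by
  by_contra hden
  obtain ⟨p, hp, hpd⟩ := Nat.exists_prime_and_dvd hden
  have := Fact.mk hp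
  obtain ⟨d₁, rfl, hd₁⟩ := simple_root hd hx
  have hx0 : x ≠ 0 := by rintro rfl; exact hden rfl
  have hx0' : (x : ℚ_[p]) ≠ 0 := by exact_mod_cast hx0
  have hv : ‖(x : ℚ_[p])⁻¹‖ < 1 := by
    have h1 : ‖(x.num : ℚ_[p])‖ = 1 := Padic.norm_intCast_eq_one_iff.2
      (x.isCoprime_num_den.of_isCoprime_of_dvd_right (Int.natCast_dvd_natCast.2 hpd))
    rw [Rat.cast_def, inv_div, norm_div, h1, div_one]
    exact Padic.norm_natCast_lt_one_iff.2 hpd
  set f := algebraMap ℚ ℚ_[p] with hf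
  have hm : (a₁.map f) ^ 2 - 4 * a₀.map f * a₂.map f =
      (e.map f) ^ 2 * ((X - C (x : ℚ_[p])) * d₁.map f) := by
    simpa [hf] using congrArg (Polynomial.map f) hδ
  have hdeg := fun {a : ℚ[X]} (ha : a.natDegree ≤ N) => (natDegree_map_le (f := f)).trans ha
  have hsq := disc_sq (hdeg h₀) (hdeg h₁) (hdeg h₂) 1 1 (FS fun n => (s n : ℚ_[p]))
    (by simpa using rel_map ℚ_[p] h)
  have hF : Bd (FS fun n => (s n : ℚ_[p])) := by
    have : Bd (PowerSeries.mk fun n => (s n : ℚ_[p])) :=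
      ⟨1, fun k => by rw [PowerSeries.coeff_mk]; exact Padic.norm_int_le_one _⟩
    simpa [FS] using this.coe_mul X
  rw [hm] at hsq
  refine no_root (R := -C (x : ℚ_[p])) (inv_ne_zero hx0') hv one_ne_zero
    (Polynomial.map_ne_zero he) ?_ ?_ (by simpa using hx0') (hm ▸ disc_deg (hdeg h₀) (hdeg h₁)
      (hdeg h₂)) _ ((hF.coe_mul _).add (bd_coe _)) hsq
  · rw [show (x : ℚ_[p]) = f x by simp [hf], eval_map_apply]
    exact (map_ne_zero f).2 hd₁
  · have : C (x : ℚ_[p])⁻¹ * C (x : ℚ_[p]) = (1 : ℚ_[p][X]) := by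
      rw [← C_mul, inv_mul_cancel₀ hx0', C_1]
    linear_combination -this

theorem rat_of_roots {d : ℚ[X]} (hd : Squarefree d) {c : ℝ}
    (h1 : (d.map (algebraMap ℚ ℝ)).eval (c - 2) = 0)
    (h2 : (d.map (algebraMap ℚ ℝ)).eval (c + 2) = 0)
    (h3 : ∀ z : ℂ, (d.map (algebraMap ℚ ℂ)).eval z = 0 → z = (c - 2 : ℝ) ∨ z = (c + 2 : ℝ)) :
    ∃ q : ℚ, c = q := by
  have hs : Squarefree (d.map (algebraMap ℚ ℂ)) :=
    (PerfectField.separable_iff_squarefree.2 hd).map.squarefree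
  have hc : ∀ t : ℝ, (d.map (algebraMap ℚ ℝ)).eval t = 0 →
      (d.map (algebraMap ℚ ℂ)).eval (t : ℂ) = 0 := fun t ht => by
    rw [eval_map_algebraMap] at ht ⊢
    rw [show (t : ℂ) = algebraMap ℝ ℂ t from rfl, aeval_algebraMap_apply, ht, map_zero]
  obtain ⟨d₁, e₁, hd₁⟩ := simple_root hs (hc _ h1)
  have h4 : d₁.eval ((c + 2 : ℝ) : ℂ) = 0 := by
    have := hc _ h2
    rw [e₁, eval_mul] at this
    refine (mul_eq_zero.1 this).resolve_left ?_
    simp only [eval_sub, eval_X, eval_C]; push_cast; ring_nf; norm_num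
  obtain ⟨d₂, e₂, hd₂⟩ := simple_root (e₁ ▸ hs).of_mul_right h4
  have h5 : d₂.degree = 0 := by
    by_contra h
    obtain ⟨z, hz⟩ := IsAlgClosed.exists_root d₂ h
    rcases h3 z (by rw [e₁, e₂, eval_mul, eval_mul, hz.eq_zero]; ring) with rfl | rfl
    · exact hd₁ (by rw [e₂, eval_mul, hz.eq_zero, mul_zero])
    · exact hd₂ hz
  rw [e₂, eq_C_of_degree_eq_zero h5] at e₁
  set κ := d₂.coeff 0
  have hκ : κ ≠ 0 := fun h => hd₂ (by rw [eq_C_of_degree_eq_zero h5]; simpa using h)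
  have e : d.map (algebraMap ℚ ℂ) =
      C κ * X ^ 2 + C (-2 * c * κ) * X + C ((c - 2) * (c + 2) * κ) := by
    rw [e₁]; simp only [Complex.ofReal_sub, Complex.ofReal_add, Complex.ofReal_ofNat, map_mul,
      map_sub, map_add, map_neg, map_ofNat]; ring
  have c2 := congrArg (fun p => p.coeff 2) e
  have c1 := congrArg (fun p => p.coeff 1) e
  simp only [coeff_map, coeff_add, coeff_C_mul, coeff_X_pow, coeff_X, coeff_C] at c1 c2
  norm_num at c1 c2
  refine ⟨-d.coeff 1 / (2 * d.coeff 2), Complex.ofReal_injective ?_⟩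
  push_cast
  rw [c1, c2]; field_simp

theorem disc_nonpos {s : ℕ → ℤ} {c : ℝ}
    (hpos : Pos (mom fun n => (s n : ℝ)) (Set.Icc (c - 2) (c + 2)))
    (hpd : ∀ p : ℝ[X], p ≠ 0 → 0 < mom (fun n => (s n : ℝ)) (p ^ 2)) {N : ℕ} {a₀ a₁ a₂ : ℝ[X]}
    (h₀ : a₀.natDegree ≤ N) (h₁ : a₁.natDegree ≤ N) (h₂ : a₂.natDegree ≤ N) (ha : a₂ ≠ 0)
    (h : ((hom 1 N a₀ : ℝ[X]) : PowerSeries ℝ) +
      ((hom 1 N a₁ : ℝ[X]) : PowerSeries ℝ) * FS (fun n => (s n : ℝ)) +
      ((hom 1 N a₂ : ℝ[X]) : PowerSeries ℝ) * FS (fun n => (s n : ℝ)) ^ 2 = 0) :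
    ∀ x ∈ Set.Icc (c - 2) (c + 2), (a₁ ^ 2 - 4 * a₀ * a₂).eval x ≤ 0 := by
  intro x hx
  by_contra! hd
  obtain ⟨α, β, hα, hαβ, hβ, hJ⟩ := exists_sub ha (by linarith) hx hd
  have hgap := pos_gap hpos fun ε hε =>
    tube hpos h₀ h₁ h₂ (rel_w c h) (fun y hy => ⟨(hJ y hy).1.le, (hJ y hy).2⟩) hε
  obtain ⟨p, hp, hp0, hps⟩ := small_gap c α β hαβ hα hβ
  obtain ⟨w, hw, hrec⟩ := recurrence (B := |c| + 2) (by linarith [abs_nonneg c])
    (fun y hy => abs_le.2 ⟨by linarith [hy.1.1, neg_abs_le c], by linarith [hy.1.2, le_abs_self c]⟩)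
    hp hp0 hps s hgap.bnd
  refine (hpd (w.map (Int.castRingHom ℝ)) ((Polynomial.map_ne_zero_iff Int.cast_injective).2 hw)).ne'
    (mom_sq_eq_zero fun t => ?_)
  have := congrArg (fun z : ℤ => (z : ℝ)) (hrec t)
  push_cast at this
  rw [← this]
  conv_lhs => rw [w.as_sum_range_C_mul_X_pow]
  rw [Polynomial.map_sum, mul_sum, map_sum]
  refine sum_congr rfl fun j _ => ?_
  rw [Polynomial.map_mul, Polynomial.map_pow, map_C, map_X, mul_left_comm, ← pow_add, mom_C_mul,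
    mom_X_pow, eq_intCast, add_comm]

theorem centre_int (s : ℕ → ℤ) (c : ℝ)
    (hpos : Pos (mom fun n => (s n : ℝ)) (Set.Icc (c - 2) (c + 2)))
    (hpd : ∀ p : ℝ[X], p ≠ 0 → 0 < mom (fun n => (s n : ℝ)) (p ^ 2)) : ∃ z : ℤ, c = z := by
  obtain ⟨N, a₀, a₁, a₂, h₀, h₁, h₂, hne, h⟩ := dep s c hpos
  set f := algebraMap ℚ ℝ with hf
  have hdeg := fun {a : ℚ[X]} (ha : a.natDegree ≤ N) => (natDegree_map_le (f := f)).trans ha
  have hR := rel_map ℝ h
  rw [← hf] at hR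
  have ha₂ : a₂ ≠ 0 := by
    rintro rfl
    by_cases ha₁ : a₁ = 0
    · subst ha₁
      refine not_rat hpd (P := 0) (hdeg h₀) (Polynomial.map_ne_zero fun h0 => hne ⟨h0, rfl, rfl⟩) ?_
      simp only [Polynomial.map_zero, hom, coeff_zero, map_zero, zero_mul, sum_const_zero,
        Polynomial.coe_zero, add_zero] at hR
      rw [hom, hR]; simp
    · refine not_rat hpd (P := -hom 1 N (a₀.map f)) (hdeg h₁) (Polynomial.map_ne_zero ha₁) ?_
      have e : hom 1 N (Polynomial.map f 0) = 0 := by simp [hom]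
      rw [e] at hR
      push_cast at hR ⊢
      linear_combination hR
  have hmap : ∀ (K : Type) [Field K] [CharZero K], (a₁ ^ 2 - 4 * a₀ * a₂).map (algebraMap ℚ K) =
      (a₁.map (algebraMap ℚ K)) ^ 2 - 4 * a₀.map (algebraMap ℚ K) * a₂.map (algebraMap ℚ K) :=
    fun K _ _ => by simp
  have hδ : a₁ ^ 2 - 4 * a₀ * a₂ ≠ 0 := fun h0 => by
    have hsq := disc_sq (hdeg h₀) (hdeg h₁) (hdeg h₂) 1 1 (FS fun n => (s n : ℝ))
      (by simpa using hR)
    rw [← hmap, h0] at hsq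
    have e : hom 1 (2 * N) (Polynomial.map f 0) = 0 := by simp [hom]
    rw [e, mul_zero, Polynomial.coe_zero, pow_eq_zero_iff two_ne_zero] at hsq
    refine not_rat hpd (P := -(C (1 / 2) * hom 1 N (a₁.map f))) (hdeg h₂)
      (Polynomial.map_ne_zero ha₂) ?_
    have e2 : ((2 : ℝ[X]) : PowerSeries ℝ) * PowerSeries.C (1 / 2 : ℝ) = 1 := by
      rw [show (2 : ℝ[X]) = C 2 from rfl, coe_C, ← map_mul]; norm_num
    simp only [Polynomial.coe_mul, Polynomial.coe_neg, coe_C, Polynomial.coe_one] at hsq ⊢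
    linear_combination PowerSeries.C (1 / 2 : ℝ) * hsq -
      ((hom 1 N (a₂.map f) : ℝ[X]) : PowerSeries ℝ) * (FS fun n => (s n : ℝ)) * e2
  obtain ⟨e, d, he, hd, hed⟩ := exists_sq_mul _ _ hδ rfl
  have hin := disc_nonpos hpos hpd (hdeg h₀) (hdeg h₁) (hdeg h₂) (Polynomial.map_ne_zero ha₂) hR
  have hsq := disc_sq (hdeg h₀) (hdeg h₁) (hdeg h₂) (yP c) (1 - X ^ 2)
    (PowerSeries.X * GS (mom fun n => (s n : ℝ)) c) (by simpa using rel_w c hR)
  have hN := disc_deg (hdeg h₀) (hdeg h₁) (hdeg h₂)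
  rw [← hmap, hed] at hin hsq hN
  have hG : Bd (PowerSeries.X * GS (mom fun n => (s n : ℝ)) c) := by
    have : Bd (GS (mom fun n => (s n : ℝ)) c) := ⟨_, abs_coeff_GS hpos⟩
    simpa using this.coe_mul X
  have hY := (hG.coe_mul (2 * hom (yP c) N (a₂.map f))).add
    (bd_coe ((1 - X ^ 2) * hom (yP c) N (a₁.map f)))
  set Y := ((2 * hom (yP c) N (a₂.map f) : ℝ[X]) : PowerSeries ℝ) *
    (PowerSeries.X * GS (mom fun n => (s n : ℝ)) c) +
    (((1 - X ^ 2) * hom (yP c) N (a₁.map f) : ℝ[X]) : PowerSeries ℝ)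
  have he' : e.map f ≠ 0 := Polynomial.map_ne_zero he
  have hout : ∀ x ∉ Set.Icc (c - 2) (c + 2), (e.map f).eval x ^ 2 * (-d.map f).eval x ≤ 0 := by
    intro x hx
    obtain ⟨v, hv0, hv, rfl⟩ := exists_jouk_real c hx
    have h1 := congrArg (ev v) hsq
    rw [sq, ev_mul (hY.sm hv) (hY.sm hv), ev_coe, eval_mul, hom_eval _ hN hv0] at h1
    have h2 : (yP c).eval v / v = c + v + v⁻¹ := by simp [yP]; field_simp; ring
    have h3 : 0 < eval v ((1 - X ^ 2) ^ 2) * v ^ (2 * N) := by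
      have : v ^ 2 < 1 := (sq_lt_one_iff_abs_lt_one v).2 hv
      rw [pow_mul]
      simp only [eval_pow, eval_sub, eval_one, eval_X]
      exact mul_pos (pow_pos (by linarith) 2) (by positivity)
    have h4 := mul_self_nonneg (ev v Y)
    rw [h1, h2, ← mul_assoc] at h4
    have h5 := nonneg_of_mul_nonneg_right h4 h3
    simp only [Polynomial.map_mul, Polynomial.map_pow, eval_mul, eval_pow, eval_neg] at h5 ⊢
    linarith
  have hK : ∀ x ∈ Set.Icc (c - 2) (c + 2), (d.map f).eval x ≤ 0 :=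
    nonpos_of_sq_mul he' (by linarith) fun y hy => by
      simpa [hf] using hin y ⟨hy.1.le, hy.2.le⟩
  have hr : (d.map f).eval (c + 2) = 0 := by
    have := nonpos_of_sq_mul he' (show c + 2 < c + 3 by linarith)
      (fun y hy => hout y fun h => h.2.not_gt hy.1) (c + 2) ⟨le_rfl, by linarith⟩
    rw [eval_neg] at this
    linarith [hK (c + 2) ⟨by linarith, le_rfl⟩]
  have hl : (d.map f).eval (c - 2) = 0 := by
    have := nonpos_of_sq_mul he' (show c - 3 < c - 2 by linarith)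
      (fun y hy => hout y fun h => h.1.not_gt hy.2) (c - 2) ⟨by linarith, le_rfl⟩
    rw [eval_neg] at this
    linarith [hK (c - 2) ⟨le_rfl, by linarith⟩]
  have hsep := PerfectField.separable_iff_squarefree.2 hd
  have hcx : ∀ z : ℂ, (d.map (algebraMap ℚ ℂ)).eval z = 0 →
      z = (c - 2 : ℝ) ∨ z = (c + 2 : ℝ) := fun z hz => by
    by_cases hzK : ∀ t ∈ Set.Icc (c - 2) (c + 2), z ≠ t
    · exfalso
      obtain ⟨v, hv0, hv, rfl⟩ := exists_jouk c hzK
      obtain ⟨d₁, e₁, hd₁⟩ := simple_root hsep.map.squarefree hz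
      have hm : ((e ^ 2 * d).map f).map Complex.ofRealHom =
          (e.map (algebraMap ℚ ℂ)) ^ 2 * ((X - C (c + v + v⁻¹)) * d₁) := by
        rw [← e₁, Polynomial.map_map, ← Polynomial.map_pow, ← Polynomial.map_mul]
        congr 1
      have h1 := congrArg (PowerSeries.map Complex.ofRealHom) hsq
      rw [map_pow, ← polynomial_map_coe, Polynomial.map_mul, Polynomial.map_pow, hom_map, hm] at h1
      have hvv : C v * C v⁻¹ = (1 : ℂ[X]) := by rw [← C_mul, mul_inv_cancel₀ hv0, C_1]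
      refine no_root (R := X - C v⁻¹) hv0 hv ?_ (Polynomial.map_ne_zero he) hd₁ ?_ ?_
        (hm ▸ natDegree_map_le.trans hN) _ ?_ h1
      · exact Polynomial.map_ne_zero fun h0 => by simpa using congrArg (eval 0) h0
      · simp only [yP, Polynomial.map_add, Polynomial.map_mul, Polynomial.map_pow, map_C, map_X,
          Polynomial.map_one, Complex.ofRealHom_eq_coe, map_add]
        linear_combination -hvv
      · simp only [eval_sub, eval_X, eval_C, sub_ne_zero]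
        intro h0
        have h2 : ‖v‖ * ‖v‖ = 1 := by
          nth_rewrite 2 [h0]
          rw [← norm_mul, mul_inv_cancel₀ hv0, norm_one]
        nlinarith [norm_nonneg v]
      · obtain ⟨B, hB⟩ := hY
        exact ⟨B, fun k => by simpa using hB k⟩
    push Not at hzK
    obtain ⟨t, ht, rfl⟩ := hzK
    by_contra! hne'
    have ht1 : c - 2 < t := lt_of_le_of_ne ht.1 fun h => hne'.1 (by rw [h])
    have ht2 : t < c + 2 := lt_of_le_of_ne ht.2 fun h => hne'.2 (by rw [h])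
    have hz' : (d.map f).eval t = 0 := by
      rw [eval_map_algebraMap] at hz ⊢
      rw [show (t : ℂ) = algebraMap ℝ ℂ t from rfl, aeval_algebraMap_apply] at hz
      exact (map_eq_zero _).1 hz
    obtain ⟨d₁, e₁, hd₁⟩ := simple_root hsep.map.squarefree hz'
    have hsg : ∀ y ∈ Set.Icc (c - 2) (c + 2), (y - t) * d₁.eval y ≤ 0 := fun y hy => by
      simpa [e₁] using hK y hy
    rcases lt_or_gt_of_ne hd₁ with h' | h'
    · obtain ⟨α, β, h1, h2, h3, h4⟩ := exists_sub (f := -d₁) one_ne_zero ht1 ⟨ht1.le, le_rfl⟩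
        (by simpa using h')
      have h5 := (h4 α ⟨le_rfl, h2.le⟩).1
      rw [eval_neg] at h5
      nlinarith [hsg α ⟨h1, by linarith⟩]
    · obtain ⟨α, β, h1, h2, h3, h4⟩ := exists_sub one_ne_zero ht2 ⟨le_rfl, ht2.le⟩ h'
      nlinarith [hsg β ⟨by linarith, h3⟩, (h4 β ⟨h2.le, le_rfl⟩).1]
  obtain ⟨q, rfl⟩ := rat_of_roots hd hl hr hcx
  have hq : d.eval (q + 2) = 0 := by
    rw [show (q : ℝ) + 2 = f (q + 2) by simp [hf], eval_map_apply] at hr
    exact (map_eq_zero f).1 hr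
  have := int_of_root h₀ h₁ h₂ h he hd hed hq
  refine ⟨(q + 2).num - 2, ?_⟩
  have h2 := (Rat.den_eq_one_iff _).1 this
  have h3 : (((q + 2).num : ℚ) : ℝ) = ((q + 2 : ℚ) : ℝ) := by rw [h2]
  push_cast at h3 ⊢
  linarith

end

end Pool.Agent.MP_108ce6_nt.Rig

end

-- part MP_108ce6_nt.Rig.Gap
section

/-! A sparse nonnegative cosine sum cannot be the density of a functional with a gap at `-2`. -/

namespace Pool.Agent.MP_108ce6_nt.Rig

open Polynomial Finset Real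

theorem turan {ι : Type*} (R : ℕ) : ∀ (S : Finset ι) (b z : ι → ℂ), S.card ≤ R →
    (∀ i ∈ S, ‖z i‖ = 1) → ∀ q : ℕ, ‖∑ i ∈ S, b i * z i ^ q‖ ≤
      (2 * q + 1) ^ R * ∑ l ∈ range R, ‖∑ i ∈ S, b i * z i ^ l‖ := by
  classical
  induction R with
  | zero =>
    intro S b z hS _ q
    obtain rfl : S = ∅ := card_eq_zero.1 (Nat.le_zero.1 hS)
    simp
  | succ R ih =>
    intro S b z hS hz q
    rcases S.eq_empty_or_nonempty with rfl | ⟨i0, hi0⟩
    · simp
    set u : ℕ → ℂ := fun q => ∑ i ∈ S, b i * z i ^ q with hu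
    have hv : ∀ q, ∑ i ∈ S.erase i0, b i * (z i - z i0) * z i ^ q = u (q + 1) - z i0 * u q := by
      intro q
      rw [sum_erase _ (by simp), hu]
      simp only [mul_sum, ← sum_sub_distrib]
      exact sum_congr rfl fun i _ => by ring
    have h1 := ih (S.erase i0) (fun i => b i * (z i - z i0)) z
      (by rw [card_erase_of_mem hi0]; omega) (fun i hi => hz i (mem_of_mem_erase hi))
    simp only [hv] at h1
    set U : ℝ := ∑ l ∈ range (R + 1), ‖u l‖ with hU
    have hU0 : 0 ≤ U := sum_nonneg fun _ _ => norm_nonneg _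
    have hz0 : ∀ q, ‖z i0 * u q‖ = ‖u q‖ := fun q => by rw [norm_mul, hz i0 hi0, one_mul]
    have h2 : ∑ l ∈ range R, ‖u (l + 1) - z i0 * u l‖ ≤ 2 * U := by
      have a1 : ∑ l ∈ range R, ‖u (l + 1)‖ ≤ U := by
        rw [hU, sum_range_succ']; linarith [norm_nonneg (u 0)]
      have a2 : ∑ l ∈ range R, ‖u l‖ ≤ U := by
        rw [hU, sum_range_succ]; linarith [norm_nonneg (u R)]
      calc _ ≤ ∑ l ∈ range R, (‖u (l + 1)‖ + ‖u l‖) :=
            sum_le_sum fun l _ => (norm_sub_le _ _).trans (by rw [hz0])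
        _ ≤ _ := by rw [sum_add_distrib]; linarith
    show ‖u q‖ ≤ _
    induction q with
    | zero =>
      rw [hU, sum_range_succ']
      have : 0 ≤ ∑ l ∈ range R, ‖u (l + 1)‖ := sum_nonneg fun _ _ => norm_nonneg _
      simpa using this
    | succ q hq =>
      have a1 : ‖u (q + 1)‖ ≤ ‖u (q + 1) - z i0 * u q‖ + ‖u q‖ := by
        rw [← hz0 q]; exact norm_le_norm_sub_add _ _
      have a2 := (h1 q).trans (mul_le_mul_of_nonneg_left h2 (by positivity))
      have a3 : (2 * (q : ℝ) + 1) ^ R ≤ (2 * q + 3) ^ R := by gcongr; norm_num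
      calc _ ≤ (2 * (q : ℝ) + 1) ^ R * (2 * U) + (2 * q + 1) ^ (R + 1) * U := by linarith
        _ = (2 * (q : ℝ) + 1) ^ R * ((2 * q + 3) * U) := by ring
        _ ≤ (2 * (q : ℝ) + 3) ^ R * ((2 * q + 3) * U) := by gcongr
        _ = _ := by push_cast; ring

/-- The normalised Dirichlet kernel. -/
noncomputable def gapD (b : ℕ) (φ : ℝ) : ℝ :=
  (1 + ∑ j ∈ range b, 2 * cos ((j + 1 : ℕ) * φ)) / (2 * b + 1)

theorem gapD_sin (b : ℕ) (φ : ℝ) :
    (2 * b + 1) * (sin (φ / 2) * gapD b φ) = sin ((2 * b + 1) * (φ / 2)) := by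
  have h : sin (φ / 2) * (1 + ∑ j ∈ range b, 2 * cos ((j + 1 : ℕ) * φ)) =
      sin ((2 * b + 1) * (φ / 2)) := by
    induction b with
    | zero => simp
    | succ b ih =>
      rw [sum_range_succ, ← add_assoc, mul_add, ih]
      have e1 : (2 * (b : ℝ) + 1) * (φ / 2) = (b + 1 : ℕ) * φ - φ / 2 := by push_cast; ring
      have e2 : (2 * ((b + 1 : ℕ) : ℝ) + 1) * (φ / 2) = (b + 1 : ℕ) * φ + φ / 2 := by
        push_cast; ring
      rw [e1, e2, sin_sub, sin_add]; ring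
  rw [← h, gapD]
  field_simp

theorem gapD_abs (b : ℕ) (φ : ℝ) : |gapD b φ| ≤ 1 := by
  rw [gapD, abs_div, abs_of_pos (by positivity : (0 : ℝ) < 2 * b + 1), div_le_one (by positivity)]
  refine (abs_add_le _ _).trans ?_
  have : |∑ j ∈ range b, 2 * cos ((j + 1 : ℕ) * φ)| ≤ ∑ _j ∈ range b, (2 : ℝ) :=
    (abs_sum_le_sum_abs _ _).trans (sum_le_sum fun j _ => by
      rw [abs_mul, abs_two]; linarith [abs_cos_le_one ((j + 1 : ℕ) * φ)])
  simp only [sum_const, card_range, nsmul_eq_mul] at this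
  rw [abs_one]; linarith

theorem gapD_half (b : ℕ) (φ : ℝ) (h0 : 0 ≤ φ) (h : b * φ ≤ 1) : 1 / 2 ≤ gapD b φ := by
  rw [gapD, le_div_iff₀ (by positivity)]
  have : ∑ _j ∈ range b, (1 : ℝ) ≤ ∑ j ∈ range b, 2 * cos ((j + 1 : ℕ) * φ) :=
    sum_le_sum fun j hj => by
      have a1 : ((j + 1 : ℕ) : ℝ) ≤ b := by exact_mod_cast mem_range.1 hj
      have a2 : ((j + 1 : ℕ) : ℝ) * φ ≤ 1 := (mul_le_mul_of_nonneg_right a1 h0).trans h
      have a3 : 0 ≤ ((j + 1 : ℕ) : ℝ) * φ := by positivity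
      nlinarith [one_sub_sq_div_two_le_cos (x := ((j + 1 : ℕ) : ℝ) * φ)]
  simp only [sum_const, card_range, nsmul_eq_mul, mul_one] at this
  linarith

theorem gapD_refl (b : ℕ) (φ : ℝ) : gapD b (2 * π - φ) = gapD b φ := by
  unfold gapD
  congr 2
  refine sum_congr rfl fun j _ => ?_
  rw [mul_sub, cos_nat_mul_two_pi_sub]

theorem gapD_sq (b : ℕ) (φ : ℝ) :
    (2 - 2 * cos φ) * gapD b φ ^ 2 ≤ 4 / (2 * b + 1) ^ 2 := by
  have h1 := gapD_sin b φ
  have h2 : cos φ = 1 - 2 * sin (φ / 2) ^ 2 := by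
    have := cos_two_mul (φ / 2)
    rw [mul_div_cancel₀ _ two_ne_zero] at this
    nlinarith [sin_sq_add_cos_sq (φ / 2)]
  have h3 := sin_sq_le_one ((2 * b + 1) * (φ / 2))
  rw [le_div_iff₀ (by positivity), h2]
  rw [← h1] at h3
  nlinarith

theorem gapD_decay (b K l : ℕ) (hK : 1 ≤ K) (hl : 2 * l ≤ K * (2 * b + 1)) :
    |gapD b (2 * π * l / (K * (2 * b + 1) : ℕ))| ≤ K / (l + 1) := by
  have hK' : (1 : ℝ) ≤ K := by exact_mod_cast hK
  rcases Nat.eq_zero_or_pos l with rfl | hl0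
  · exact (gapD_abs _ _).trans (by simpa using hK')
  have hl1 : (1 : ℝ) ≤ l := by exact_mod_cast hl0
  have hl' : 2 * (l : ℝ) ≤ K * (2 * b + 1) := by exact_mod_cast hl
  set φ : ℝ := 2 * π * l / (K * (2 * b + 1) : ℕ) with hφ
  have hM : (0 : ℝ) < K * (2 * b + 1) := by positivity
  have e : φ / 2 = π * (l / (K * (2 * b + 1))) := by rw [hφ]; push_cast; field_simp
  have h1 : 2 / π * (φ / 2) ≤ sin (φ / 2) := mul_le_sin (by rw [e]; positivity) (by
    rw [e, div_eq_mul_one_div π 2]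
    exact mul_le_mul_of_nonneg_left (by rw [div_le_div_iff₀ hM two_pos]; linarith) pi_pos.le)
  have h2 : 2 / π * (φ / 2) = 2 * l / (K * (2 * b + 1)) := by rw [e]; field_simp
  rw [h2] at h1
  have h3 : (2 * b + 1) * (sin (φ / 2) * |gapD b φ|) ≤ 1 := by
    have := abs_sin_le_one ((2 * b + 1) * (φ / 2))
    rwa [← gapD_sin, abs_mul, abs_mul, abs_of_pos (by positivity : (0 : ℝ) < 2 * b + 1),
      abs_of_nonneg (le_trans (by positivity) h1)] at this
  have h4 : (2 * b + 1) * (2 * l / (K * (2 * b + 1)) * |gapD b φ|) ≤ 1 :=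
    le_trans (by gcongr) h3
  have h5 : (2 * (b : ℝ) + 1) * (2 * l / (K * (2 * b + 1)) * |gapD b φ|) =
      2 * l * |gapD b φ| / K := by field_simp
  rw [h5, div_le_one (by positivity)] at h4
  rw [le_div_iff₀ (by positivity)]
  nlinarith [abs_nonneg (gapD b φ)]

theorem gap_poly (b : ℕ) : ∃ d : ℝ[X], d.natDegree ≤ b ∧
    ∀ φ : ℝ, d.eval (0 + 2 * cos (π + φ)) = gapD b φ := by
  refine ⟨(1 / (2 * b + 1) : ℝ) • (1 + ∑ j ∈ range b, ((-1 : ℝ) ^ (j + 1)) • ch 0 (j + 1 : ℕ)),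
    (natDegree_smul_le _ _).trans (natDegree_add_le_of_degree_le (by simp)
      (natDegree_sum_le_of_forall_le _ _ fun j hj => (natDegree_smul_le _ _).trans
        ((natDegree_ch_le _ _).trans (mem_range.1 hj)))), fun φ => ?_⟩
  simp only [eval_smul, eval_add, eval_one, eval_finsetSum, ch_eval, smul_eq_mul, gapD]
  rw [one_div_mul_eq_div]
  congr 2
  refine sum_congr rfl fun j _ => ?_
  rw [Int.cast_natCast, mul_add, add_comm (_ * π), cos_add_nat_mul_pi, mul_left_comm, ← mul_assoc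
    ((-1 : ℝ) ^ (j + 1)), ← mul_pow]
  simp

theorem gap_turan {ι : Type} (R : ℕ) (S : Finset ι) (k : ι → ℤ) (τ : ι → ℝ) (h : ℝ)
    (hS : S.card ≤ R) (q : ℕ) : |∑ i ∈ S, τ i * cos (k i * (π + h * q))| ≤
      (2 * q + 1) ^ (2 * R) * ∑ l ∈ range (2 * R), |∑ i ∈ S, τ i * cos (k i * (π + h * l))| := by
  have := turan (2 * R) (S ×ˢ ({1, -1} : Finset ℝ))
    (fun x => τ x.1 / 2 * Complex.exp ((x.2 * k x.1 * π : ℝ) * Complex.I))
    (fun x => Complex.exp ((x.2 * k x.1 * h : ℝ) * Complex.I))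
    (by rw [card_product, card_pair (by norm_num)]; omega)
    (fun x _ => Complex.norm_exp_ofReal_mul_I _) q
  have e : ∀ l : ℕ, ∑ x ∈ S ×ˢ ({1, -1} : Finset ℝ),
      τ x.1 / 2 * Complex.exp ((x.2 * k x.1 * π : ℝ) * Complex.I) *
        Complex.exp ((x.2 * k x.1 * h : ℝ) * Complex.I) ^ l =
      ((∑ i ∈ S, τ i * cos (k i * (π + h * l)) : ℝ) : ℂ) := fun l => by
    rw [sum_product, Complex.ofReal_sum]
    refine sum_congr rfl fun i _ => ?_
    rw [sum_pair (by norm_num)]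
    simp only [← Complex.exp_nat_mul, mul_assoc _ (Complex.exp _), ← Complex.exp_add]
    push_cast
    rw [Complex.cos, mul_div_assoc', mul_add, add_div]
    congr 1
    · rw [div_mul_eq_mul_div]; congr 3; ring
    · rw [div_mul_eq_mul_div]; congr 3; ring
  simpa only [e, Complex.norm_real, Real.norm_eq_abs] using this

theorem gap_sum (M : ℕ) : ∑ l ∈ range M, 1 / ((l : ℝ) + 1) ^ 2 ≤ 2 := by
  have : ∑ l ∈ range M, 1 / ((l : ℝ) + 1) ^ 2 ≤ 2 - 2 / ((M : ℝ) + 1) := by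
    induction M with
    | zero => simp
    | succ M ih =>
      rw [sum_range_succ]
      have : 1 / ((M : ℝ) + 1) ^ 2 ≤ 2 / (M + 1) - 2 / ((M + 1 : ℕ) + 1) := by
        push_cast
        rw [div_sub_div _ _ (by positivity) (by positivity),
          div_le_div_iff₀ (by positivity) (by positivity)]
        have : (0 : ℝ) ≤ M := by positivity
        nlinarith [sq_nonneg (M : ℝ), mul_nonneg this (sq_nonneg (M : ℝ))]
      linarith
  have h : (0 : ℝ) ≤ 2 / (M + 1) := by positivity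
  linarith

theorem gap (R lam0 : ℕ) : ∃ lam : ℕ, ∀ {ι : Type} (S : Finset ι) (k : ι → ℤ) (τ : ι → ℝ)
    (L : ℝ[X] →ₗ[ℝ] ℝ) (δ : ℝ) (N : ℕ), 1 ≤ δ * N ^ 2 → S.card ≤ R →
    (∀ i ∈ S, |k i| ≤ lam0 * N) → (∀ θ : ℝ, 0 ≤ ∑ i ∈ S, τ i * cos (k i * θ)) →
    (∀ j : ℤ, |j| ≤ lam * N → L (ch 0 j) = ∑ i ∈ S with k i = j, τ i) →
    (∀ f : ℝ[X], 0 ≤ L ((X + C (2 - δ)) * f ^ 2)) → L 1 ≤ 0 := by
  obtain ⟨K, hK⟩ : ∃ K, K = 9 * R + lam0 + 3 := ⟨_, rfl⟩
  obtain ⟨C1, hC1⟩ : ∃ C1, C1 = K ^ (2 * R + 2) * 2 ^ (2 * R) := ⟨_, rfl⟩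
  obtain ⟨A, hA⟩ : ∃ A, A = 4 ^ (R + 3) * C1 + 1 := ⟨_, rfl⟩
  refine ⟨2 * (R + 2) * A + 1, ?_⟩
  intro ι S k τ L δ N hδ hS hk hρ hL hpos
  have hN : 1 ≤ N := Nat.pos_of_ne_zero (by rintro rfl; norm_num at hδ)
  have hδ0 : 0 < δ := by
    by_contra h
    have : δ * N ^ 2 ≤ 0 := mul_nonpos_of_nonpos_of_nonneg (not_lt.1 h) (by positivity)
    linarith
  obtain ⟨b, hb⟩ : ∃ b, b = A * N := ⟨_, rfl⟩
  have hNb : N ≤ b := by rw [hb]; exact Nat.le_mul_of_pos_left _ (by omega)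
  obtain ⟨M, hM⟩ : ∃ M, M = K * (2 * b + 1) := ⟨_, rfl⟩
  have hMK : K ≤ M := by rw [hM]; exact Nat.le_mul_of_pos_right _ (by omega)
  have hM0 : (0 : ℝ) < M := by exact_mod_cast (show 0 < M by omega)
  set u : ℝ → ℝ := fun φ => ∑ i ∈ S, τ i * cos (k i * (π + φ)) with hu
  have hu0 : ∀ φ, 0 ≤ u φ := fun φ => hρ _
  set φ : ℕ → ℝ := fun l => 2 * π * l / M with hφ
  have hquad : ∀ g : ℝ[X], g.natDegree ≤ 2 * (R + 2) * b + 1 →
      ∑ l ∈ range M, g.eval (0 + 2 * cos (π + φ l)) * u (φ l) = 2 * M * L g := by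
    intro g hg
    obtain ⟨β, rfl⟩ := ch_rep 0 _ g hg
    simp only [eval_finsetSum, eval_smul, smul_eq_mul, sum_mul, map_sum, map_smul, mul_sum]
    rw [sum_comm]
    refine sum_congr rfl fun j hj => ?_
    have hj' : j ≤ 2 * (R + 2) * b + 1 := Nat.lt_succ_iff.1 (mem_range.1 hj)
    have a1 : |(j : ℤ)| ≤ (2 * (R + 2) * A + 1 : ℕ) * N := by
      rw [Nat.abs_cast]
      have : j ≤ (2 * (R + 2) * A + 1) * N := by rw [hb] at hj'; nlinarith
      exact_mod_cast this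
    have a2 := quad S k τ 0 π M j fun i hi => by
      have a3 : lam0 * N + j < M := by
        have : lam0 * N ≤ lam0 * b := Nat.mul_le_mul_left _ hNb
        rw [hM, hK]; nlinarith [Nat.zero_le (R * b), Nat.zero_le (lam0 * b)]
      have a4 : (lam0 : ℤ) * N + j < M := by exact_mod_cast a3
      rw [Nat.abs_cast]
      linarith [hk i hi]
    rw [← hL j a1, ← hL (-j) (by rwa [abs_neg]), ch_neg] at a2
    simp only [mul_assoc (β j), ← mul_sum]
    rw [a2]; ring
  set U : ℝ := ∑ l ∈ range (2 * R), u (φ l) with hU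
  have hU0 : 0 ≤ U := sum_nonneg fun _ _ => hu0 _
  have htur : ∀ q : ℕ, u (φ q) ≤ (2 * q + 1) ^ (2 * R) * U := fun q => by
    have := gap_turan R S k τ (2 * π / M) hS q
    simp only [div_mul_eq_mul_div] at this
    rw [abs_of_nonneg (hu0 (φ q))] at this
    refine this.trans_eq ?_
    rw [hU]
    congr 1
    exact sum_congr rfl fun l _ => abs_of_nonneg (hu0 (φ l))
  set T : ℕ → ℝ := fun l => gapD b (φ l) ^ (2 * R + 2) * u (φ l) with hT
  have hT1 : ∀ l : ℕ, 2 * l ≤ M → T l ≤ C1 * U * (1 / ((l : ℝ) + 1) ^ 2) := fun l hl => by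
    have a1 : |gapD b (φ l)| ≤ K / (l + 1) := by
      have := gapD_decay b K l (by omega) (hM ▸ hl)
      rwa [← hM] at this
    have a2 : gapD b (φ l) ^ (2 * R + 2) ≤ (K / (l + 1)) ^ (2 * R + 2) := by
      rw [← Even.pow_abs ⟨R + 1, by ring⟩]; gcongr
    have a3 : u (φ l) ≤ (2 * (l + 1)) ^ (2 * R) * U :=
      (htur l).trans (by gcongr; linarith)
    calc T l ≤ (K / (l + 1)) ^ (2 * R + 2) * ((2 * (l + 1)) ^ (2 * R) * U) :=
          mul_le_mul a2 a3 (hu0 _) (by positivity)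
      _ = _ := by rw [hC1]; push_cast; rw [div_pow, mul_pow]; field_simp; ring
  have hT2 : ∑ l ∈ range M, T l ≤ 4 * (C1 * U) := by
    have a0 : (0 : ℝ) ≤ C1 * U := by positivity
    have a1 : ∀ l ∈ range M, T l ≤ C1 * U * (1 / ((l : ℝ) + 1) ^ 2) +
        C1 * U * (1 / (((M - 1 - l : ℕ) : ℝ) + 1) ^ 2) := fun l hl => by
      have hl := mem_range.1 hl
      rcases le_total (2 * l) M with h | h
      · exact (hT1 l h).trans (le_add_of_nonneg_right (by positivity))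
      have e : φ l = 2 * π - φ (M - l) := by
        simp only [hφ]; rw [Nat.cast_sub hl.le]; field_simp; ring
      have e2 : T l = T (M - l) := by
        simp only [hT, e, gapD_refl, hu]
        congr 1
        refine sum_congr rfl fun i _ => ?_
        rw [← cos_neg, ← cos_add_int_mul_two_pi _ (2 * k i)]
        congr 2; push_cast; ring
      rw [e2]
      refine (hT1 _ (by omega)).trans (le_add_of_nonneg_of_le (by positivity) ?_)
      have : ((M - 1 - l : ℕ) : ℝ) ≤ (M - l : ℕ) := by exact_mod_cast (by omega)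
      gcongr
    refine (sum_le_sum a1).trans ?_
    rw [sum_add_distrib, ← mul_sum, ← mul_sum,
      sum_range_reflect (fun l : ℕ => 1 / ((l : ℝ) + 1) ^ 2)]
    nlinarith [gap_sum M]
  obtain ⟨d, hd, hde⟩ := gap_poly b
  have hmain := hquad ((X + C (2 - δ)) * (d ^ (R + 2)) ^ 2) (by
    refine natDegree_mul_le.trans ?_
    rw [natDegree_X_add_C, natDegree_pow, natDegree_pow]
    nlinarith)
  simp only [eval_mul, eval_add, eval_X, eval_C, eval_pow, hde] at hmain
  have hlow : U / 4 ^ (R + 2) ≤ ∑ l ∈ range M, (gapD b (φ l) ^ (R + 2)) ^ 2 * u (φ l) := by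
    rw [hU, sum_div]
    refine le_trans (sum_le_sum fun l hl => ?_) (sum_le_sum_of_subset_of_nonneg
      (range_subset_range.2 (show 2 * R ≤ M by omega)) fun l _ _ => mul_nonneg (sq_nonneg _) (hu0 _))
    have a1 : 1 / 2 ≤ gapD b (φ l) := gapD_half b _ (by simp only [hφ]; positivity) (by
      have a2 : 8 * (b * l) ≤ M := by
        have := mem_range.1 hl
        rw [hM, hK]; nlinarith [Nat.zero_le (lam0 * b), Nat.zero_le (R * b)]
      have a3 : 8 * ((b : ℝ) * l) ≤ M := by exact_mod_cast a2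
      simp only [hφ]
      rw [← mul_div_assoc, div_le_one hM0]
      have : (0 : ℝ) ≤ b * l := by positivity
      nlinarith [pi_le_four])
    have a2 : (1 / 4 ^ (R + 2) : ℝ) ≤ (gapD b (φ l) ^ (R + 2)) ^ 2 := by
      calc (1 / 4 ^ (R + 2) : ℝ) = ((1 / 2) ^ (R + 2)) ^ 2 := by
            rw [← pow_mul, mul_comm, pow_mul, ← one_div_pow]; norm_num
        _ ≤ _ := by gcongr
    rw [div_eq_mul_one_div, mul_comm]
    exact mul_le_mul_of_nonneg_right a2 (hu0 _)
  have hup : 2 * M * L ((X + C (2 - δ)) * (d ^ (R + 2)) ^ 2) ≤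
      4 / (2 * b + 1) ^ 2 * (4 * (C1 * U)) - δ * (U / 4 ^ (R + 2)) := by
    rw [← hmain]
    calc _ ≤ ∑ l ∈ range M, (4 / (2 * b + 1) ^ 2 * T l -
          δ * ((gapD b (φ l) ^ (R + 2)) ^ 2 * u (φ l))) := sum_le_sum fun l _ => by
          have a1 := mul_le_mul_of_nonneg_right (gapD_sq b (φ l)) (show 0 ≤ T l from
            mul_nonneg (Even.pow_nonneg ⟨R + 1, by ring⟩ _) (hu0 _))
          refine le_trans (le_of_eq ?_) (sub_le_sub_right a1 _)
          simp only [hT]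
          rw [add_comm π, cos_add_pi]; ring
      _ ≤ _ := by
          rw [sum_sub_distrib, ← mul_sum, ← mul_sum]
          gcongr
  have hUz : U = 0 := by
    by_contra hne
    have hUp : 0 < U := lt_of_le_of_ne hU0 (Ne.symm hne)
    have a1 : 0 ≤ 4 / (2 * (b : ℝ) + 1) ^ 2 * (4 * (C1 * U)) - δ * (U / 4 ^ (R + 2)) :=
      le_trans (mul_nonneg (by positivity) (hpos _)) hup
    have a2 : δ * (2 * b + 1) ^ 2 ≤ 16 * C1 * 4 ^ (R + 2) := by
      rw [sub_nonneg, div_mul_eq_mul_div, ← mul_div_assoc,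
        div_le_div_iff₀ (by positivity) (by positivity)] at a1
      refine le_of_mul_le_mul_right ?_ hUp
      linarith
    have a3 : (A : ℝ) = 4 * (C1 * 4 ^ (R + 2)) + 1 := by rw [hA]; push_cast; ring
    have a4 : 4 * (A : ℝ) ^ 2 * (δ * N ^ 2) ≤ δ * (2 * b + 1) ^ 2 := by
      calc _ = δ * (2 * b) ^ 2 := by rw [hb]; push_cast; ring
        _ ≤ _ := by gcongr; linarith
    have a5 : (0 : ℝ) ≤ C1 * 4 ^ (R + 2) := by positivity
    have a6 : 4 * (A : ℝ) ^ 2 ≤ 4 * (A : ℝ) ^ 2 * (δ * N ^ 2) :=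
      le_mul_of_one_le_right (by positivity) hδ
    nlinarith
  have h1 := hquad 1 (by simp)
  have h2 : ∑ l ∈ range M, (1 : ℝ[X]).eval (0 + 2 * cos (π + φ l)) * u (φ l) ≤ 0 :=
    sum_nonpos fun l _ => by
      have := htur l
      rw [hUz, mul_zero] at this
      simpa using this
  rw [h1] at h2
  by_contra h
  have : 0 < 2 * M * L 1 := mul_pos (by positivity) (not_le.1 h)
  linarith

end Pool.Agent.MP_108ce6_nt.Rig

end

-- part MP_108ce6_nt.Rig.Struct
section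

namespace Pool.Agent.MP_108ce6_nt.Rig

section

/-! Integer valued positive definite functions on abelian groups. -/

open Finset Filter Topology
open scoped InnerProductSpace

variable {Γ : Type} [AddCommGroup Γ]

/-- Second difference with step `b`. -/
def dl (b : Γ) (τ : Γ → ℤ) : Γ → ℤ := fun k => 2 * τ k - τ (k + b) - τ (k - b)

/-- Iterated fourth differences. -/
def dls (bs : List Γ) (τ : Γ → ℤ) : Γ → ℤ := bs.foldr (fun b σ => dl b (dl b σ)) τ

/-- Positive definite even function. -/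
def PD (τ : Γ → ℤ) : Prop := (∀ k, τ (-k) = τ k) ∧
  ∀ (S : Finset Γ) (c : Γ → ℝ), 0 ≤ ∑ a ∈ S, ∑ b ∈ S, c a * c b * τ (a - b)

/-- `τ` is the Gram function of a stationary family of vectors of `H`. -/
def Rep (H : Type) [NormedAddCommGroup H] [InnerProductSpace ℝ H] (τ : Γ → ℤ) : Prop :=
  ∃ e : Γ → H, ∀ k l, ⟪e k, e l⟫_ℝ = τ (k - l)

theorem gns {τ : Γ → ℤ} (h : PD τ) : ∃ (H : Type) (_ : NormedAddCommGroup H)
    (_ : InnerProductSpace ℝ H) (_ : CompleteSpace H), Rep H τ := by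
  let K : Matrix Γ Γ (ℝ →L[ℝ] ℝ) := Matrix.of fun a b => (τ (a - b) : ℝ) • (1 : ℝ →L[ℝ] ℝ)
  have hK : ∀ a b (v w : ℝ), ⟪K a b v, w⟫_ℝ = w * v * τ (a - b) := fun a b v w => by
    simp only [K, Matrix.of_apply, smul_apply, one_apply_eq_self, smul_eq_mul,
      Real.inner_apply]
    ring
  have hP : K.PosSemidef := by
    have t := (RKHS.posSemidef_tfae (K := K)).out 2 0
    refine t.mp (And.intro ?_ fun v => ?_)
    · ext1 a b
      simp only [K, Matrix.conjTranspose_apply, Matrix.of_apply, star_smul, star_trivial, star_one]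
      rw [← h.1, neg_sub]
    · simp only [hK, RCLike.re_to_real, Finsupp.sum]
      rw [sum_comm]
      exact h.2 _ _
  have : Fact K.PosSemidef := ⟨hP⟩
  refine ⟨RKHS.OfKernel K, inferInstance, inferInstance, inferInstance,
    fun k => RKHS.kerFun (RKHS.OfKernel K) k (1 : ℝ), fun k l => ?_⟩
  rw [← RKHS.kernel_inner, RKHS.OfKernel.kernel_ofKernel, hK, ← h.1, neg_sub]
  ring

variable {H : Type} [NormedAddCommGroup H] [InnerProductSpace ℝ H]

theorem Rep.dl {τ : Γ → ℤ} (h : Rep H τ) (b : Γ) : Rep H (dl b τ) := by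
  obtain ⟨e, he⟩ := h
  refine ⟨fun k => e k - e (k + b), fun k l => ?_⟩
  simp only [inner_sub_left, inner_sub_right, he, Rig.dl]
  push_cast
  rw [show k - (l + b) = k - l - b by abel, show k + b - l = k - l + b by abel,
    show k + b - (l + b) = k - l by abel]
  ring

theorem Rep.dls {τ : Γ → ℤ} (h : Rep H τ) (bs : List Γ) : Rep H (dls bs τ) := by
  induction bs with
  | nil => exact h
  | cons b bs ih => exact (ih.dl b).dl b

theorem exists_wlim [CompleteSpace H] {ι : Type} (U : Ultrafilter ι) (x : ι → H) (B : ℝ)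
    (hx : ∀ i, ‖x i‖ ≤ B) : ∃ y : H, ∀ z, Tendsto (fun i => ⟪x i, z⟫_ℝ) U (𝓝 ⟪y, z⟫_ℝ) := by
  obtain ⟨φ, -, hφ⟩ := (WeakDual.isCompact_closedBall (0 : StrongDual ℝ H) B).ultrafilter_le_nhds
    (U.map fun i => StrongDual.toWeakDual (InnerProductSpace.toDual ℝ H (x i))) (by
      rw [le_principal_iff, Ultrafilter.mem_coe, Ultrafilter.mem_map]
      refine univ_mem' fun i => ?_
      simpa using hx i)
  refine ⟨(InnerProductSpace.toDual ℝ H).symm (WeakDual.toStrongDual φ), fun z => ?_⟩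
  rw [InnerProductSpace.toDual_symm_apply]
  exact ((WeakDual.eval_continuous z).tendsto φ).comp hφ

theorem struct_int {ι : Type} {U : Filter ι} [U.NeBot] {g : ι → ℤ} {c : ℝ}
    (h : Tendsto (fun i => (g i : ℝ)) U (𝓝 c)) : ∃ z : ℤ, c = z ∧ ∀ᶠ i in U, g i = z := by
  have h1 := Metric.tendsto_nhds.1 h (1 / 2) (by norm_num)
  obtain ⟨j, hj⟩ := h1.exists
  have h2 : ∀ᶠ i in U, g i = g j := h1.mono fun i hi => by
    have h3 := dist_triangle_right (g i : ℝ) (g j) c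
    have h4 : |g i - g j| < 1 := by
      have : |(g i : ℝ) - g j| < 1 := by rw [← Real.dist_eq]; linarith
      exact_mod_cast this
    have := abs_lt.1 h4
    omega
  exact ⟨g j, tendsto_nhds_unique h (tendsto_const_nhds.congr' (h2.mono fun i hi => congrArg Int.cast hi.symm)), h2⟩

/-- `f l` is the weak limit of `e (l + k)` along `W`. -/
def StructLim (W : Ultrafilter Γ) (e f : Γ → H) : Prop :=
  ∀ l z, Tendsto (fun k => ⟪e (l + k), z⟫_ℝ) W (𝓝 ⟪f l, z⟫_ℝ)

theorem StructLim.gram {W : Ultrafilter Γ} {x x' y : Γ → H} (h : StructLim W x x') {σ : Γ → ℤ}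
    (hσ : ∀ k l, ⟪x k, y l⟫_ℝ = σ (k - l)) :
    ∃ ρ : Γ → ℤ, (∀ k l, ⟪x' k, y l⟫_ℝ = ρ (k - l)) ∧ ∀ d, ∀ᶠ j in (W : Filter Γ), σ (d + j) = ρ d := by
  have h1 : ∀ k l, Tendsto (fun j => (σ (k - l + j) : ℝ)) W (𝓝 ⟪x' k, y l⟫_ℝ) := fun k l =>
    (h k (y l)).congr fun j => by rw [hσ, add_sub_right_comm]
  choose ρ h2 h3 using fun d => struct_int (h1 d 0)
  simp only [sub_zero] at h3
  refine ⟨ρ, fun k l => ?_, h3⟩
  rw [← h2]
  exact tendsto_nhds_unique (h1 k l) (by simpa only [sub_zero] using h1 (k - l) 0)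

theorem StructLim.gram₂ {W : Ultrafilter Γ} {x x' : Γ → H} (h : StructLim W x x') {σ : Γ → ℤ}
    (hσ : ∀ k l, ⟪x k, x l⟫_ℝ = σ (k - l)) :
    ∃ ρ α : Γ → ℤ, (∀ k l, ⟪x' k, x l⟫_ℝ = ρ (k - l)) ∧ (∀ k l, ⟪x' k, x' l⟫_ℝ = α (k - l)) ∧
      ∀ᶠ j in (W : Filter Γ), ρ (-j) = α 0 := by
  obtain ⟨ρ, h1, -⟩ := h.gram hσ
  obtain ⟨α, h2, h3⟩ := h.gram (y := x') (σ := fun d => ρ (-d)) fun k l => by
    rw [real_inner_comm, h1, neg_sub]
  exact ⟨ρ, α, h1, h2, by simpa only [zero_add] using h3 0⟩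

theorem StructLim.bind {V W : Ultrafilter Γ} {e f g : Γ → H} (h : StructLim W e f) (h' : StructLim V f g) :
    StructLim (V.bind fun k => W.map fun j => k + j) e g := fun l z => by
  rw [(nhds_basis_opens _).tendsto_right_iff]
  rintro s ⟨hs, ho⟩
  refine eventually_bind.2 (((h' l z).eventually (ho.eventually_mem hs)).mono fun k hk => ?_)
  refine ((h (l + k) z).eventually (ho.eventually_mem hk)).mono fun j hj => ?_
  rw [add_assoc] at hj
  exact hj

theorem struct_new [CompleteSpace H] {x y : Γ → H} {σ β : Γ → ℤ} (hσ : ∀ k l, ⟪x k, x l⟫_ℝ = σ (k - l))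
    (hβ : ∀ k l, ⟪x k, y l⟫_ℝ = β (k - l)) (hs : (Function.support β).Infinite) :
    ∃ (W : Ultrafilter Γ) (f : Γ → H), ↑W ≤ (cofinite : Filter Γ) ∧ StructLim W x f ∧ f 0 ≠ 0 := by
  have := hs.cofinite_inf_principal_neBot
  have hW := Ultrafilter.of_le (cofinite ⊓ 𝓟 (Function.support β))
  set W := Ultrafilter.of (cofinite ⊓ 𝓟 (Function.support β))
  have hn : ∀ k, ‖x k‖ ≤ √(σ 0) := fun k =>
    Real.le_sqrt_of_sq_le (by rw [← real_inner_self_eq_norm_sq, hσ, sub_self])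
  choose f hf using fun l => exists_wlim W (fun k => x (l + k)) _ fun k => hn _
  obtain ⟨ρ, h1, h2⟩ := StructLim.gram hf hβ
  refine ⟨W, f, hW.trans inf_le_left, hf, fun h0 => ?_⟩
  obtain ⟨j, h3, h4⟩ := ((h2 0).and (le_principal_iff.1 (hW.trans inf_le_right))).exists
  have h5 := h1 0 0
  rw [h0, inner_zero_left, sub_zero, ← h3, zero_add] at h5
  exact h4 (by exact_mod_cast h5.symm)

/-- A periodic part can be split off. -/
theorem struct_split [CompleteSpace H] {τ : Γ → ℤ} (h : Rep H τ) (hs : (Function.support τ).Infinite) :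
    ∃ (b : Γ) (φ : Γ → ℤ), b ≠ 0 ∧ Function.Periodic φ b ∧ 0 < φ 0 ∧ Rep H (τ - φ) := by
  classical
  obtain ⟨e, he⟩ := h
  have nat : ∀ (W : Ultrafilter Γ) (f : Γ → H), StructLim W e f → ∃ m : ℕ, ⟪f 0, f 0⟫_ℝ = m := fun W f hf => by
    obtain ⟨-, α, -, h2, -⟩ := hf.gram₂ he
    have h3 : (0 : ℝ) ≤ α (0 - 0) := h2 0 0 ▸ real_inner_self_nonneg
    obtain ⟨m, hm⟩ := Int.eq_ofNat_of_zero_le (a := α (0 - 0)) (by exact_mod_cast h3)
    exact ⟨m, by rw [h2, hm, Int.cast_natCast]⟩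
  have ex : ∃ m : ℕ, ∃ (W : Ultrafilter Γ) (f : Γ → H), ↑W ≤ (cofinite : Filter Γ) ∧ StructLim W e f ∧ f 0 ≠ 0 ∧
      ⟪f 0, f 0⟫_ℝ = m := by
    obtain ⟨W, f, h1, h2, h3⟩ := struct_new he he hs
    obtain ⟨m, hm⟩ := nat W f h2
    exact ⟨m, W, f, h1, h2, h3, hm⟩
  obtain ⟨W, f, hW, hf, h0, hm⟩ := Nat.find_spec ex
  obtain ⟨ρ, α, hρ, hα, hj⟩ := hf.gram₂ he
  have α0 : 0 < α 0 := by
    have := real_inner_self_pos.2 h0
    rw [hα, sub_zero] at this
    exact_mod_cast this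
  have hinf : (Function.support ρ).Infinite := fun hfin => by
    have h1 : ∀ᶠ j in (W : Filter Γ), -j ∉ Function.support ρ :=
      hW (hfin.preimage neg_injective.injOn).compl_mem_cofinite
    obtain ⟨j, h2, h3⟩ := (hj.and h1).exists
    exact h3 (by rw [Function.mem_support, h2]; exact α0.ne')
  obtain ⟨V, g, hV, hg, g0⟩ := struct_new hα hρ hinf
  obtain ⟨β, α', hβ, hα', hj'⟩ := hg.gram₂ hα
  obtain ⟨m, hm'⟩ := nat _ g (hf.bind hg)
  have hle : Nat.find ex ≤ m := Nat.find_min' ex ⟨_, g, bind_le (Eventually.of_forall fun k =>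
    ((add_right_injective k).tendsto_cofinite.mono_left hW :)), hf.bind hg, g0, hm'⟩
  have hle' : (α 0 : ℝ) ≤ α' 0 := by
    have h1 := hα 0 0
    have h2 := hα' 0 0
    rw [sub_zero] at h1 h2
    rw [← h1, ← h2, hm, hm']
    exact_mod_cast hle
  have heq : ∀ᶠ j in (V : Filter Γ), f j = g 0 := hj'.mono fun j h1 => by
    rw [← sub_eq_zero, ← real_inner_self_nonpos, inner_sub_left, inner_sub_right, inner_sub_right,
      real_inner_comm (g 0) (f j), hα, hβ, hα', sub_self, zero_sub, sub_zero, h1]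
    linarith
  have hinf' : {j | f j = g 0}.Infinite := fun hfin => by
    obtain ⟨j, h1, h2⟩ := (heq.and (hV hfin.compl_mem_cofinite)).exists
    exact h2 h1
  obtain ⟨k, hk, k', hk', hne⟩ := hinf'.nontrivial
  have hkk : f k = f k' := hk.trans hk'.symm
  have per : ∀ l, f (l + (k - k')) = f l := fun l => by
    have h1 := hα k k'
    have h2 := hα k' k
    rw [← hkk, hα, sub_self] at h1 h2
    rw [← sub_eq_zero, ← real_inner_self_nonpos, inner_sub_left, inner_sub_right, inner_sub_right, hα, hα, hα, hα,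
      sub_self, sub_self, add_sub_cancel_left, sub_add_cancel_left, neg_sub, ← h1, ← h2]
    linarith
  have pρ : Function.Periodic ρ (k - k') := fun d => by
    have h1 := hρ (d + (k - k')) 0
    rw [per, hρ, sub_zero, sub_zero] at h1
    exact_mod_cast h1.symm
  have pα : Function.Periodic α (k - k') := fun d => by
    have h1 := hα (d + (k - k')) 0
    rw [per, hα, sub_zero, sub_zero] at h1
    exact_mod_cast h1.symm
  obtain ⟨j, hj0⟩ := hj.exists
  refine ⟨k - k', fun d => ρ (-d - j) + ρ (d - j) - α d, sub_ne_zero.2 hne, fun d => ?_, ?_,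
    fun l => e l - f (l - j), fun a c => ?_⟩
  · simp only
    rw [pα, add_sub_right_comm d, pρ, ← pρ (-(d + (k - k')) - j),
      show -(d + (k - k')) - j + (k - k') = -d - j by abel]
  · simp only [neg_zero, zero_sub, hj0]
    omega
  · rw [inner_sub_left, inner_sub_right, inner_sub_right, real_inner_comm (f (c - j)) (e a), he, hρ, hρ, hα,
      show c - j - a = -(a - c) - j by abel, show a - j - c = a - c - j by abel,
      show a - j - (c - j) = a - c by abel]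
    simp only [Pi.sub_apply]
    push_cast
    ring

theorem struct_dls (bs : List Γ) (σ : Γ → ℤ) {φ : Γ → ℤ} {b : Γ} (h : Function.Periodic φ b) :
    ∃ ψ, Function.Periodic ψ b ∧ dls bs (σ + φ) = dls bs σ + ψ := by
  have step : ∀ (c : Γ) (σ ψ : Γ → ℤ), Function.Periodic ψ b →
      Function.Periodic (dl c ψ) b ∧ dl c (σ + ψ) = dl c σ + dl c ψ := fun c σ ψ hψ =>
    ⟨fun d => by simp only [dl]; rw [add_right_comm, add_sub_right_comm, hψ, hψ, hψ],
      funext fun d => by simp only [dl, Pi.add_apply]; ring⟩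
  induction bs with
  | nil => exact ⟨φ, h, rfl⟩
  | cons c bs ih =>
    obtain ⟨ψ, h1, h2⟩ := ih
    refine ⟨dl c (dl c ψ), (step c 0 _ (step c 0 ψ h1).1).1, ?_⟩
    change dl c (dl c (dls bs (σ + φ))) = dl c (dl c (dls bs σ)) + _
    rw [h2, (step c _ ψ h1).2, (step c _ _ (step c 0 ψ h1).1).2]

theorem struct_fin {σ : Γ → ℤ} (h : (Function.support σ).Finite) (b : Γ) :
    (Function.support (dl b σ)).Finite := by
  refine ((h.union (h.preimage (add_left_injective b).injOn)).union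
    (h.preimage (sub_left_injective (b := b)).injOn)).subset fun d hd => ?_
  by_contra hc
  simp only [Set.mem_union, Set.mem_preimage, Function.mem_support, not_or, not_not] at hc
  exact hd (by simp only [dl, hc.1.1, hc.1.2, hc.2]; rfl)

theorem struct [CompleteSpace H] {τ : Γ → ℤ} (h : Rep H τ) :
    ∃ bs : List Γ, (∀ b ∈ bs, b ≠ 0) ∧ (Function.support (dls bs τ)).Finite := by
  have key : ∀ (M : ℕ) (τ : Γ → ℤ), Rep H τ → τ 0 < M →
      ∃ bs : List Γ, (∀ b ∈ bs, b ≠ 0) ∧ (Function.support (dls bs τ)).Finite := by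
    intro M
    induction M with
    | zero =>
      rintro τ ⟨e, he⟩ h0
      have h1 : (0 : ℝ) ≤ τ (0 - 0) := he 0 0 ▸ real_inner_self_nonneg
      rw [sub_zero] at h1
      have h2 : 0 ≤ τ 0 := by exact_mod_cast h1
      omega
    | succ M ih =>
      intro τ h h0
      by_cases hs : (Function.support τ).Finite
      · exact ⟨[], by simp, hs⟩
      obtain ⟨b, φ, hb, hφ, h1, h2⟩ := struct_split h hs
      obtain ⟨bs, h3, h4⟩ := ih _ h2 (by rw [Pi.sub_apply]; omega)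
      obtain ⟨ψ, h5, h6⟩ := struct_dls bs (τ - φ) hφ
      refine ⟨b :: bs, List.forall_mem_cons.2 ⟨hb, h3⟩, struct_fin (σ := dl b (dls bs τ)) ?_ b⟩
      convert struct_fin h4 b using 2
      rw [sub_add_cancel] at h6
      funext d
      simp only [h6, dl, Pi.add_apply, h5 d, h5.sub_eq d]
      ring
  exact key ((τ 0).toNat + 1) τ h (by omega)

end

section

/-! The Fourier transform of a finitely supported positive definite function is nonnegative. -/

open Finset Filter Topology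
open scoped InnerProductSpace

variable {Γ : Type} [AddCommGroup Γ] {H : Type} [NormedAddCommGroup H] [InnerProductSpace ℝ H]

theorem pf_slow (t : ℕ → ℕ) (d : ℕ) (h0 : 1 ≤ t 0) (hd : ∀ n, t n ≤ (n + 1) ^ d) {r : ℝ}
    (hr : 1 < r) : ∃ n, (t (n + 1) : ℝ) ≤ r * t n := by
  by_contra hcon
  push Not at hcon
  have hr0 : 0 < r := by linarith
  have h1 : ∀ n, r ^ n ≤ t n := fun n => by
    induction n with
    | zero => simpa using h0
    | succ n ih =>
      rw [pow_succ']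
      exact (mul_le_mul_of_nonneg_left ih hr0.le).trans (hcon n).le
  have h2 := (tendsto_pow_const_div_const_pow_of_one_lt d hr).comp (tendsto_add_atTop_nat 1)
  obtain ⟨n, hn⟩ := (h2.eventually (gt_mem_nhds (inv_pos.2 hr0))).exists
  simp only [Function.comp_apply] at hn
  rw [div_lt_iff₀ (by positivity), pow_succ', ← mul_assoc, inv_mul_cancel₀ hr0.ne', one_mul] at hn
  have h3 : (t n : ℝ) ≤ ((n + 1 : ℕ) : ℝ) ^ d := by exact_mod_cast hd n
  linarith [h1 n]

theorem pf_folner [DecidableEq Γ] (S : Finset Γ) (B : AddSubgroup Γ) (hB : ∀ k ∈ S, k ∈ B)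
    {ε : ℝ} (hε : 0 < ε) : ∃ T : Finset Γ, T.Nonempty ∧ (∀ a ∈ T, a ∈ B) ∧
      ∀ k ∈ S, (1 - ε) * #T ≤ #(T.filter fun b => b + k ∈ T) := by
  let T : ℕ → Finset Γ := fun n =>
    (Fintype.piFinset fun _ : S => range (n + 1)).image fun c => ∑ s : S, c s • (s : Γ)
  have hne : ∀ n, (T n).Nonempty := fun n =>
    ⟨_, mem_image_of_mem _ (Fintype.mem_piFinset.2 fun _ => mem_range.2 n.succ_pos : (0 : S → ℕ) ∈ _)⟩
  obtain ⟨n, hn⟩ := pf_slow (fun n => #(T n)) (Fintype.card S) (hne 0).card_pos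
    (fun n => card_image_le.trans (by simp)) (r := 1 + ε) (by linarith)
  refine ⟨T n, hne n, fun a ha => ?_, fun k hk => ?_⟩
  · obtain ⟨c, -, rfl⟩ := mem_image.1 ha
    exact sum_mem fun s _ => nsmul_mem (hB s s.2) _
  · have h1 : T n ⊆ T (n + 1) := image_subset_image
      (Fintype.piFinset_subset _ _ fun _ => range_mono (by omega))
    have h2 : (T n).image (· + k) ⊆ T (n + 1) := by
      intro x hx
      obtain ⟨a, ha, rfl⟩ := mem_image.1 hx
      obtain ⟨c, hc, rfl⟩ := mem_image.1 ha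
      refine mem_image.2 ⟨c + Pi.single ⟨k, hk⟩ 1, Fintype.mem_piFinset.2 fun s => ?_, ?_⟩
      · have h3 := mem_range.1 (Fintype.mem_piFinset.1 hc s)
        have h4 : (Pi.single (⟨k, hk⟩ : S) 1 : S → ℕ) s ≤ 1 := by
          rw [Pi.single_apply]; split_ifs <;> omega
        rw [mem_range, Pi.add_apply]; omega
      · simp only [Pi.add_apply, add_smul, sum_add_distrib, Pi.single_apply, ite_smul, one_smul,
          zero_smul, sum_ite_eq', mem_univ, if_true]
    have h3 : #((T n).image (· + k)) = #(T n) := card_image_of_injective _ (add_left_injective k)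
    have h4 : #((T n).filter fun b => b + k ∈ T n) = #((T n).image (· + k) ∩ T n) := by
      rw [← card_image_of_injective _ (add_left_injective k)]
      congr 1
      ext x
      simp only [mem_image, mem_filter, mem_inter]
      constructor
      · rintro ⟨a, ⟨ha, hb⟩, rfl⟩
        exact ⟨⟨a, ha, rfl⟩, hb⟩
      · rintro ⟨⟨a, ha, rfl⟩, hb⟩
        exact ⟨a, ⟨ha, hb⟩, rfl⟩
    have h5 := card_union_add_card_inter ((T n).image (· + k)) (T n)
    have h6 := card_le_card (union_subset h2 h1)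
    have h7 : (2 * #(T n) : ℝ) ≤ #(T (n + 1)) + #((T n).filter fun b => b + k ∈ T n) := by
      rw [h4]
      exact_mod_cast (by omega : 2 * #(T n) ≤ #(T (n + 1)) + #((T n).image (· + k) ∩ T n))
    linarith

theorem pf_gram {τ : Γ → ℤ} (h : Rep H τ) (T : Finset Γ) (c : Γ → ℝ) :
    0 ≤ ∑ a ∈ T, ∑ b ∈ T, c a * c b * τ (a - b) := by
  obtain ⟨e, he⟩ := h
  have := real_inner_self_nonneg (x := ∑ a ∈ T, c a • e a)
  simp only [sum_inner, inner_sum, inner_smul_left, inner_smul_right, he, conj_trivial,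
    mul_sum] at this
  rw [sum_comm] at this
  refine this.trans_eq (sum_congr rfl fun a _ => sum_congr rfl fun b _ => by ring)

theorem pf {τ : Γ → ℤ} (h : Rep H τ) (S : Finset Γ) (hS : ∀ k ∉ S, τ k = 0) (B : AddSubgroup Γ)
    (hB : ∀ k ∈ S, k ∈ B) (ψ : Γ → ℝ) (hψ : ∀ a ∈ B, ∀ b ∈ B, ψ (a + b) = ψ a + ψ b) :
    0 ≤ ∑ k ∈ S, (τ k : ℝ) * Real.cos (ψ k) := by
  classical
  set C : ℝ := ∑ k ∈ S, |(τ k : ℝ) * Real.cos (ψ k)| with hC
  have hC0 : 0 ≤ C := sum_nonneg fun _ _ => abs_nonneg _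
  have key : ∀ ε : ℝ, 0 < ε → -(ε * C) ≤ ∑ k ∈ S, (τ k : ℝ) * Real.cos (ψ k) := by
    intro ε hε
    obtain ⟨T, hne, hTB, hT⟩ := pf_folner S B hB hε
    have hpos : (0 : ℝ) < #T := by exact_mod_cast hne.card_pos
    have h1 : 0 ≤ ∑ b ∈ T, ∑ a ∈ T, (τ (a - b) : ℝ) * Real.cos (ψ (a - b)) := by
      rw [sum_comm]
      refine (add_nonneg (pf_gram h T fun a => Real.cos (ψ a))
        (pf_gram h T fun a => Real.sin (ψ a))).trans_eq ?_
      rw [← sum_add_distrib]
      refine sum_congr rfl fun a ha => ?_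
      rw [← sum_add_distrib]
      refine sum_congr rfl fun b hb => ?_
      have h2 := hψ (a - b) (sub_mem (hTB a ha) (hTB b hb)) b (hTB b hb)
      rw [sub_add_cancel] at h2
      rw [show ψ (a - b) = ψ a - ψ b by linarith, Real.cos_sub]
      ring
    have h2 : ∀ b, ∑ a ∈ T, (τ (a - b) : ℝ) * Real.cos (ψ (a - b)) =
        ∑ k ∈ S, if b + k ∈ T then (τ k : ℝ) * Real.cos (ψ k) else 0 := by
      intro b
      rw [← sum_filter, ← sum_filter_ne_zero, ← sum_filter_ne_zero (s := S.filter _)]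
      refine sum_bij' (fun a _ => a - b) (fun k _ => b + k) ?_ ?_ ?_ ?_ ?_
      · intro a ha
        obtain ⟨ha1, ha2⟩ := mem_filter.1 ha
        refine mem_filter.2 ⟨mem_filter.2 ⟨?_, by simpa using ha1⟩, ha2⟩
        by_contra hn
        exact ha2 (by simp [hS _ hn])
      · intro k hk
        obtain ⟨hk1, hk2⟩ := mem_filter.1 hk
        exact mem_filter.2 ⟨(mem_filter.1 hk1).2, by simpa using hk2⟩
      · intro a _; simp
      · intro k _; simp
      · intro a _; rfl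
    simp only [h2] at h1
    rw [sum_comm] at h1
    have h3 : ∑ k ∈ S, ∑ b ∈ T, (if b + k ∈ T then (τ k : ℝ) * Real.cos (ψ k) else 0) ≤
        ∑ k ∈ S, #T * ((τ k : ℝ) * Real.cos (ψ k) + ε * |(τ k : ℝ) * Real.cos (ψ k)|) := by
      refine sum_le_sum fun k hk => ?_
      rw [← sum_filter, sum_const, nsmul_eq_mul]
      have h4 := hT k hk
      have h5 : (#(T.filter fun b => b + k ∈ T) : ℝ) ≤ #T := by
        exact_mod_cast card_filter_le _ _
      set x := (τ k : ℝ) * Real.cos (ψ k)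
      generalize ((#(T.filter fun b => b + k ∈ T) : ℕ) : ℝ) = N at h4 h5 ⊢
      have h6 : 0 ≤ (#T - N) * (|x| + x) := mul_nonneg (by linarith) (by linarith [neg_abs_le x])
      have h7 : 0 ≤ (N - (1 - ε) * #T) * |x| := mul_nonneg (by linarith) (abs_nonneg x)
      nlinarith
    rw [← mul_sum, sum_add_distrib, ← mul_sum, ← hC] at h3
    have h4 := (mul_nonneg_iff_of_pos_left hpos).1 (h1.trans h3)
    linarith
  refine le_of_forall_pos_le_add fun δ hδ => ?_
  have h1 := key (δ / (C + 1)) (by positivity)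
  have h2 : δ / (C + 1) * C ≤ δ := by
    rw [div_mul_eq_mul_div, div_le_iff₀ (by positivity)]
    nlinarith
  linarith

end

end Pool.Agent.MP_108ce6_nt.Rig

end
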