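import Mathlib
import Pool.Agent.MP_108ce6_nt.Mg.Rig_Struct

namespace Pool.Agent.MP_108ce6_nt.Rig

section

/-! Integral functionals on intervals of length four whose centre tends to zero. -/

open Finset Polynomial Filter Topology Real

section
variable {Γ : Type} [AddCommGroup Γ] {ι : Type} {F : Filter ι} {rep : Γ → ι → ℤ}
  {L : ι → ℝ[X] →ₗ[ℝ] ℝ}

/-- `σ` is the limit of the Chebyshev moments of the weights `V`. -/
def Rel (F : Filter ι) (rep : Γ → ι → ℤ) (L : ι → ℝ[X] →ₗ[ℝ] ℝ) (V : ι → ℝ[X]) (σ : Γ → ℤ) :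
    Prop := ∀ g, ∀ᶠ n in F, L n (V n * ch 0 (rep g n)) = σ g

theorem rep_sub (hadd : ∀ g g', ∀ᶠ n in F, rep (g + g') n = rep g n + rep g' n) (g g' : Γ) :
    ∀ᶠ n in F, rep (g - g') n = rep g n - rep g' n :=
  (hadd (g - g') g').mono fun n h => by rw [sub_add_cancel] at h; omega

theorem rep_zero (hadd : ∀ g g', ∀ᶠ n in F, rep (g + g') n = rep g n + rep g' n) :
    ∀ᶠ n in F, rep 0 n = 0 :=
  (rep_sub hadd 0 0).mono fun n h => by simpa using h

theorem Rel.dl (hadd : ∀ g g', ∀ᶠ n in F, rep (g + g') n = rep g n + rep g' n) {V : ι → ℝ[X]}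
    {σ : Γ → ℤ} (h : Rel F rep L V σ) (b : Γ) :
    Rel F rep L (fun n => V n * (2 - ch 0 (rep b n))) (dl b σ) := fun g => by
  filter_upwards [h g, h (g + b), h (g - b), hadd g b, rep_sub hadd g b] with n h1 h2 h3 h4 h5
  have e : V n * (2 - ch 0 (rep b n)) * ch 0 (rep g n) = V n * ch 0 (rep g n) +
      V n * ch 0 (rep g n) - V n * ch 0 (rep (g + b) n) - V n * ch 0 (rep (g - b) n) := by
    rw [h4, h5]; linear_combination (-V n) * ch_mul 0 (rep g n) (rep b n)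
  rw [e, map_sub, map_sub, map_add, h1, h2, h3, Rig.dl]
  push_cast; ring

/-- The product of the factors `2 - ch b`. -/
noncomputable def Wp (bs : List ℤ) : ℝ[X] := (bs.map fun b => 2 - ch 0 b).prod

theorem Rel.dls (hadd : ∀ g g', ∀ᶠ n in F, rep (g + g') n = rep g n + rep g' n) {V : ι → ℝ[X]}
    {σ : Γ → ℤ} (h : Rel F rep L V σ) (bs : List Γ) :
    Rel F rep L (fun n => V n * Wp (bs.map fun b => rep b n) ^ 2) (dls bs σ) := by
  induction bs with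
  | nil => simpa [Wp, Rig.dls] using h
  | cons b bs ih =>
    change Rel F rep L _ (Rig.dl b (Rig.dl b (Rig.dls bs σ)))
    convert (ih.dl hadd b).dl hadd b using 2
    simp only [Wp, List.map_cons, List.prod_cons]; ring

theorem Rel.pd [F.NeBot] (hadd : ∀ g g', ∀ᶠ n in F, rep (g + g') n = rep g n + rep g' n)
    {V : ι → ℝ[X]} {σ : Γ → ℤ} (h : Rel F rep L V σ)
    (hp : ∀ (S : Finset Γ) (c : Γ → ℝ) (ε : ℝ), 0 < ε → ∀ᶠ n in F,
      -ε ≤ L n (V n * ∑ a ∈ S, ∑ b ∈ S, (c a * c b) • ch 0 (rep a n - rep b n))) : PD σ := by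
  refine ⟨fun k => ?_, fun S c => le_of_forall_pos_le_add fun ε hε => ?_⟩
  · obtain ⟨n, h1, h2, h3, h4⟩ :=
      ((h k).and ((h (-k)).and ((rep_sub hadd 0 k).and (rep_zero hadd)))).exists
    rw [zero_sub, h4, zero_sub] at h3
    rw [h3, ch_neg, h1] at h2
    exact_mod_cast h2.symm
  · have h1 : ∀ᶠ n in F, ∀ a ∈ S, ∀ b ∈ S,
        L n (V n * ch 0 (rep a n - rep b n)) = σ (a - b) :=
      (eventually_all_finset S).2 fun a _ => (eventually_all_finset S).2 fun b _ => by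
        filter_upwards [h (a - b), rep_sub hadd a b] with n h1 h2
        rw [← h2, h1]
    obtain ⟨n, h2, h3⟩ := (h1.and (hp S c ε hε)).exists
    simp only [mul_sum, map_sum, mul_smul_comm, map_smul, smul_eq_mul] at h3
    rw [sum_congr rfl fun a ha => sum_congr rfl fun b hb => by rw [h2 a ha b hb]] at h3
    linarith

theorem exists_hom (hadd : ∀ g g', ∀ᶠ n in F, rep (g + g') n = rep g n + rep g' n)
    (S : Finset Γ) : ∃ B : AddSubgroup Γ, (∀ k ∈ S, k ∈ B) ∧ ∀ᶠ n in F, ∃ ψ : Γ → ℤ,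
      (∀ a ∈ B, ∀ b ∈ B, ψ (a + b) = ψ a + ψ b) ∧ ∀ k ∈ S, ψ k = rep k n := by
  classical
  set π' := Fintype.linearCombination ℤ fun k : S => (k : Γ) with hπ
  set ψ' := fun n => Fintype.linearCombination ℤ fun k : S => rep k n with hψ
  let ρ : Γ →+ Germ F ℤ := AddMonoidHom.mk' (fun g => ((rep g : ι → ℤ) : Germ F ℤ))
    fun g g' => by rw [← Germ.coe_add]; exact Germ.coe_eq.2 (hadd g g')
  have hA : ∀ γ, π' γ = 0 → ∀ᶠ n in F, ψ' n γ = 0 := fun γ hγ => by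
    have h1 : ρ (π' γ) = Germ.coeAddHom F (∑ k : S, γ k • rep k) := by
      simp only [hπ, Fintype.linearCombination_apply, map_sum, map_zsmul]
      rfl
    rw [hγ, map_zero] at h1
    refine (Germ.coe_eq.1 (h1.symm.trans Germ.coe_zero.symm)).mono fun n hn => ?_
    simpa [hψ, Fintype.linearCombination_apply] using hn
  obtain ⟨T, hT⟩ := IsNoetherian.noetherian (LinearMap.ker π')
  have hs : ∀ k : S, π' (Pi.single k 1) = k := fun k => by simp [hπ]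
  refine ⟨(LinearMap.range π').toAddSubgroup, fun k hk => ⟨_, hs ⟨k, hk⟩⟩, ?_⟩
  filter_upwards [(eventually_all_finset T).2 fun γ hγ =>
    hA γ (LinearMap.mem_ker.1 (hT ▸ Submodule.subset_span hγ))] with n hn
  have hker : LinearMap.ker π' ≤ LinearMap.ker (ψ' n) := hT ▸ Submodule.span_le.2 hn
  set ψ : Γ → ℤ := fun a => if h : ∃ γ, π' γ = a then ψ' n h.choose else 0 with hψ2
  have hc : ∀ γ, ψ (π' γ) = ψ' n γ := fun γ => by
    have h : ∃ γ', π' γ' = π' γ := ⟨γ, rfl⟩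
    simp only [hψ2, dif_pos h]
    exact LinearMap.sub_mem_ker_iff.1 (hker (LinearMap.sub_mem_ker_iff.2 h.choose_spec))
  refine ⟨ψ, ?_, fun k hk => ?_⟩
  · rintro _ ⟨γ, rfl⟩ _ ⟨γ', rfl⟩
    rw [← map_add, hc, hc, hc, map_add]
  · have := hc (Pi.single ⟨k, hk⟩ 1)
    rw [hs] at this
    simpa [hψ] using this

theorem core [F.NeBot] (hadd : ∀ g g', ∀ᶠ n in F, rep (g + g') n = rep g n + rep g' n)
    {V : ι → ℝ[X]} {σ : Γ → ℤ} (h : Rel F rep L V σ)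
    (hp : ∀ (S : Finset Γ) (c : Γ → ℝ) (ε : ℝ), 0 < ε → ∀ᶠ n in F,
      -ε ≤ L n (V n * ∑ a ∈ S, ∑ b ∈ S, (c a * c b) • ch 0 (rep a n - rep b n))) :
    ∃ (bs : List Γ) (S : Finset Γ) (τ : Γ → ℤ), (∀ b ∈ bs, b ≠ 0) ∧ (∀ k ∉ S, τ k = 0) ∧
      Rel F rep L (fun n => V n * Wp (bs.map fun b => rep b n) ^ 2) τ ∧
      ∀ᶠ n in F, ∀ θ : ℝ, 0 ≤ ∑ k ∈ S, (τ k : ℝ) * cos (rep k n * θ) := by
  obtain ⟨H, _, _, _, hH⟩ := gns (h.pd hadd hp)
  obtain ⟨bs, hbs, hfin⟩ := struct hH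
  have hS : ∀ k ∉ hfin.toFinset, dls bs σ k = 0 := fun k hk => by simpa using hk
  refine ⟨bs, hfin.toFinset, dls bs σ, hbs, hS, h.dls hadd bs, ?_⟩
  obtain ⟨B, hB, hψ⟩ := exists_hom hadd hfin.toFinset
  filter_upwards [hψ] with n ⟨ψ, h1, h2⟩ θ
  have := pf (hH.dls bs) _ hS B hB (fun a => ψ a * θ) fun a ha b hb => by
    rw [h1 a ha b hb]; push_cast; ring
  rwa [sum_congr rfl fun k hk => by rw [h2 k hk]] at this

end

theorem toep_nonneg {Γ : Type} (S : Finset Γ) (c : Γ → ℝ) (k : Γ → ℤ) {x : ℝ}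
    (hx : x ∈ Set.Icc (0 - 2 : ℝ) (0 + 2)) :
    0 ≤ (∑ a ∈ S, ∑ b ∈ S, (c a * c b) • ch 0 (k a - k b)).eval x := by
  obtain ⟨θ, -, rfl⟩ := exists_cos hx
  have e : (∑ a ∈ S, ∑ b ∈ S, (c a * c b) • ch 0 (k a - k b)).eval (0 + 2 * cos θ) =
      2 * ((∑ a ∈ S, c a * cos (k a * θ)) ^ 2 + (∑ a ∈ S, c a * sin (k a * θ)) ^ 2) := by
    simp only [eval_finsetSum, eval_smul, ch_eval, sq, sum_mul_sum, ← sum_add_distrib, smul_eq_mul]
    simp only [mul_sum]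
    refine sum_congr rfl fun a _ => sum_congr rfl fun b _ => ?_
    push_cast
    rw [sub_mul, cos_sub]; ring
  rw [e]; positivity

theorem exists_cosh {x : ℝ} (hx : 2 < x) : ∃ s, 0 < s ∧ s ^ 2 ≤ x - 2 ∧ x = 0 + 2 * cosh s := by
  have h1 := cosh_arcosh (show 1 ≤ x / 2 by linarith)
  have h0 := arcosh_pos (show 1 < x / 2 by linarith)
  refine ⟨arcosh (x / 2), h0, ?_, by rw [h1]; ring⟩
  set s := arcosh (x / 2)
  have h2 := cosh_two_mul (s / 2)
  have h3 := cosh_sq (s / 2)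
  have h4 := self_le_sinh_iff.2 (show 0 ≤ s / 2 by linarith)
  rw [show 2 * (s / 2) = s by ring] at h2
  nlinarith

theorem ch_bound {δ : ℝ} {N lam : ℕ} (hN : δ * N ^ 2 ≤ 4) {k : ℤ} (hk : |k| ≤ lam * N) {x : ℝ}
    (hx1 : -2 ≤ x) (hx2 : x ≤ δ + 2) : |(ch 0 k).eval x| ≤ 2 * cosh (2 * lam) := by
  rcases le_or_gt x 2 with h | h
  · exact (abs_ch_le ⟨by linarith, by linarith⟩ k).trans (by linarith [one_le_cosh (2 * lam)])
  obtain ⟨s, hs, hs2, rfl⟩ := exists_cosh h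
  rw [ch_eval_cosh, abs_of_pos (by positivity)]
  refine mul_le_mul_of_nonneg_left (cosh_le_cosh.2 (sq_le_sq.1 ?_)) two_pos.le
  have h1 : |(k : ℝ)| ≤ lam * N := by exact_mod_cast hk
  have h2 : (k : ℝ) ^ 2 ≤ (lam * N) ^ 2 := sq_le_sq.2 (h1.trans (le_abs_self _))
  have h3 : s ^ 2 * N ^ 2 ≤ 4 := (mul_le_mul_of_nonneg_right (by linarith) (sq_nonneg _)).trans hN
  calc (k * s) ^ 2 = k ^ 2 * s ^ 2 := by ring
    _ ≤ (lam * N) ^ 2 * s ^ 2 := by gcongr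
    _ = lam ^ 2 * (s ^ 2 * N ^ 2) := by ring
    _ ≤ lam ^ 2 * 4 := by gcongr
    _ = (2 * lam) ^ 2 := by ring

theorem Wp_ne {bs : List ℤ} {x : ℝ} (h : ∀ b ∈ bs, (ch 0 b).eval x ≠ 2) : (Wp bs).eval x ≠ 0 := by
  induction bs with
  | nil => simp [Wp]
  | cons b bs ih =>
    have := ih fun b hb => h b (List.mem_cons_of_mem _ hb)
    simp only [Wp, List.map_cons, List.prod_cons, eval_mul, eval_sub, eval_ofNat] at this ⊢
    exact mul_ne_zero (sub_ne_zero.2 (h b List.mem_cons_self).symm) this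

theorem ulim {ι : Type} (U : Ultrafilter ι) {g : ι → ℝ} {B : ℝ} (hB : ∀ᶠ n in U, |g n| ≤ B)
    (hg : ∀ n, ∃ z : ℤ, g n = z) : ∃ z : ℤ, ∀ᶠ n in U, g n = z := by
  choose z hz using hg
  obtain ⟨c, -, hc⟩ := (isCompact_Icc (a := -B) (b := B)).ultrafilter_le_nhds (U.map g)
    (le_principal_iff.2 (hB.mono fun n hn => abs_le.1 hn))
  obtain ⟨w, -, hw⟩ := struct_int (U := (U : Filter ι)) (g := z) (c := c)
    (by simp only [← hz]; exact hc)
  exact ⟨w, hw.mono fun n hn => by rw [hz, hn]⟩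

theorem int_ch {L : ℝ[X] →ₗ[ℝ] ℝ} (h : ∀ j : ℕ, ∃ z : ℤ, L (X ^ j) = z) (p : ℤ[X]) (k : ℤ) :
    ∃ z : ℤ, L (p.map (Int.castRingHom ℝ) * ch 0 k) = z := by
  simpa [ch_zero_left] using int_map h (p * Chebyshev.C ℤ k)

theorem exists_group {ι : Type} (U : Ultrafilter ι) (N : ι → ℕ) :
    ∃ (Γ : Type) (_ : AddCommGroup Γ) (rep : Γ → ι → ℤ),
      (∀ g g', ∀ᶠ n in U, rep (g + g') n = rep g n + rep g' n) ∧
      (∀ S : Finset Γ, ∃ lam : ℕ, ∀ᶠ n in U, ∀ g ∈ S, |rep g n| ≤ lam * N n) ∧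
      (∀ g g', g ≠ g' → ∀ᶠ n in U, rep g n ≠ rep g' n) ∧
      ∀ (j : ι → ℤ) (lam : ℕ), (∀ᶠ n in U, |j n| ≤ lam * N n) →
        ∃ g, ∀ᶠ n in U, rep g n = j n := by
  have hex : ∀ g : Germ (U : Filter ι) ℤ, ∃ f : ι → ℤ, g = f := fun g =>
    g.inductionOn fun f => ⟨f, rfl⟩
  choose r hr using hex
  have hr' : ∀ f : ι → ℤ, ∀ᶠ n in U, r f n = f n := fun f => Germ.coe_eq.1 (hr f).symm
  have hradd : ∀ g g', ∀ᶠ n in U, r (g + g') n = r g n + r g' n := fun g g' =>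
    Germ.coe_eq.1 (by rw [Germ.coe_add, ← hr, ← hr, ← hr] : ((r (g + g') : ι → ℤ) :
      Germ (U : Filter ι) ℤ) = (r g + r g' : ι → ℤ))
  let Γ : AddSubgroup (Germ (U : Filter ι) ℤ) :=
    { carrier := {g | ∃ lam : ℕ, ∀ᶠ n in U, |r g n| ≤ lam * N n}
      zero_mem' := ⟨0, (rep_zero hradd).mono fun n h => by simp [h]⟩
      add_mem' := by
        rintro a b ⟨l, hl⟩ ⟨l', hl'⟩
        refine ⟨l + l', ?_⟩
        filter_upwards [hl, hl', hradd a b] with n h1 h2 h3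
        rw [h3]; push_cast
        linarith [abs_add_le (r a n) (r b n)]
      neg_mem' := by
        rintro a ⟨l, hl⟩
        refine ⟨l, ?_⟩
        filter_upwards [hl, rep_sub hradd 0 a, rep_zero hradd] with n h1 h2 h3
        rw [zero_sub, h3, zero_sub] at h2
        rwa [h2, abs_neg] }
  set rep : Γ → ι → ℤ := fun g => r g with hrep
  have hadd : ∀ g g' : Γ, ∀ᶠ n in U, rep (g + g') n = rep g n + rep g' n :=
    fun g g' => hradd g g'
  have hbd : ∀ S : Finset Γ, ∃ lam : ℕ, ∀ᶠ n in U, ∀ g ∈ S, |rep g n| ≤ lam * N n := fun S => by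
    choose l hl using fun g : Γ => g.2
    refine ⟨S.sup l, (eventually_all_finset S).2 fun g hg => (hl g).mono fun n h => h.trans ?_⟩
    have := le_sup (f := l) hg
    gcongr
  have hne : ∀ g g' : Γ, g ≠ g' → ∀ᶠ n in U, rep g n ≠ rep g' n := fun g g' h =>
    Ultrafilter.eventually_not.2 fun h' => h (Subtype.ext (by
      rw [hr g.1, hr g'.1]; exact Germ.coe_eq.2 h'))
  refine ⟨Γ, inferInstance, rep, hadd, hbd, hne, fun j lam hj => ⟨⟨j, lam, ?_⟩, hr' j⟩⟩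
  filter_upwards [hj, hr' j] with n h h'
  rwa [h']

theorem toep_ge {Γ : Type} (S : Finset Γ) (c : Γ → ℝ) (k : Γ → ℤ) {δ : ℝ} {N lam : ℕ}
    (hδ : 0 < δ) (hN : δ * N ^ 2 ≤ 4) (hk : ∀ g ∈ S, |k g| ≤ lam * N) {x : ℝ}
    (hx : x ∈ Set.Icc (δ - 2) (δ + 2)) :
    -(δ ^ 2 * ∑ a ∈ S, ∑ b ∈ S, |c a * c b| * (2 * cosh (2 * (2 * lam : ℕ)))) ≤
      ((X - C 2) ^ 2 * ∑ a ∈ S, ∑ b ∈ S, (c a * c b) • ch 0 (k a - k b)).eval x := by
  have hA0 : 0 ≤ ∑ a ∈ S, ∑ b ∈ S, |c a * c b| * (2 * cosh (2 * (2 * lam : ℕ))) :=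
    sum_nonneg fun _ _ => sum_nonneg fun _ _ => by positivity
  rw [eval_mul]
  simp only [eval_pow, eval_sub, eval_X, eval_C]
  rcases le_or_gt x 2 with h | h
  · have := toep_nonneg S c k (x := x) ⟨by linarith [hx.1], by linarith⟩
    exact le_trans (neg_nonpos.2 (mul_nonneg (sq_nonneg _) hA0)) (mul_nonneg (sq_nonneg _) this)
  have h4 : |(∑ a ∈ S, ∑ b ∈ S, (c a * c b) • ch 0 (k a - k b)).eval x| ≤
      ∑ a ∈ S, ∑ b ∈ S, |c a * c b| * (2 * cosh (2 * (2 * lam : ℕ))) := by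
    simp only [eval_finsetSum, eval_smul, smul_eq_mul]
    refine (abs_sum_le_sum_abs _ _).trans (sum_le_sum fun a ha =>
      (abs_sum_le_sum_abs _ _).trans (sum_le_sum fun b hb => ?_))
    rw [abs_mul]
    refine mul_le_mul_of_nonneg_left (ch_bound hN ?_ (by linarith) hx.2) (abs_nonneg _)
    push_cast
    linarith [abs_sub (k a) (k b), hk a ha, hk b hb]
  have h5 : (x - 2) ^ 2 ≤ δ ^ 2 := by nlinarith [hx.2]
  nlinarith [(abs_le.1 h4).1, sq_nonneg (x - 2)]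

theorem near_zero {ι : Type} (U : Ultrafilter ι) (m : ℝ) (δ : ι → ℝ) (L : ι → ℝ[X] →ₗ[ℝ] ℝ)
    (hδ : ∀ n, 0 < δ n) (hδ0 : Tendsto δ U (𝓝 0))
    (hpos : ∀ n, Pos (L n) (Set.Icc (δ n - 2) (δ n + 2))) (hm : ∀ n, L n 1 ≤ m)
    (hint : ∀ n (j : ℕ), ∃ z : ℤ, L n (X ^ j) = z) :
    ∀ᶠ n in U, ∃ W : ℝ[X], (∀ x, 2 < x → W.eval x ≠ 0) ∧ L n (W ^ 2) = 0 := by
  classical
  obtain ⟨N, hN⟩ : ∃ N : ι → ℕ, N = fun n => ⌈1 / √(δ n)⌉₊ := ⟨_, rfl⟩
  have hN1 : ∀ n, 1 ≤ δ n * N n ^ 2 := fun n => by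
    have h1 := sqrt_pos.2 (hδ n)
    have h2 : 1 ≤ N n * √(δ n) := hN ▸ (div_le_iff₀ h1).1 (Nat.le_ceil (1 / √(δ n)))
    rw [← sq_sqrt (hδ n).le]
    nlinarith
  have hN4 : ∀ᶠ n in U, δ n ≤ 1 ∧ δ n * N n ^ 2 ≤ 4 := by
    filter_upwards [hδ0.eventually (ge_mem_nhds one_pos)] with n hn
    have h1 := sqrt_pos.2 (hδ n)
    have h2 := Nat.ceil_lt_add_one (show 0 ≤ 1 / √(δ n) by positivity)
    have h3 : √(δ n) ≤ 1 := sqrt_le_one.2 hn
    have h4 : (N n : ℝ) * √(δ n) ≤ 2 := by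
      have := mul_le_mul_of_nonneg_right h2.le h1.le
      rw [add_mul, one_div, inv_mul_cancel₀ h1.ne'] at this
      simp only [hN, one_div]; linarith
    refine ⟨hn, ?_⟩
    rw [← sq_sqrt (hδ n).le]
    have h5 : 0 ≤ (N n : ℝ) * √(δ n) := by positivity
    nlinarith
  obtain ⟨Γ, _, rep, hadd, hbd, hne, hsurj⟩ := exists_group U N
  have hσ : ∀ g : Γ, ∃ z : ℤ, ∀ᶠ n in U, L n ((X - C 2) ^ 2 * ch 0 (rep g n)) = z := fun g => by
    obtain ⟨lam, hl⟩ := hbd {g}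
    refine ulim U (B := 16 * (2 * cosh (2 * lam)) * m) ?_ fun n => ?_
    · filter_upwards [hl, hN4] with n h1 h2
      refine ((hpos n).abs_le' (M := 16 * (2 * cosh (2 * lam))) fun x hx => ?_).trans
        (mul_le_mul_of_nonneg_left (hm n) (by positivity))
      rw [eval_mul, abs_mul]
      refine mul_le_mul ?_ (ch_bound h2.2 (h1 g (mem_singleton_self g))
        (by linarith [hx.1, hδ n]) hx.2) (abs_nonneg _) (by norm_num)
      simp only [eval_pow, eval_sub, eval_X, eval_C, abs_sq]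
      have h3 : -4 ≤ x - 2 := by linarith [hx.1, hδ n]
      have h4 : x - 2 ≤ 4 := by linarith [hx.2, h2.1]
      nlinarith
    · have := int_ch (hint n) ((X - C 2) ^ 2) (rep g n)
      rwa [Polynomial.map_pow, Polynomial.map_sub, map_X, map_C, map_ofNat] at this
  choose σ hσ using hσ
  obtain ⟨bs, S, τ, hbs, hS, hrel, hρ⟩ := core (L := L) (V := fun _ => (X - C 2) ^ 2) hadd hσ
    fun S c ε hε => by
      obtain ⟨lam, hl⟩ := hbd S
      obtain ⟨A, hA0, hA⟩ : ∃ A : ℝ, 0 ≤ A ∧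
          A = ∑ a ∈ S, ∑ b ∈ S, |c a * c b| * (2 * cosh (2 * (2 * lam : ℕ))) :=
        ⟨_, sum_nonneg fun _ _ => sum_nonneg fun _ _ => by positivity, rfl⟩
      have hlim : Tendsto (fun n => δ n ^ 2 * A * m) U (𝓝 0) := by
        simpa using ((hδ0.pow 2).mul_const A).mul_const m
      filter_upwards [hl, hN4, hlim.eventually (ge_mem_nhds hε)] with n h1 h2 h3
      refine le_trans ?_ ((hpos n).ge (M := δ n ^ 2 * A) fun x hx =>
        hA ▸ toep_ge S c (fun a => rep a n) (hδ n) h2.2 h1 hx)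
      have := mul_le_mul_of_nonneg_left (hm n) (show 0 ≤ δ n ^ 2 * A by positivity)
      linarith
  obtain ⟨lam0, hl0⟩ := hbd S
  obtain ⟨lam, hgap⟩ := gap S.card lam0
  have hall : ∀ᶠ n in U, ∀ j : ℤ, |j| ≤ lam * N n →
      L n ((X - C 2) ^ 2 * Wp (bs.map fun b => rep b n) ^ 2 * ch 0 j) =
        ∑ i ∈ S with rep i n = j, (τ i : ℝ) := by
    by_contra hc
    have hc' := Ultrafilter.eventually_not.2 hc
    simp only [not_forall] at hc'
    obtain ⟨j, hj⟩ := hc'.choice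
    obtain ⟨g, hg⟩ := hsurj j lam (hj.mono fun n ⟨h, _⟩ => h)
    have h1 : ∀ᶠ n in U, ∀ i ∈ S, i ≠ g → rep i n ≠ rep g n :=
      (eventually_all_finset S).2 fun i _ => by
        by_cases h : i = g
        · simp [h]
        · exact (hne i g h).mono fun n hn _ => hn
    obtain ⟨n, ⟨-, h2⟩, h3, h4, h5⟩ := (hj.and (hg.and ((hrel g).and h1))).exists
    refine h2 ?_
    rw [← h3, h4, sum_filter, sum_eq_single g (fun i hi hig => if_neg (h5 i hi hig))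
      fun hg => by simp [hS g hg], if_pos rfl]
  have hb0 : ∀ᶠ n in U, ∀ b ∈ bs.toFinset, rep b n ≠ 0 :=
    (eventually_all_finset _).2 fun b hb => by
      filter_upwards [hne b 0 (hbs b (List.mem_toFinset.1 hb)), rep_zero hadd] with n h1 h2
      rwa [h2] at h1
  filter_upwards [hρ, hl0, hall, hb0] with n h1 h2 h3 h4
  refine ⟨(X - C 2) * Wp (bs.map fun b => rep b n), fun x hx => ?_, ?_⟩
  · rw [eval_mul]
    refine mul_ne_zero (by simp; linarith) (Wp_ne fun b hb => ?_)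
    obtain ⟨b', hb', rfl⟩ := List.mem_map.1 hb
    obtain ⟨s, hs, -, rfl⟩ := exists_cosh hx
    have := one_lt_cosh.2 (mul_ne_zero
      (Int.cast_ne_zero.2 (h4 b' (List.mem_toFinset.2 hb'))) hs.ne')
    rw [ch_eval_cosh]; linarith
  refine le_antisymm ?_ ((hpos n).sq _)
  have := hgap S (fun i => rep i n) (fun i => τ i) ((L n).comp (LinearMap.mulLeft ℝ
    (((X - C 2) * Wp (bs.map fun b => rep b n)) ^ 2))) (δ n) (N n) (hN1 n) le_rfl h2 h1
    (fun j hj => by simpa only [LinearMap.comp_apply, LinearMap.mulLeft_apply, mul_pow] using h3 j hj)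
    fun f => hpos n _ fun x hx => by
      simp only [LinearMap.mulLeft_apply, eval_mul, eval_pow, eval_add, eval_X, eval_C]
      exact mul_nonneg (sq_nonneg _) (mul_nonneg (by linarith [hx.1]) (sq_nonneg _))
  simpa using this

theorem atom_cos {L : ℝ[X] →ₗ[ℝ] ℝ} (hpos : Pos L (Set.Icc (0 - 2) (0 + 2)))
    (hint : ∀ j : ℕ, ∃ z : ℤ, L (X ^ j) = z) {x w : ℝ} (hx : x ∈ Set.Icc (0 - 2 : ℝ) (0 + 2))
    (hw : 0 < w) (h : ∀ p : ℝ[X], w * p.eval x ^ 2 ≤ L (p ^ 2)) :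
    ∃ q : ℚ, x = 2 * cos (2 * π * q) := by
  have hσ : ∀ k : ℤ, ∃ z : ℤ, L (1 * ch 0 k) = z := fun k => by simpa using int_ch hint 1 k
  choose σ hσ using hσ
  obtain ⟨bs, S, τ, hbs, hS, hrel, -⟩ := core (F := (⊤ : Filter Unit)) (rep := fun k _ => k)
    (L := fun _ => L) (V := fun _ => 1) (fun _ _ => Eventually.of_forall fun _ => rfl)
    (fun k => Eventually.of_forall fun _ => hσ k) fun S c ε hε => Eventually.of_forall fun _ => by
      rw [one_mul]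
      exact (neg_nonpos.2 hε.le).trans (hpos _ fun y hy => toep_nonneg S c id hy)
  obtain ⟨θ, -, rfl⟩ := exists_cos hx
  by_contra hq
  have hW : (Wp bs).eval (0 + 2 * cos θ) ≠ 0 := Wp_ne fun b hb h2 => by
    rw [ch_eval] at h2
    obtain ⟨n, hn⟩ := (cos_eq_one_iff _).1 (show cos (b * θ) = 1 by linarith)
    have hb0 : (b : ℝ) ≠ 0 := Int.cast_ne_zero.2 (hbs b hb)
    refine hq ⟨n / b, ?_⟩
    rw [zero_add, show θ = 2 * π * ((n / b : ℚ) : ℝ) by push_cast; field_simp; linarith]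
  have ht : ∀ k : ℤ, L (Wp bs ^ 2 * ch 0 k) = τ k := fun k => by
    simpa using (hrel k).exists
  set K := S.sup Int.natAbs with hK
  have hτ : ∀ k : ℤ, K < k.natAbs → τ k = 0 := fun k hk =>
    hS k fun h => (le_sup (f := Int.natAbs) h).not_gt hk
  have hj : ∀ i : ℕ, ∃ j : ℕ, (j = 4 ^ i * (K + 1) ∨ j = 2 * (4 ^ i * (K + 1))) ∧
      1 ≤ (2 * cos (j * θ)) ^ 2 := fun i => by
    by_cases h1 : 1 ≤ (2 * cos (((4 ^ i * (K + 1) : ℕ) : ℝ) * θ)) ^ 2
    · exact ⟨_, Or.inl rfl, h1⟩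
    · refine ⟨_, Or.inr rfl, ?_⟩
      rw [Nat.cast_mul 2, mul_assoc, Nat.cast_ofNat, cos_two_mul]
      nlinarith
  choose j hj hj1 using hj
  have hlt : ∀ a b, a < b → j a + K < j b := fun a b hab => by
    have h1 : 4 ^ (a + 1) ≤ 4 ^ b := Nat.pow_le_pow_right (by norm_num) hab
    have h2 := Nat.mul_le_mul_right (K + 1) h1
    have h3 : K + 1 ≤ 4 ^ a * (K + 1) := Nat.le_mul_of_pos_left _ (by positivity)
    rw [pow_succ, mul_right_comm] at h2
    rcases hj a with h | h <;> rcases hj b with h' | h' <;> omega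
  have hK' : ∀ a, K < j a := fun a => by
    have h3 : K + 1 ≤ 4 ^ a * (K + 1) := Nat.le_mul_of_pos_left _ (by positivity)
    rcases hj a with h | h <;> omega
  have horth : ∀ a b, L (Wp bs ^ 2 * (ch 0 (j a) * ch 0 (j b))) = if a = b then (τ 0 : ℝ) else 0 :=
    fun a b => by
      rw [ch_mul, mul_add, map_add, ht, ht, hτ _ (by have := hK' a; omega)]
      split_ifs with hab
      · simp [hab]
      · rw [hτ]
        · simp
        · rcases lt_or_gt_of_ne hab with h | h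
          · have := hlt _ _ h; omega
          · have := hlt _ _ h; omega
  obtain ⟨M, hM⟩ := exists_nat_gt (τ 0 / (w * (Wp bs).eval (0 + 2 * cos θ) ^ 2))
  have h1 := h (Wp bs * ∑ a ∈ range M, (2 * cos (j a * θ)) • ch 0 (j a))
  have h2 : L ((Wp bs * ∑ a ∈ range M, (2 * cos (j a * θ)) • ch 0 (j a)) ^ 2) =
      τ 0 * ∑ a ∈ range M, (2 * cos (j a * θ)) ^ 2 := by
    rw [mul_pow, sq (∑ a ∈ range M, _), sum_mul_sum]
    simp only [mul_sum, map_sum, smul_mul_assoc, mul_smul_comm, map_smul, horth, smul_eq_mul,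
      mul_ite, mul_zero, sum_ite_eq]
    exact sum_congr rfl fun a ha => by rw [if_pos ha]; ring
  have h3 : (∑ a ∈ range M, (2 * cos (j a * θ)) • ch 0 (j a)).eval (0 + 2 * cos θ) =
      ∑ a ∈ range M, (2 * cos (j a * θ)) ^ 2 := by
    simp only [eval_finsetSum, eval_smul, ch_eval, smul_eq_mul, sq, Int.cast_natCast]
  have h4 : (M : ℝ) ≤ ∑ a ∈ range M, (2 * cos (j a * θ)) ^ 2 := by
    simpa using card_nsmul_le_sum (range M) _ 1 fun a _ => hj1 a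
  have h5 : 0 < w * (Wp bs).eval (0 + 2 * cos θ) ^ 2 := by positivity
  have h6 : (0 : ℝ) ≤ τ 0 := by
    rw [← ht, ch_zero, mul_two, map_add]; linarith [hpos.sq (Wp bs)]
  rw [h2, eval_mul, h3] at h1
  rw [div_lt_iff₀ h5] at hM
  have h7 : (0 : ℝ) < M := by nlinarith
  generalize ∑ a ∈ range M, (2 * cos (j a * θ)) ^ 2 = A at h1 h4
  have h8 : A * (τ 0 - A * (w * (Wp bs).eval (0 + 2 * cos θ) ^ 2)) < 0 :=
    mul_neg_of_pos_of_neg (by linarith) (by nlinarith)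
  nlinarith

end

end Pool.Agent.MP_108ce6_nt.Rig
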